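import Mathlib

/-!
A counting lemma: if each of few events depends on one coordinate with few bad values, then
some point avoids all events.
-/

namespace Pool.Agent.H23

open Finset

theorem exists_avoid {ι E : Type} [Fintype ι] [DecidableEq ι] [Fintype E] (K D : ℕ)
    (bad : E → (ι → Fin K) → Prop) (j : E → ι)
    (h : ∀ e w, ∀ B : Finset (Fin K),
      (∀ x ∈ B, bad e (Function.update w (j e) x)) → B.card ≤ D)
    (hK : Fintype.card E * D < K) : ∃ w, ∀ e, ¬ bad e w := by
  classical
  by_contra hcon
  push Not at hcon
  have hKpos : 0 < K := by omega
  have : NeZero K := ⟨hKpos.ne'⟩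
  -- number of bad points of each event
  let N : E → ℕ := fun e => (univ.filter fun w : ι → Fin K => bad e w).card
  have hN : ∀ e, K * N e ≤ Fintype.card (ι → Fin K) * D := by
    intro e
    let P : Finset ((ι → Fin K) × Fin K) :=
      univ.filter fun q => bad e (Function.update q.1 (j e) q.2)
    have hP1 : P.card ≤ Fintype.card (ι → Fin K) * D := by
      have : P.card = ∑ w : ι → Fin K,
          (univ.filter fun x : Fin K => bad e (Function.update w (j e) x)).card := by
        have h1 := card_eq_sum_card_fiberwise (s := P) (t := (univ : Finset (ι → Fin K)))
          (f := fun q => q.1) (fun _ _ => mem_univ _)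
        rw [h1]
        refine sum_congr rfl fun w _ => ?_
        refine card_bij (fun q _ => q.2) ?_ ?_ ?_
        · rintro ⟨a, b⟩ hq
          simp only [P, mem_filter, mem_univ, true_and] at hq ⊢
          obtain ⟨h1, rfl⟩ := hq
          exact h1
        · rintro ⟨a, b⟩ hq ⟨a', b'⟩ hq' hbb
          simp only [P, mem_filter, mem_univ, true_and] at hq hq'
          obtain ⟨_, rfl⟩ := hq
          obtain ⟨_, rfl⟩ := hq'
          simp only at hbb
          rw [hbb]
        · intro b hb
          simp only [mem_filter, mem_univ, true_and] at hb
          exact ⟨(w, b), by simp [P, hb], rfl⟩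
      rw [this]
      calc _ ≤ ∑ _w : ι → Fin K, D := sum_le_sum fun w _ => h e w _ (by simp)
        _ = _ := by simp
    have hP2 : P.card = K * N e := by
      have : P.card = ((univ.filter fun w : ι → Fin K => bad e w) ×ˢ (univ : Finset (Fin K))).card := by
        refine card_bij (fun q _ => (Function.update q.1 (j e) q.2, q.1 (j e))) ?_ ?_ ?_
        · rintro ⟨a, b⟩ hq
          simp only [P, mem_filter, mem_univ, true_and] at hq
          simp [hq]
        · rintro ⟨a, b⟩ hq ⟨a', b'⟩ hq' hbb
          simp only [Prod.mk.injEq] at hbb
          obtain ⟨h1, h2⟩ := hbb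
          have hb : b = b' := by
            have := congrFun h1 (j e)
            simpa using this
          subst hb
          congr 1
          funext i
          by_cases hi : i = j e
          · subst hi; exact h2
          · have := congrFun h1 i
            simpa [Function.update_of_ne hi] using this
        · rintro ⟨a, b⟩ hab
          simp only [mem_product, mem_filter, mem_univ, true_and, and_true] at hab
          refine ⟨(Function.update a (j e) b, a (j e)), ?_, ?_⟩
          · simp only [P, mem_filter, mem_univ, true_and, Function.update_idem,
              Function.update_eq_self]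
            exact hab
          · simp
      rw [this, card_product, card_univ, Fintype.card_fin, mul_comm]
    omega
  have hcover : Fintype.card (ι → Fin K) ≤ ∑ e : E, N e := by
    calc Fintype.card (ι → Fin K) = (univ : Finset (ι → Fin K)).card := card_univ.symm
      _ ≤ (univ.biUnion fun e : E => univ.filter fun w : ι → Fin K => bad e w).card := by
          apply card_le_card
          intro w _
          obtain ⟨e, he⟩ := hcon w
          simp only [mem_biUnion, mem_univ, mem_filter, true_and]
          exact ⟨e, he⟩
      _ ≤ ∑ e : E, N e := card_biUnion_le
  have hT : 0 < Fintype.card (ι → Fin K) := Fintype.card_pos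
  have h1 : K * Fintype.card (ι → Fin K) ≤ Fintype.card E * (Fintype.card (ι → Fin K) * D) := by
    calc K * Fintype.card (ι → Fin K) ≤ K * ∑ e : E, N e := Nat.mul_le_mul_left _ hcover
      _ = ∑ e : E, K * N e := by rw [mul_sum]
      _ ≤ ∑ _e : E, Fintype.card (ι → Fin K) * D := sum_le_sum fun e _ => hN e
      _ = _ := by simp
  have h2 : Fintype.card E * (Fintype.card (ι → Fin K) * D) <
      K * Fintype.card (ι → Fin K) := by
    calc _ = (Fintype.card E * D) * Fintype.card (ι → Fin K) := by ring
      _ < _ := Nat.mul_lt_mul_of_pos_right hK hT
  omega

end Pool.Agent.H23
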