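import Pool.Agent.H23.Om

/-!
Bounded definability and the lower bound: every set of the hierarchy is definable in the hull by
a bounded formula.
-/

namespace Pool.Agent.H23

open Filter FirstOrder FirstOrder.Language Set

noncomputable section

section general

variable {M : Type} [buss.Structure M] {k : ℕ}

/-- Functions given by terms, with parameters `c` and variables `xs`. -/
def TF (F : (ℕ → M) → (Fin k → M) → M) : Prop :=
  ∃ t : buss.Term (ℕ ⊕ Fin k), ∀ c xs, t.realize (Sum.elim c xs) = F c xs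

/-- Relations given by bounded formulas, with parameters `c` and variables `xs`. -/
def BD (R : (ℕ → M) → (Fin k → M) → Prop) : Prop :=
  ∃ φ : buss.BoundedFormula ℕ k, IsBdd φ ∧ ∀ c xs, φ.Realize c xs ↔ R c xs

def ini (ys : Fin (k + 1) → M) : Fin k → M := fun j => ys j.castSucc

omit [buss.Structure M] in
@[simp] theorem ini_snoc (xs : Fin k → M) (a : M) :
    ini (Fin.snoc (α := fun _ => M) xs a) = xs := by
  funext j; simp [ini]

omit [buss.Structure M] in
theorem snoc_ini (ys : Fin (k + 1) → M) :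
    Fin.snoc (α := fun _ => M) (ini ys) (ys (Fin.last k)) = ys := by
  funext j
  refine Fin.lastCases ?_ (fun j => ?_) j <;> simp [ini]

theorem TF.par (i : ℕ) : TF (M := M) (k := k) fun c _ => c i :=
  ⟨Term.var (Sum.inl i), fun _ _ => rfl⟩
theorem TF.last : TF (M := M) (k := k + 1) fun _ xs => xs (Fin.last k) :=
  ⟨Term.var (Sum.inr (Fin.last k)), fun _ _ => rfl⟩
theorem TF.lift {F : (ℕ → M) → (Fin k → M) → M} (h : TF F) :
    TF fun c (ys : Fin (k + 1) → M) => F c (ini ys) := by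
  obtain ⟨t, ht⟩ := h
  refine ⟨liftT t, fun c ys => ?_⟩
  beta_reduce
  rw [← ht, ← snoc_ini ys, realize_liftT, ini_snoc]
theorem TF.succ {F : (ℕ → M) → (Fin k → M) → M} (h : TF F) : TF fun c xs => mSucc (F c xs) := by
  obtain ⟨t, ht⟩ := h
  exact ⟨tSucc t, fun c xs => by rw [realize_tSucc, ht]⟩
theorem TF.half {F : (ℕ → M) → (Fin k → M) → M} (h : TF F) : TF fun c xs => mHalf (F c xs) := by
  obtain ⟨t, ht⟩ := h
  exact ⟨tHalf t, fun c xs => by rw [realize_tHalf, ht]⟩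
theorem TF.len {F : (ℕ → M) → (Fin k → M) → M} (h : TF F) : TF fun c xs => mLen (F c xs) := by
  obtain ⟨t, ht⟩ := h
  exact ⟨tLen t, fun c xs => by rw [realize_tLen, ht]⟩
theorem TF.add {F G : (ℕ → M) → (Fin k → M) → M} (h : TF F) (h' : TF G) :
    TF fun c xs => mAdd (F c xs) (G c xs) := by
  obtain ⟨t, ht⟩ := h
  obtain ⟨u, hu⟩ := h'
  exact ⟨tAdd t u, fun c xs => by rw [realize_tAdd, ht, hu]⟩
theorem TF.mul {F G : (ℕ → M) → (Fin k → M) → M} (h : TF F) (h' : TF G) :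
    TF fun c xs => mMul (F c xs) (G c xs) := by
  obtain ⟨t, ht⟩ := h
  obtain ⟨u, hu⟩ := h'
  exact ⟨tMul t u, fun c xs => by rw [realize_tMul, ht, hu]⟩
theorem TF.smash {F G : (ℕ → M) → (Fin k → M) → M} (h : TF F) (h' : TF G) :
    TF fun c xs => mSmash (F c xs) (G c xs) := by
  obtain ⟨t, ht⟩ := h
  obtain ⟨u, hu⟩ := h'
  exact ⟨tSmash t u, fun c xs => by rw [realize_tSmash, ht, hu]⟩

theorem BD.le {F G : (ℕ → M) → (Fin k → M) → M} (h : TF F) (h' : TF G) :
    BD fun c xs => mLe (F c xs) (G c xs) := by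
  obtain ⟨t, ht⟩ := h
  obtain ⟨u, hu⟩ := h'
  exact ⟨fLe t u, IsBdd.rel _ _, fun c xs => by rw [realize_fLe, ht, hu]⟩
theorem BD.eq {F G : (ℕ → M) → (Fin k → M) → M} (h : TF F) (h' : TF G) :
    BD fun c xs => F c xs = G c xs := by
  obtain ⟨t, ht⟩ := h
  obtain ⟨u, hu⟩ := h'
  refine ⟨BoundedFormula.equal t u, IsBdd.equal _ _, fun c xs => ?_⟩
  beta_reduce
  rw [← ht, ← hu]; exact Iff.rfl
theorem BD.imp {R S : (ℕ → M) → (Fin k → M) → Prop} (h : BD R) (h' : BD S) :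
    BD fun c xs => R c xs → S c xs := by
  obtain ⟨φ, h1, h2⟩ := h
  obtain ⟨ψ, h3, h4⟩ := h'
  exact ⟨φ.imp ψ, IsBdd.imp h1 h3, fun c xs => by
    rw [BoundedFormula.realize_imp, h2, h4]⟩
theorem BD.false : BD (M := M) (k := k) fun _ _ => False :=
  ⟨BoundedFormula.falsum, IsBdd.falsum, fun _ _ => Iff.rfl⟩
theorem BD.not {R : (ℕ → M) → (Fin k → M) → Prop} (h : BD R) : BD fun c xs => ¬ R c xs :=
  h.imp BD.false
theorem BD.congr {R S : (ℕ → M) → (Fin k → M) → Prop} (h : BD R)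
    (e : ∀ c xs, R c xs ↔ S c xs) : BD S := by
  obtain ⟨φ, h1, h2⟩ := h
  exact ⟨φ, h1, fun c xs => (h2 c xs).trans (e c xs)⟩
theorem BD.and {R S : (ℕ → M) → (Fin k → M) → Prop} (h : BD R) (h' : BD S) :
    BD fun c xs => R c xs ∧ S c xs :=
  (h.imp h'.not).not.congr fun c xs => by tauto
theorem BD.or {R S : (ℕ → M) → (Fin k → M) → Prop} (h : BD R) (h' : BD S) :
    BD fun c xs => R c xs ∨ S c xs :=
  (h.not.imp h').congr fun c xs => by tauto
theorem BD.iff {R S : (ℕ → M) → (Fin k → M) → Prop} (h : BD R) (h' : BD S) :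
    BD fun c xs => (R c xs ↔ S c xs) :=
  ((h.imp h').and (h'.imp h)).congr fun c xs => by tauto
theorem BD.all {F : (ℕ → M) → (Fin k → M) → M} (h : TF F)
    (R : (ℕ → M) → (Fin k → M) → M → Prop)
    (hR : BD fun c (ys : Fin (k + 1) → M) => R c (ini ys) (ys (Fin.last k))) :
    BD fun c xs => ∀ a, mLe a (F c xs) → R c xs a := by
  obtain ⟨t, ht⟩ := h
  obtain ⟨φ, h1, h2⟩ := hR
  refine ⟨ballLe t φ, IsBdd.ball _ h1, fun c xs => ?_⟩
  rw [realize_ballLe, ht]
  refine forall_congr' fun a => forall_congr' fun _ => ?_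
  rw [h2]
  beta_reduce
  rw [ini_snoc, Fin.snoc_last]
theorem BD.ex {F : (ℕ → M) → (Fin k → M) → M} (h : TF F)
    (R : (ℕ → M) → (Fin k → M) → M → Prop)
    (hR : BD fun c (ys : Fin (k + 1) → M) => R c (ini ys) (ys (Fin.last k))) :
    BD fun c xs => ∃ a, mLe a (F c xs) ∧ R c xs a :=
  (BD.all h (fun c xs a => ¬ R c xs a) hR.not).not.congr fun c xs => by
    push Not
    exact Iff.rfl

/-- The relations of the previous file, with parameters `c 1, …, c 4`. -/
def TopC (c : ℕ → M) (x d y : M) : Prop := TopR (c 1) (c 2) x d y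
def OmC (c : ℕ → M) (d : M) : Prop := OmR (c 1) (c 2) (c 3) (c 4) d
def BitC (c : ℕ → M) (x n : M) : Prop := BitR (c 1) (c 2) (c 3) x n

theorem BD.top {X D Y : (ℕ → M) → (Fin k → M) → M} (hX : TF X) (hD : TF D) (hY : TF Y) :
    BD fun c xs => TopR (c 1) (c 2) (X c xs) (D c xs) (Y c xs) :=
  (BD.le (hY.mul (TF.par 1)) (hX.mul (hD.smash (TF.par 2)))).and
    (BD.le (hY.succ.mul (TF.par 1)) (hX.mul (hD.smash (TF.par 2)))).not

theorem BD.om {D : (ℕ → M) → (Fin k → M) → M} (hD : TF D) :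
    BD fun c xs => OmC c (D c xs) :=
  (BD.le hD (TF.par 3)).and (BD.ex ((TF.par 4).mul (hD.smash (TF.par 2)))
    (fun c xs y => TopR (c 1) (c 2) (c 4) (D c xs) y) (BD.top (TF.par 4) hD.lift TF.last))

theorem BD.bit {X N : (ℕ → M) → (Fin k → M) → M} (hX : TF X) (hN : TF N) :
    BD fun c xs => BitC c (X c xs) (N c xs) :=
  BD.ex (TF.par 3) (fun c xs d => mLen d = mSucc (mSucc (N c xs)) ∧
      ∃ y, mLe y (mMul (X c xs) (mSmash d (c 2))) ∧
      (TopR (c 1) (c 2) (X c xs) d y ∧ ¬ mAdd (mHalf y) (mHalf y) = y))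
    ((BD.eq TF.last.len hN.lift.succ.succ).and
      (BD.ex (hX.lift.mul (TF.last.smash (TF.par 2)))
        (fun c ys y => TopR (c 1) (c 2) (X c (ini ys)) (ys (Fin.last k)) y ∧
          ¬ mAdd (mHalf y) (mHalf y) = y)
        ((BD.top hX.lift.lift TF.last.lift TF.last).and
          (BD.eq (TF.last.half.add TF.last.half) TF.last).not)))

/-- `z` codes the pair of the reals coded by `x` and `y`. -/
def PairC (c : ℕ → M) (z x y : M) : Prop :=
  ∀ d, mLe d (c 3) → (OmC c d → ((BitC c z (mAdd d d) ↔ BitC c x d) ∧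
    (BitC c z (mSucc (mAdd d d)) ↔ BitC c y d)))

theorem BD.pair {Z X Y : (ℕ → M) → (Fin k → M) → M} (hZ : TF Z) (hX : TF X) (hY : TF Y) :
    BD fun c xs => PairC c (Z c xs) (X c xs) (Y c xs) :=
  BD.all (TF.par 3) (fun c xs d => (OmC c d → ((BitC c (Z c xs) (mAdd d d) ↔ BitC c (X c xs) d) ∧
    (BitC c (Z c xs) (mSucc (mAdd d d)) ↔ BitC c (Y c xs) d))))
    ((BD.om TF.last).imp (((BD.bit hZ.lift (TF.last.add TF.last)).iff
      (BD.bit hX.lift TF.last)).and
      ((BD.bit hZ.lift (TF.last.add TF.last).succ).iff (BD.bit hY.lift TF.last))))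

def prM (a b : M) : M := mAdd (mMul (mAdd a b) (mAdd a b)) a

theorem TF.pr {F G : (ℕ → M) → (Fin k → M) → M} (h : TF F) (h' : TF G) :
    TF fun c xs => prM (F c xs) (G c xs) :=
  ((h.add h').mul (h.add h')).add h

/-- The relation of the base case. -/
def BaseC (c : ℕ → M) (a : M) : Prop :=
  ∃ i, mLe i (c 3) ∧ (OmC c i ∧ ∀ q, mLe q (c 3) → (OmC c q → ∃ j, mLe j (c 3) ∧ (OmC c j ∧
    ((BitC c (c 6) (prM (prM i q) j) ∧ ¬ BitC c a j) ∨
      (BitC c (c 5) (prM (prM i q) j) ∧ BitC c a j)))))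

theorem BD.base {X : (ℕ → M) → (Fin k → M) → M} (hX : TF X) :
    BD fun c xs => BaseC c (X c xs) :=
  BD.ex (TF.par 3) (fun c xs i => OmC c i ∧ ∀ q, mLe q (c 3) → (OmC c q → ∃ j, mLe j (c 3) ∧
      (OmC c j ∧ ((BitC c (c 6) (prM (prM i q) j) ∧ ¬ BitC c (X c xs) j) ∨
      (BitC c (c 5) (prM (prM i q) j) ∧ BitC c (X c xs) j)))))
    ((BD.om TF.last).and (BD.all (TF.par 3)
      (fun c ys q => (OmC c q → ∃ j, mLe j (c 3) ∧
        (OmC c j ∧ ((BitC c (c 6) (prM (prM (ys (Fin.last k)) q) j) ∧ ¬ BitC c (X c (ini ys)) j) ∨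
        (BitC c (c 5) (prM (prM (ys (Fin.last k)) q) j) ∧ BitC c (X c (ini ys)) j)))))
      ((BD.om TF.last).imp (BD.ex (TF.par 3)
        (fun c zs j => (OmC c j ∧
          ((BitC c (c 6) (prM (prM (ini zs (Fin.last k)) (zs (Fin.last (k + 1)))) j) ∧
            ¬ BitC c (X c (ini (ini zs))) j) ∨
          (BitC c (c 5) (prM (prM (ini zs (Fin.last k)) (zs (Fin.last (k + 1)))) j) ∧
            BitC c (X c (ini (ini zs))) j))))
        ((BD.om TF.last).and
          (((BD.bit (TF.par 6) (TF.pr (TF.pr TF.last.lift.lift TF.last.lift) TF.last)).and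
            (BD.bit hX.lift.lift.lift TF.last).not).or
          ((BD.bit (TF.par 5) (TF.pr (TF.pr TF.last.lift.lift TF.last.lift) TF.last)).and
            (BD.bit hX.lift.lift.lift TF.last))))))))

end general

variable {w : ℕ → ℕ → ℕ}

open scoped Classical in
/-- The real coded by an element. -/
def rl (a : MM w) : Cantor := fun n => decide (BitR (eP w) (eB w) (eI w) a (nat w n))

theorem rl_eq_true (a : MM w) (n : ℕ) :
    rl a n = true ↔ BitR (eP w) (eB w) (eI w) a (nat w n) := by simp [rl]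

theorem rl_eq_false (a : MM w) (n : ℕ) :
    rl a n = false ↔ ¬ BitR (eP w) (eB w) (eI w) a (nat w n) := by simp [rl]

theorem rl_eU (hWB : ∀ s, 1 ≤ s → WB s (w s)) (α : Cantor) : rl (eU w α) = α := by
  funext n
  have h1 := rl_eq_true (eU w α) n
  rw [bit_iff hWB] at h1
  cases h : α n <;> cases h' : rl (eU w α) n <;> simp_all

/-- Good parameters. -/
structure GoodP (c : ℕ → MM w) (g0 g1 : Cantor) : Prop where
  h1 : c 1 = eP w
  h2 : c 2 = eB w
  h3 : c 3 = eI w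
  h4 : c 4 = eU w fun _ => false
  h5 : c 5 = eU w g0
  h6 : c 6 = eU w g1

theorem ex_om (hWB : ∀ s, 1 ≤ s → WB s (w s)) (hG : ∀ n, ∀ᶠ s : ℕ in atTop, Good n s (w s))
    {c : ℕ → MM w} {g0 g1 : Cantor} (hc : GoodP c g0 g1) (Q : MM w → Prop) :
    (∃ d, mLe d (c 3) ∧ (OmC c d ∧ Q d)) ↔ ∃ n, Q (nat w n) := by
  constructor
  · rintro ⟨d, -, h2, h3⟩
    unfold OmC at h2
    rw [hc.h1, hc.h2, hc.h3, hc.h4] at h2
    obtain ⟨n, rfl⟩ := om_std hWB hG _ d h2
    exact ⟨n, h3⟩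
  · rintro ⟨n, hn⟩
    refine ⟨nat w n, by rw [hc.h3]; exact nat_le_eI n, ?_, hn⟩
    unfold OmC
    rw [hc.h1, hc.h2, hc.h3, hc.h4]
    exact om_nat hWB _ n

theorem all_om (hWB : ∀ s, 1 ≤ s → WB s (w s)) (hG : ∀ n, ∀ᶠ s : ℕ in atTop, Good n s (w s))
    {c : ℕ → MM w} {g0 g1 : Cantor} (hc : GoodP c g0 g1) (Q : MM w → Prop) :
    (∀ d, mLe d (c 3) → (OmC c d → Q d)) ↔ ∀ n, Q (nat w n) := by
  have h := ex_om hWB hG hc fun d => ¬ Q d
  rw [← not_iff_not] at h
  push Not at h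
  constructor
  · intro h1
    exact h.1 h1
  · intro h1
    exact h.2 h1

theorem prM_nat (i j : ℕ) : prM (nat w i) (nat w j) = nat w (prN i j) := by
  unfold prM prN
  rw [nat_add, nat_mul, nat_add]

theorem pairC_iff (hWB : ∀ s, 1 ≤ s → WB s (w s)) (hG : ∀ n, ∀ᶠ s : ℕ in atTop, Good n s (w s))
    {c : ℕ → MM w} {g0 g1 : Cantor} (hc : GoodP c g0 g1) (z x y : MM w) :
    PairC c z x y ↔ rl z = pr2 (rl x) (rl y) := by
  unfold PairC
  rw [all_om hWB hG hc]
  unfold BitC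
  rw [hc.h1, hc.h2, hc.h3]
  simp only [nat_add, nat_succ, ← rl_eq_true]
  constructor
  · intro h
    rw [← pr2_eta (rl z)]
    congr 1
    · funext n
      have h1 := (h n).1
      unfold fstC
      rw [two_mul]
      cases h2 : rl z (n + n) <;> cases h3 : rl x n <;> simp_all
    · funext n
      have h1 := (h n).2
      unfold sndC
      rw [two_mul]
      cases h2 : rl z (n + n + 1) <;> cases h3 : rl y n <;> simp_all
  · intro h n
    have h1 : fstC (rl z) n = rl x n := by rw [h, fstC_pr2]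
    have h2 : sndC (rl z) n = rl y n := by rw [h, sndC_pr2]
    unfold fstC at h1
    unfold sndC at h2
    rw [two_mul] at h1 h2
    rw [h1, h2]
    exact ⟨Iff.rfl, Iff.rfl⟩

/-- Every set of the hierarchy is definable by a bounded formula. -/
theorem definable (hWB : ∀ s, 1 ≤ s → WB s (w s))
    (hG : ∀ n, ∀ᶠ s : ℕ in atTop, Good n s (w s)) (n : ℕ) : ∀ S : Set Cantor, Sg n S →
    ∃ (g0 g1 : Cantor) (Rl : (ℕ → MM w) → MM w → Prop),
      (∀ {k : ℕ} (F : (ℕ → MM w) → (Fin k → MM w) → MM w), TF F →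
        BD fun c xs => Rl c (F c xs)) ∧
      ∀ c, GoodP c g0 g1 → ∀ a, (Rl c a ↔ rl a ∈ S) := by
  induction n with
  | zero =>
    intro S hS
    obtain ⟨g0, g1, hg⟩ := isFs_code hS
    refine ⟨g0, g1, BaseC, fun F hF => BD.base hF, fun c hc a => ?_⟩
    rw [hg]
    unfold BaseC
    rw [ex_om hWB hG hc]
    refine exists_congr fun i => ?_
    rw [all_om hWB hG hc]
    refine forall_congr' fun q => ?_
    rw [ex_om hWB hG hc]
    refine exists_congr fun j => ?_
    rw [prM_nat, prM_nat]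
    unfold BitC
    rw [hc.h1, hc.h2, hc.h3, hc.h5, hc.h6, bit_iff hWB, bit_iff hWB, ← rl_eq_true,
      Bool.not_eq_true]
  | succ n ih =>
    rintro S ⟨R, hR, rfl⟩
    obtain ⟨g0, g1, Rl, h1, h2⟩ := ih R hR
    refine ⟨g0, g1, fun c a => ∃ y, mLe y (c 1) ∧ ∃ z, mLe z (c 1) ∧
      (PairC c z a y ∧ ¬ Rl c z), ?_, ?_⟩
    · intro k F hF
      exact BD.ex (TF.par 1) (fun c xs y => ∃ z, mLe z (c 1) ∧ (PairC c z (F c xs) y ∧ ¬ Rl c z))
        (BD.ex (TF.par 1)
          (fun c ys z => (PairC c z (F c (ini ys)) (ys (Fin.last k)) ∧ ¬ Rl c z))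
          ((BD.pair TF.last hF.lift.lift TF.last.lift).and (h1 _ TF.last).not))
    · intro c hc a
      constructor
      · rintro ⟨y, -, z, -, hp, hz⟩
        rw [pairC_iff hWB hG hc] at hp
        rw [h2 c hc, hp] at hz
        exact ⟨rl y, hz⟩
      · rintro ⟨β, hβ⟩
        refine ⟨eU w β, by rw [hc.h1]; exact eU_le_eP hWB β, eU w (pr2 (rl a) β),
          by rw [hc.h1]; exact eU_le_eP hWB _, ?_, ?_⟩
        · rw [pairC_iff hWB hG hc, rl_eU hWB, rl_eU hWB]
        · rw [h2 c hc, rl_eU hWB]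
          exact hβ

end

end Pool.Agent.H23
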