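import Pool.Agent.H23.Upper2

/-!
Semantic facts about the hull used for the lower bound: standard numbers are definable, and the
bits of the points of the Cantor space are definable.
-/

namespace Pool.Agent.H23

open Filter FirstOrder FirstOrder.Language Set

noncomputable section

section rels

variable {M : Type} [buss.Structure M]

/-- `y = ⌊x · (d # b) / P⌋`. -/
def TopR (P b x d y : M) : Prop :=
  mLe (mMul y P) (mMul x (mSmash d b)) ∧ ¬ mLe (mMul (mSucc y) P) (mMul x (mSmash d b))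

def OmR (P b i x0 d : M) : Prop :=
  mLe d i ∧ ∃ y, mLe y (mMul x0 (mSmash d b)) ∧ TopR P b x0 d y

def BitR (P b i x n : M) : Prop :=
  ∃ d, mLe d i ∧ (mLen d = mSucc (mSucc n) ∧ ∃ y, mLe y (mMul x (mSmash d b)) ∧
    (TopR P b x d y ∧ ¬ mAdd (mHalf y) (mHalf y) = y))

end rels

variable {w : ℕ → ℕ → ℕ}

abbrev hyp : Filter ℕ := ((hyperfilter ℕ : Ultrafilter ℕ) : Filter ℕ)

def eP (w : ℕ → ℕ → ℕ) : MM w := ME w (Term.var (Sum.inr Cst.P)) fun _ _ => false
def eB (w : ℕ → ℕ → ℕ) : MM w := ME w (Term.var (Sum.inr Cst.b)) fun _ _ => false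
def eI (w : ℕ → ℕ → ℕ) : MM w := ME w (Term.var (Sum.inr Cst.iota)) fun _ _ => false
def eN (w : ℕ → ℕ → ℕ) (k : ℕ) : MM w := ME w (Term.var (Sum.inr (Cst.node k))) fun _ _ => false
def eU (w : ℕ → ℕ → ℕ) (α : Cantor) : MM w := ME w (Term.var (Sum.inl 0)) fun _ => α

theorem coe_eP : (eP w : Ult) = cls fun s => 2 ^ (s ^ 3 + s) := rfl
theorem coe_eB : (eB w : Ult) = cls fun s => 2 ^ (s ^ 2 - 1) := rfl
theorem coe_eI : (eI w : Ult) = cls fun s => s := rfl
theorem coe_eN (k : ℕ) : (eN w k : Ult) = cls fun s => TT s (w s) k := rfl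
theorem coe_eU (α : Cantor) :
    (eU w α : Ult) = cls fun s => TT s (w s) (codeR α (s - 1)) * 2 ^ s := rfl

/-- Standard numbers. -/
def numT : ℕ → Tr
  | 0 => Term.func (L := plus) (PlusFunc.base BussFunc.zero) Fin.elim0
  | (n + 1) => Term.func (L := plus) (PlusFunc.base BussFunc.succ) ![numT n]

theorem ev_numT (n : ℕ) (f : ℕ → ℕ) (s : ℕ) : ev w (numT n) f s = n := by
  induction n with
  | zero => rfl
  | succ n ih =>
    have : ev w (numT (n + 1)) f s = ev w (numT n) f s + 1 := rfl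
    rw [this, ih]

def nat (w : ℕ → ℕ → ℕ) (n : ℕ) : MM w := ME w (numT n) fun _ _ => false

theorem coe_nat (n : ℕ) : (nat w n : Ult) = cls fun _ => n := by
  change cls _ = cls _
  congr 1
  funext s
  exact ev_numT n _ s

theorem cls_inj_const {m n : ℕ} (h : cls (fun _ => m) = cls (fun _ => n)) : m = n := by
  rw [cls_eq] at h
  obtain ⟨s, hs⟩ := h.exists
  exact hs

theorem nat_succ (n : ℕ) : mSucc (nat w n) = nat w (n + 1) := by
  apply Subtype.ext
  rw [coe_mSucc _ _ (coe_nat n), coe_nat]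

theorem nat_add (m n : ℕ) : mAdd (nat w m) (nat w n) = nat w (m + n) := by
  apply Subtype.ext
  rw [coe_mAdd _ _ _ _ (coe_nat m) (coe_nat n), coe_nat]

theorem nat_mul (m n : ℕ) : mMul (nat w m) (nat w n) = nat w (m * n) := by
  apply Subtype.ext
  rw [coe_mMul _ _ _ _ (coe_nat m) (coe_nat n), coe_nat]

theorem nat_le_eI (n : ℕ) : mLe (nat w n) (eI w) := by
  rw [mLe_coe, coe_nat, coe_eI, mLe_cls]
  exact hyper_of_atTop (eventually_ge_atTop n)

theorem size_b {s : ℕ} (hs : 1 ≤ s) : (2 ^ (s ^ 2 - 1)).size = s ^ 2 := by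
  rw [Nat.size_pow]
  have : 1 ≤ s ^ 2 := Nat.one_le_pow _ _ hs
  omega

theorem div_eq_iff' {X P y : ℕ} (hP : 0 < P) : X / P = y ↔ y * P ≤ X ∧ ¬ (y + 1) * P ≤ X := by
  rw [Nat.div_eq_iff hP]
  constructor
  · rintro ⟨h1, h2⟩
    refine ⟨h1, ?_⟩
    have : (y + 1) * P = y * P + P := by ring
    omega
  · rintro ⟨h1, h2⟩
    refine ⟨h1, ?_⟩
    have : (y + 1) * P = y * P + P := by ring
    omega

theorem TopR_iff {x d y : MM w} {x' d' y' : ℕ → ℕ} (hx : (x : Ult) = cls x')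
    (hd : (d : Ult) = cls d') (hy : (y : Ult) = cls y') : TopR (eP w) (eB w) x d y ↔
      ∀ᶠ s in hyp, x' s * 2 ^ ((d' s).size * s ^ 2) / 2 ^ (s ^ 3 + s) = y' s := by
  unfold TopR
  have h1 := coe_mSmash _ _ _ _ hd coe_eB
  have h2 := coe_mMul _ _ _ _ hx h1
  have h3 := coe_mMul _ _ _ _ hy coe_eP
  have h4 := coe_mMul _ _ _ _ (coe_mSucc _ _ hy) coe_eP
  rw [mLe_coe, mLe_coe, h2, h3, h4, mLe_cls, mLe_cls, ← Ultrafilter.eventually_not,
    ← Filter.eventually_and]
  apply eventually_congr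
  apply hyper_of_atTop
  filter_upwards [eventually_ge_atTop 1] with s hs
  rw [size_b hs, div_eq_iff' (by positivity)]

theorem top_value {s : ℕ} (hs : 1 ≤ s) {w' : ℕ → ℕ} (hw : WB s w') (c N : ℕ) (hN : N ≤ s) :
    TT s w' c * 2 ^ s * 2 ^ (N * s ^ 2) / 2 ^ (s ^ 3 + s) = TT s w' (c / 2 ^ (s - N)) := by
  have h1 : s ^ 3 + s = s ^ 2 * (s - N) + (s + N * s ^ 2) := by
    obtain ⟨k, rfl⟩ := Nat.exists_eq_add_of_le hN
    rw [Nat.add_sub_cancel_left]
    ring
  rw [h1, mul_assoc, ← pow_add, pow_add 2 (s ^ 2 * (s - N)),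
    Nat.mul_div_mul_right _ _ (by positivity), TT_div_pow hs hw]

theorem top_le {X y P : ℕ} (_hP : 0 < P) (h : X / P = y) : y ≤ X := by
  rw [← h]; exact Nat.div_le_self _ _

/-- The bits of a point of the Cantor space. -/
theorem bit_iff (hWB : ∀ s, 1 ≤ s → WB s (w s)) (α : Cantor) (n : ℕ) :
    BitR (eP w) (eB w) (eI w) (eU w α) (nat w n) ↔ α n = true := by
  have hpar : ∀ s, n + 2 ≤ s → TT s (w s) (codeR α (s - 1)) * 2 ^ s * 2 ^ ((n + 2) * s ^ 2) /
      2 ^ (s ^ 3 + s) = TT s (w s) (codeR α (n + 1)) := by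
    intro s hs
    rw [top_value (by omega) (hWB s (by omega)) _ _ hs]
    congr 1
    have : s - (n + 2) = s - 1 - (n + 1) := by omega
    rw [this, codeR_div_sub α (by omega)]
  have hodd : ∀ s, 1 ≤ s → (TT s (w s) (codeR α (n + 1)) / 2 + TT s (w s) (codeR α (n + 1)) / 2 ≠
      TT s (w s) (codeR α (n + 1)) ↔ α n = true) := by
    intro s hs
    have h1 := TT_mod_two hs (w := w s) (codeR α (n + 1))
    rw [codeR_succ_mod] at h1
    cases h : α n
    · rw [h] at h1
      simp only [Bool.toNat_false] at h1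
      simp only [Bool.false_eq_true, iff_false, not_not, ne_eq]
      omega
    · rw [h] at h1
      simp only [Bool.toNat_true] at h1
      simp only [iff_true]
      omega
  constructor
  · rintro ⟨d, -, hd, y, -, hy, hyo⟩
    obtain ⟨d', hd'⟩ := cls_surj (d : Ult)
    obtain ⟨y', hy'⟩ := cls_surj (y : Ult)
    rw [TopR_iff (coe_eU α) hd' hy'] at hy
    have hd2 : ∀ᶠ s in hyp, (d' s).size = n + 2 := by
      have := congrArg (fun x : MM w => (x : Ult)) hd
      rw [coe_mLen _ _ hd', nat_succ, nat_succ, coe_nat, cls_eq] at this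
      exact this
    have hyo2 : ∀ᶠ s in hyp, ¬ (y' s / 2 + y' s / 2 = y' s) := by
      rw [Ultrafilter.eventually_not]
      intro hcon
      apply hyo
      apply Subtype.ext
      have h1 := coe_mHalf y _ hy'
      rw [coe_mAdd _ _ _ _ h1 h1, hy', cls_eq]
      exact hcon
    have hbig : ∀ᶠ s in hyp, n + 2 ≤ s := hyper_of_atTop (eventually_ge_atTop _)
    obtain ⟨s, ⟨⟨h1, h2⟩, h3⟩, h4⟩ := (((hy.and hd2).and hyo2).and hbig).exists
    rw [h2, hpar s h4] at h1
    rw [← h1] at h3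
    exact (hodd s (by omega)).1 h3
  · intro hα
    have hy : TopR (eP w) (eB w) (eU w α) (nat w (2 ^ (n + 1))) (eN w (codeR α (n + 1))) := by
      rw [TopR_iff (coe_eU α) (coe_nat _) (coe_eN _)]
      apply hyper_of_atTop
      filter_upwards [eventually_ge_atTop (n + 2)] with s hs
      rw [Nat.size_pow]
      exact hpar s hs
    refine ⟨nat w (2 ^ (n + 1)), nat_le_eI _, ?_, eN w (codeR α (n + 1)), ?_, hy, ?_⟩
    · apply Subtype.ext
      rw [coe_mLen _ _ (coe_nat _), nat_succ, nat_succ, coe_nat, Nat.size_pow]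
    · rw [TopR_iff (coe_eU α) (coe_nat _) (coe_eN _)] at hy
      rw [mLe_coe, coe_mMul _ _ _ _ (coe_eU α) (coe_mSmash _ _ _ _ (coe_nat _) coe_eB), coe_eN,
        mLe_cls]
      have hbig : ∀ᶠ s in hyp, 1 ≤ s := hyper_of_atTop (eventually_ge_atTop _)
      filter_upwards [hy, hbig] with s hs hs1
      rw [size_b hs1]
      exact top_le (by positivity) hs
    · intro hcon
      have h1 := congrArg (fun x : MM w => (x : Ult)) hcon
      have h2 := coe_mHalf _ _ (coe_eN (w := w) (codeR α (n + 1)))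
      rw [coe_mAdd _ _ _ _ h2 h2, coe_eN, cls_eq] at h1
      have hbig : ∀ᶠ s in hyp, 1 ≤ s := hyper_of_atTop (eventually_ge_atTop _)
      obtain ⟨s, hs1, hs2⟩ := (h1.and hbig).exists
      exact (hodd s hs2).2 hα hs1

theorem eU_le_eP (hWB : ∀ s, 1 ≤ s → WB s (w s)) (α : Cantor) : mLe (eU w α) (eP w) := by
  rw [mLe_coe, coe_eU, coe_eP, mLe_cls]
  apply hyper_of_atTop
  filter_upwards [eventually_ge_atTop 1] with s hs
  have h1 := TT_lt hs (hWB s hs) (k := codeR α (s - 1)) (l := s) (by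
    have := (codeR_range α (s - 1)).2
    have e : s - 1 + 1 = s := by omega
    rwa [e] at this)
  calc TT s (w s) (codeR α (s - 1)) * 2 ^ s ≤ 2 ^ (s ^ 2 * s) * 2 ^ s :=
        Nat.mul_le_mul_right _ h1.le
    _ = 2 ^ (s ^ 3 + s) := by rw [← pow_add]; ring_nf

theorem om_nat (hWB : ∀ s, 1 ≤ s → WB s (w s)) (α : Cantor) (n : ℕ) :
    OmR (eP w) (eB w) (eI w) (eU w α) (nat w n) := by
  have hy : TopR (eP w) (eB w) (eU w α) (nat w n)
      (eN w (if n.size = 0 then 0 else codeR α (n.size - 1))) := by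
    rw [TopR_iff (coe_eU α) (coe_nat _) (coe_eN _)]
    apply hyper_of_atTop
    filter_upwards [eventually_ge_atTop (n.size + 1)] with s hs
    rw [top_value (by omega) (hWB s (by omega)) _ _ (by omega)]
    split_ifs with h0
    · rw [h0]
      have := (codeR_range α (s - 1)).2
      have e : s - 1 + 1 = s := by omega
      rw [e] at this
      rw [Nat.sub_zero, Nat.div_eq_of_lt this]
    · congr 1
      have : s - n.size = s - 1 - (n.size - 1) := by omega
      rw [this, codeR_div_sub α (by omega)]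
  refine ⟨nat_le_eI _, _, ?_, hy⟩
  rw [TopR_iff (coe_eU α) (coe_nat _) (coe_eN _)] at hy
  rw [mLe_coe, coe_mMul _ _ _ _ (coe_eU α) (coe_mSmash _ _ _ _ (coe_nat _) coe_eB), coe_eN,
    mLe_cls]
  have hbig : ∀ᶠ s in hyp, 1 ≤ s := hyper_of_atTop (eventually_ge_atTop _)
  filter_upwards [hy, hbig] with s hs hs1
  rw [size_b hs1]
  exact top_le (by positivity) hs

end

end Pool.Agent.H23
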