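import Pool.Agent.H23.Tree
import Pool.Agent.H23.Avoid

/-!
Good labellings of the tree: signs of polynomials are locally constant.
-/

namespace Pool.Agent.H23

open Finset Polynomial

noncomputable section

/-- `w` is good for `n` at stage `s`. -/
def Good (n s : ℕ) (w : ℕ → ℕ) : Prop :=
  ∀ p ∈ PP n s, ∀ m, n ≤ 2 ^ m → m < s → ∀ f : ℕ → ℕ, (∀ i, Leaf s (f i)) →
    ∀ c c', Leaf s c → Leaf s c' → c / 2 ^ (s - 1 - m) = c' / 2 ^ (s - 1 - m) →
    (∀ i < n, f i / 2 ^ (s - 1 - m) = c / 2 ^ (s - 1 - m) → f i = c) →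
    SignType.sign (p (env s w f)) =
      SignType.sign (p (env s w (fun i => if f i = c then c' else f i)))

theorem Leaf.div_lt {s c e : ℕ} (h : Leaf s c) : c / 2 ^ e < 2 ^ s :=
  (Nat.div_le_self _ _).trans_lt h.2

theorem Leaf.le_div {s c m : ℕ} (h : Leaf s c) (hm : m < s) : 2 ^ m ≤ c / 2 ^ (s - 1 - m) := by
  rw [Nat.le_div_iff_mul_le (by positivity), ← pow_add]
  have : m + (s - 1 - m) = s - 1 := by omega
  rw [this]; exact h.1

theorem Leaf.div_lt' {s c m : ℕ} (h : Leaf s c) (hm : m < s) :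
    c / 2 ^ (s - 1 - m) < 2 ^ (m + 1) := by
  rw [Nat.div_lt_iff_lt_mul (by positivity), ← pow_add]
  have : m + 1 + (s - 1 - m) = s := by omega
  rw [this]; exact h.2

/-- a leaf lies below `τ` only at the right distance. -/
theorem Leaf.anc {s c m j τ : ℕ} (h : Leaf s c) (hm : m < s) (h1 : 2 ^ m ≤ τ)
    (h2 : τ < 2 ^ (m + 1)) (hj : c / 2 ^ j = τ) : c / 2 ^ (s - 1 - m) = τ := by
  have hj' : j = s - 1 - m := by
    have h3 : 2 ^ (m + j) ≤ c := by
      rw [pow_add]
      exact (Nat.mul_le_mul_right _ (hj ▸ h1)).trans (Nat.div_mul_le_self _ _)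
    have h4 : c < 2 ^ (m + 1 + j) := by
      rw [pow_add]
      exact (Nat.div_lt_iff_lt_mul (by positivity)).1 (hj ▸ h2)
    have h5 : m + j < s := (Nat.pow_lt_pow_iff_right (by norm_num)).1 (h3.trans_lt h.2)
    have h6 : s - 1 < m + 1 + j := (Nat.pow_lt_pow_iff_right (by norm_num)).1 (h.1.trans_lt h4)
    omega
  rw [← hj']; exact hj

/-- The set of bad labels of one node is small. -/
theorem card_bad_event {s n m : ℕ} (hs : 1 ≤ s) {w : ℕ → ℕ} (hw : WB s w)
    {p : (ℕ → ℤ) → ℤ} (hp : p ∈ PP n s) (hnm : n ≤ 2 ^ m) (hm : m < s) {f : ℕ → ℕ}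
    (hf : ∀ i, Leaf s (f i)) {c c' : ℕ} (hc : Leaf s c)
    (hcc : c / 2 ^ (s - 1 - m) = c' / 2 ^ (s - 1 - m))
    (hsep : ∀ i < n, f i / 2 ^ (s - 1 - m) = c / 2 ^ (s - 1 - m) → f i = c) (B : Finset ℕ)
    (hB : ∀ x ∈ B, x < 2 ^ (s ^ 2 - 1) ∧
      SignType.sign (p (env s (Function.update w (c / 2 ^ (s - 1 - m)) x) f)) ≠
      SignType.sign (p (env s (Function.update w (c / 2 ^ (s - 1 - m)) x)
        (fun i => if f i = c then c' else f i)))) :
    B.card ≤ 2 ^ n := by
  classical
  set e := s - 1 - m with he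
  set τ := c / 2 ^ e with hτdef
  have hτ1 : 2 ^ m ≤ τ := hc.le_div hm
  have hτ2 : τ < 2 ^ (m + 1) := hc.div_lt' hm
  have hτ : τ ≠ 0 := by have : 0 < 2 ^ m := by positivity
                        omega
  obtain ⟨g, hg, hgp⟩ := PR_uni hp (fun v => v % 2 = 0 ∧ f (v / 2) = c) (env s w f)
  refine (card_bad_le hs hw hτ rfl hcc.symm g B ?_).trans hg
  intro x hx
  obtain ⟨hx1, hx2⟩ := hB x hx
  refine ⟨hx1, ?_⟩
  have key1 : ∀ v < n, ¬ (v % 2 = 0 ∧ f (v / 2) = c) →
      env s (Function.update w τ x) f v = env s w f v := by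
    intro v hv hcond
    unfold env
    by_cases hv2 : v % 2 = 0
    · rw [if_pos hv2, if_pos hv2]
      have hne : f (v / 2) ≠ c := fun h => hcond ⟨hv2, h⟩
      have : TT s (Function.update w τ x) (f (v / 2)) = TT s w (f (v / 2)) := by
        apply TT_congr
        intro j
        rw [Function.update_of_ne]
        intro h
        exact hne (hsep (v / 2) (by omega) ((hf (v / 2)).anc hm hτ1 hτ2 h))
      rw [this]
    · rw [if_neg hv2, if_neg hv2]
      have : TT s (Function.update w τ x) (v / 2) = TT s w (v / 2) := by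
        apply TT_congr
        intro j
        rw [Function.update_of_ne]
        intro h
        have : v / 2 / 2 ^ j ≤ v / 2 := Nat.div_le_self _ _
        omega
      rw [this]
  have e1 : p (env s (Function.update w τ x) f) =
      g.eval ((TT s (Function.update w τ x) c * 2 ^ s : ℕ) : ℤ) := by
    rw [← hgp]
    apply PR_congr hp
    intro v hv
    split_ifs with h
    · unfold env; rw [if_pos h.1, h.2]
    · exact key1 v hv h
  have e2 : p (env s (Function.update w τ x) (fun i => if f i = c then c' else f i)) =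
      g.eval ((TT s (Function.update w τ x) c' * 2 ^ s : ℕ) : ℤ) := by
    rw [← hgp]
    apply PR_congr hp
    intro v hv
    split_ifs with h
    · unfold env; rw [if_pos h.1]; beta_reduce; rw [if_pos h.2]
    · rw [← key1 v hv h]
      unfold env
      by_cases hv2 : v % 2 = 0
      · have hne : f (v / 2) ≠ c := fun h' => h ⟨hv2, h'⟩
        rw [if_pos hv2, if_pos hv2]; beta_reduce; rw [if_neg hne]
      · rw [if_neg hv2, if_neg hv2]
  rw [e1, e2] at hx2
  exact hx2

theorem exists_good (N : ℕ) : ∀ᶠ s : ℕ in Filter.atTop,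
    ∃ w : ℕ → ℕ, WB s w ∧ ∀ n ≤ N, Good n s w := by
  classical
  filter_upwards [eventually_card_PP N, Filter.eventually_ge_atTop (N + 10)] with s hcard hsN
  have hs : 1 ≤ s := by omega
  set K := 2 ^ (s ^ 2 - 1) with hK
  let ext : (Fin (2 ^ s) → Fin K) → ℕ → ℕ := fun w k => if h : k < 2 ^ s then (w ⟨k, h⟩ : ℕ) else 0
  have hKpos : 0 < K := by positivity
  have hext : ∀ w, WB s (ext w) := by
    intro w k
    simp only [ext]
    split_ifs with h
    · exact (w ⟨k, h⟩).2
    · exact hKpos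
  have hextu : ∀ w (τ : Fin (2 ^ s)) x,
      ext (Function.update w τ x) = Function.update (ext w) (τ : ℕ) (x : ℕ) := by
    intro w τ x
    funext k
    by_cases hk : k = (τ : ℕ)
    · subst hk
      simp [ext]
    · rw [Function.update_of_ne hk]
      simp only [ext]
      split_ifs with h
      · rw [Function.update_of_ne]
        intro h'
        exact hk (congrArg Fin.val h')
      · rfl
  let E := Fin (N + 1) × {p // p ∈ PP N s} × Fin s × (Fin N → Fin (2 ^ s)) × Fin (2 ^ s) ×
    Fin (2 ^ s)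
  let fe : E → ℕ → ℕ := fun q i => if h : i < N then (q.2.2.2.1 ⟨i, h⟩ : ℕ) else 2 ^ (s - 1)
  let stat : E → Prop := fun q => q.2.1.1 ∈ PP (q.1 : ℕ) s ∧ (q.1 : ℕ) ≤ 2 ^ (q.2.2.1 : ℕ) ∧
    (∀ i, Leaf s (fe q i)) ∧ Leaf s (q.2.2.2.2.1 : ℕ) ∧ Leaf s (q.2.2.2.2.2 : ℕ) ∧
    (q.2.2.2.2.1 : ℕ) / 2 ^ (s - 1 - (q.2.2.1 : ℕ)) =
      (q.2.2.2.2.2 : ℕ) / 2 ^ (s - 1 - (q.2.2.1 : ℕ)) ∧
    (∀ i < (q.1 : ℕ), fe q i / 2 ^ (s - 1 - (q.2.2.1 : ℕ)) =
      (q.2.2.2.2.1 : ℕ) / 2 ^ (s - 1 - (q.2.2.1 : ℕ)) → fe q i = (q.2.2.2.2.1 : ℕ))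
  let bad : E → (Fin (2 ^ s) → Fin K) → Prop := fun q w => stat q ∧
    SignType.sign (q.2.1.1 (env s (ext w) (fe q))) ≠
      SignType.sign (q.2.1.1 (env s (ext w)
        (fun i => if fe q i = (q.2.2.2.2.1 : ℕ) then (q.2.2.2.2.2 : ℕ) else fe q i)))
  let jj : E → Fin (2 ^ s) := fun q =>
    ⟨(q.2.2.2.2.1 : ℕ) / 2 ^ (s - 1 - (q.2.2.1 : ℕ)),
      (Nat.div_le_self _ _).trans_lt q.2.2.2.2.1.2⟩
  obtain ⟨w, hw⟩ := exists_avoid (ι := Fin (2 ^ s)) K (2 ^ N) bad jj (by
    intro q w B hB
    by_cases hst : stat q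
    · obtain ⟨h1, h2, h3, h4, h5, h6, h7⟩ := hst
      have hle : (B.image (fun x : Fin K => (x : ℕ))).card ≤ 2 ^ (q.1 : ℕ) := by
        refine card_bad_event hs (hext w) h1 h2 q.2.2.1.2 h3 h4 h6 h7 _ ?_
        intro x hx
        obtain ⟨y, hy, rfl⟩ := mem_image.1 hx
        refine ⟨y.2, ?_⟩
        have := (hB y hy).2
        rw [hextu] at this
        exact this
      rw [card_image_of_injective _ Fin.val_injective] at hle
      exact hle.trans (Nat.pow_le_pow_right (by norm_num) (Nat.lt_succ_iff.1 q.1.2))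
    · have : B = ∅ := by
        rw [eq_empty_iff_forall_notMem]
        intro x hx
        exact hst (hB x hx).1
      simp [this]) (by
    have hE : Fintype.card E = (N + 1) * ((PP N s).card * (s * (((2 ^ s) ^ N) * (2 ^ s * 2 ^ s))))
        := by
      simp [E, Fintype.card_prod]
    rw [hE, hK]
    have h1 : N + 1 ≤ 2 ^ N := Nat.lt_two_pow_self
    have h2 : s ≤ 2 ^ s := Nat.lt_two_pow_self.le
    calc (N + 1) * ((PP N s).card * (s * (((2 ^ s) ^ N) * (2 ^ s * 2 ^ s)))) * 2 ^ N
        ≤ 2 ^ N * (2 ^ s * (2 ^ s * (((2 ^ s) ^ N) * (2 ^ s * 2 ^ s)))) * 2 ^ N := by gcongr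
      _ = 2 ^ (N + (s + (s + (s * N + (s + s)))) + N) := by
          simp only [pow_add, pow_mul]
      _ < 2 ^ (s ^ 2 - 1) := by
          apply Nat.pow_lt_pow_right (by norm_num)
          have h3 : s * (N + 10) ≤ s ^ 2 := by rw [sq]; exact Nat.mul_le_mul_left _ hsN
          have h4 : s * (N + 10) = s * N + s * 10 := by ring
          omega)
  refine ⟨ext w, hext w, ?_⟩
  intro n hn p hp m hnm hm f hf c c' hc hc' hcc hsep
  by_contra hne
  have hpN : p ∈ PP N s := PP_mono hn hs hp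
  let q : E := (⟨n, by omega⟩, ⟨p, hpN⟩, ⟨m, hm⟩, (fun i => ⟨f i, (hf i).2⟩), ⟨c, hc.2⟩,
    ⟨c', hc'.2⟩)
  have hfe : ∀ i < N, fe q i = f i := by
    intro i hi
    simp [fe, q, hi]
  apply hw q
  refine ⟨⟨hp, hnm, ?_, hc, hc', hcc, ?_⟩, ?_⟩
  · intro i
    by_cases hi : i < N
    · rw [hfe i hi]; exact hf i
    · simp only [fe, dif_neg hi]
      exact ⟨le_refl _, Nat.pow_lt_pow_right (by norm_num) (by omega)⟩
  · intro i hi h
    have hiN : i < N := lt_of_lt_of_le hi hn
    rw [hfe i hiN] at h ⊢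
    exact hsep i hi h
  · have a1 : p (env s (ext w) (fe q)) = p (env s (ext w) f) := by
      apply PR_congr hp
      intro v hv
      unfold env
      rw [hfe (v / 2) (by omega)]
    have a2 : p (env s (ext w) (fun i => if fe q i = c then c' else fe q i)) =
        p (env s (ext w) (fun i => if f i = c then c' else f i)) := by
      apply PR_congr hp
      intro v hv
      unfold env
      beta_reduce
      rw [hfe (v / 2) (by omega)]
    change SignType.sign (p (env s (ext w) (fe q))) ≠ SignType.sign (p (env s (ext w)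
      (fun i => if fe q i = c then c' else fe q i)))
    rw [a1, a2]
    exact hne

/-- A sequence of labellings, eventually good for every `n`. -/
theorem exists_good_seq : ∃ w : ℕ → ℕ → ℕ, (∀ s, 1 ≤ s → WB s (w s)) ∧
    ∀ n, ∀ᶠ s : ℕ in Filter.atTop, Good n s (w s) := by
  classical
  let Q : ℕ → ℕ → Prop := fun N s => ∃ w : ℕ → ℕ, WB s w ∧ ∀ n ≤ N, Good n s w
  have hw0 : ∀ s, 1 ≤ s → WB s (fun _ => 0) := fun s _ k => by positivity
  have h : ∀ s, ∃ w : ℕ → ℕ, (1 ≤ s → WB s w) ∧
      ((∃ N, N ≤ s ∧ Q N s) → ∀ n ≤ Nat.findGreatest (fun N => Q N s) s, Good n s w) := by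
    intro s
    by_cases hN : ∃ N, N ≤ s ∧ Q N s
    · obtain ⟨N, hN1, hN2⟩ := hN
      have := Nat.findGreatest_spec (P := fun N => Q N s) hN1 hN2
      obtain ⟨w, hw, hw2⟩ := this
      exact ⟨w, fun _ => hw, fun _ => hw2⟩
    · exact ⟨fun _ => 0, hw0 s, fun h => absurd h hN⟩
  choose w hw1 hw2 using h
  refine ⟨w, hw1, fun n => ?_⟩
  filter_upwards [exists_good n, Filter.eventually_ge_atTop n] with s hs hns
  exact hw2 s ⟨n, hns, hs⟩ n (Nat.le_findGreatest hns hs)

/-- `f` and `f'` are in the same cell. -/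
structure Cell (n m s : ℕ) (f f' : ℕ → ℕ) : Prop where
  lf : ∀ i, Leaf s (f i)
  lf' : ∀ i, Leaf s (f' i)
  same : ∀ i < n, f i / 2 ^ (s - 1 - m) = f' i / 2 ^ (s - 1 - m)
  sep : ∀ i < n, ∀ j < n, f i / 2 ^ (s - 1 - m) = f j / 2 ^ (s - 1 - m) → f i = f j
  sep' : ∀ i < n, ∀ j < n, f' i / 2 ^ (s - 1 - m) = f' j / 2 ^ (s - 1 - m) → f' i = f' j

theorem Cell.symm {n m s : ℕ} {f f' : ℕ → ℕ} (h : Cell n m s f f') : Cell n m s f' f :=
  ⟨h.lf', h.lf, fun i hi => (h.same i hi).symm, h.sep', h.sep⟩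

theorem Cell.trans {n m s : ℕ} {f f' f'' : ℕ → ℕ} (h : Cell n m s f f')
    (h' : Cell n m s f' f'') : Cell n m s f f'' :=
  ⟨h.lf, h'.lf', fun i hi => (h.same i hi).trans (h'.same i hi), h.sep, h'.sep'⟩

theorem Cell.refl_left {n m s : ℕ} {f f' : ℕ → ℕ} (h : Cell n m s f f') : Cell n m s f f :=
  h.trans h.symm

theorem Cell.mono {n n' m s : ℕ} {f f' : ℕ → ℕ} (h : Cell n' m s f f') (hn : n ≤ n') :
    Cell n m s f f' :=
  ⟨h.lf, h.lf', fun i hi => h.same i (hi.trans_le hn),
    fun i hi j hj => h.sep i (hi.trans_le hn) j (hj.trans_le hn),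
    fun i hi j hj => h.sep' i (hi.trans_le hn) j (hj.trans_le hn)⟩

/-- Signs are constant on cells. -/
theorem Good.sign_const {n s : ℕ} {w : ℕ → ℕ} (hG : Good n s w) {p : (ℕ → ℤ) → ℤ}
    (hp : p ∈ PP n s) {m : ℕ} (hnm : n ≤ 2 ^ m) (hm : m < s) {f f' : ℕ → ℕ}
    (hC : Cell n m s f f') :
    SignType.sign (p (env s w f)) = SignType.sign (p (env s w f')) := by
  classical
  set e := s - 1 - m with he
  let F : ℕ → ℕ → ℕ := fun k i => if ∃ j < k, j < n ∧ f j / 2 ^ e = f i / 2 ^ e then f' i else f i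
  have hF0 : F 0 = f := by funext i; simp [F]
  have hFleaf : ∀ k i, Leaf s (F k i) := by
    intro k i
    simp only [F]
    split_ifs
    · exact hC.lf' i
    · exact hC.lf i
  have hstep : ∀ k, k < n → SignType.sign (p (env s w (F k))) =
      SignType.sign (p (env s w (F (k + 1)))) := by
    intro k hk
    by_cases hex : ∃ j < k, j < n ∧ f j / 2 ^ e = f k / 2 ^ e
    · have : F (k + 1) = F k := by
        funext i
        simp only [F]
        congr 1
        apply propext
        constructor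
        · rintro ⟨j, hj, hjn, h⟩
          rcases Nat.lt_succ_iff_lt_or_eq.1 hj with hj | rfl
          · exact ⟨j, hj, hjn, h⟩
          · obtain ⟨j', hj', hjn', h'⟩ := hex
            exact ⟨j', hj', hjn', h'.trans h⟩
        · rintro ⟨j, hj, hjn, h⟩
          exact ⟨j, hj.trans (Nat.lt_succ_self k), hjn, h⟩
      rw [this]
    · have hFk : F k k = f k := by simp only [F, if_neg hex]
      have h1 := hG p hp m hnm hm (F k) (hFleaf k) (f k) (f' k) (hC.lf k) (hC.lf' k)
        (hC.same k hk) (by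
          intro i hi h
          simp only [F] at h ⊢
          split_ifs at h ⊢ with hc
          · exfalso
            obtain ⟨j, hj, hjn, hji⟩ := hc
            apply hex
            refine ⟨j, hj, hjn, ?_⟩
            rw [hji, hC.same i hi]
            exact h
          · exact hC.sep i hi k hk h)
      rw [h1]
      congr 1
      apply PR_congr hp
      intro v hv
      unfold env
      have hv2 : v / 2 < n := by omega
      have : (if F k (v / 2) = f k then f' k else F k (v / 2)) = F (k + 1) (v / 2) := by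
        by_cases hc : ∃ j < k, j < n ∧ f j / 2 ^ e = f (v / 2) / 2 ^ e
        · have e1 : F k (v / 2) = f' (v / 2) := by simp only [F, if_pos hc]
          have e2 : F (k + 1) (v / 2) = f' (v / 2) := by
            have : ∃ j < k + 1, j < n ∧ f j / 2 ^ e = f (v / 2) / 2 ^ e := by
              obtain ⟨j, hj, h⟩ := hc
              exact ⟨j, by omega, h⟩
            simp only [F, if_pos this]
          rw [e1, e2]
          split_ifs with h
          · exfalso
            obtain ⟨j, hj, hjn, hji⟩ := hc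
            apply hex
            refine ⟨j, hj, hjn, ?_⟩
            rw [hji, hC.same (v / 2) hv2, h]
          · rfl
        · have e1 : F k (v / 2) = f (v / 2) := by simp only [F, if_neg hc]
          rw [e1]
          by_cases h : f (v / 2) = f k
          · rw [if_pos h]
            have h3 : ∃ j < k + 1, j < n ∧ f j / 2 ^ e = f (v / 2) / 2 ^ e :=
              ⟨k, Nat.lt_succ_self k, hk, by rw [h]⟩
            have e2 : F (k + 1) (v / 2) = f' (v / 2) := by simp only [F, if_pos h3]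
            rw [e2]
            refine hC.sep' k hk (v / 2) hv2 ?_
            rw [← hC.same k hk, ← hC.same (v / 2) hv2, h]
          · rw [if_neg h]
            have h3 : ¬ ∃ j < k + 1, j < n ∧ f j / 2 ^ e = f (v / 2) / 2 ^ e := by
              rintro ⟨j, hj, hjn, hji⟩
              rcases Nat.lt_succ_iff_lt_or_eq.1 hj with hj | rfl
              · exact hc ⟨j, hj, hjn, hji⟩
              · exact h (hC.sep (v / 2) hv2 j hjn hji.symm)
            simp only [F, if_neg h3]
      simp only [this]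
  have hchain : ∀ k, k ≤ n → SignType.sign (p (env s w f)) =
      SignType.sign (p (env s w (F k))) := by
    intro k
    induction k with
    | zero => intro _; rw [hF0]
    | succ k ih => intro hk; rw [ih (by omega), hstep k (by omega)]
  rw [hchain n le_rfl]
  congr 1
  apply PR_congr hp
  intro v hv
  unfold env
  have hv2 : v / 2 < n := by omega
  have : F n (v / 2) = f' (v / 2) := by
    have h3 : ∃ j < n, j < n ∧ f j / 2 ^ e = f (v / 2) / 2 ^ e := ⟨v / 2, hv2, hv2, rfl⟩
    simp only [F, if_pos h3]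
  rw [this]

end

end Pool.Agent.H23
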