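import Mathlib

/-!
A hierarchy of subsets of the Cantor space: `Sg 0` is the class of `F_σ` sets, and
`Sg (n+1)` consists of the projections of complements of `Sg n` sets.
-/

namespace Pool.Agent.H23

open Set

abbrev Cantor := ℕ → Bool

/-- Pairing on the Cantor space. -/
def pr2 (x y : Cantor) : Cantor := fun n => if n % 2 = 0 then x (n / 2) else y (n / 2)
def fstC (z : Cantor) : Cantor := fun n => z (2 * n)
def sndC (z : Cantor) : Cantor := fun n => z (2 * n + 1)
def colC (i : ℕ) (z : Cantor) : Cantor := fun n => z (Nat.pair i n)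

@[simp] theorem fstC_pr2 (x y : Cantor) : fstC (pr2 x y) = x := by
  funext n; simp [fstC, pr2]
@[simp] theorem sndC_pr2 (x y : Cantor) : sndC (pr2 x y) = y := by
  funext n
  have h1 : (2 * n + 1) % 2 = 1 := by omega
  have h2 : (2 * n + 1) / 2 = n := by omega
  simp [sndC, pr2, h1, h2]
@[simp] theorem pr2_eta (z : Cantor) : pr2 (fstC z) (sndC z) = z := by
  funext n
  unfold pr2 fstC sndC
  split_ifs with h
  · congr 1; omega
  · congr 1; omega

theorem continuous_fstC : Continuous fstC := continuous_pi fun n => continuous_apply (2 * n)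
theorem continuous_sndC : Continuous sndC := continuous_pi fun n => continuous_apply (2 * n + 1)
theorem continuous_colC (i : ℕ) : Continuous (colC i) :=
  continuous_pi fun n => continuous_apply (Nat.pair i n)

theorem continuous_pr2 {Y : Type} [TopologicalSpace Y] {f g : Y → Cantor} (hf : Continuous f)
    (hg : Continuous g) : Continuous fun y => pr2 (f y) (g y) := by
  refine continuous_pi fun n => ?_
  unfold pr2
  by_cases h : n % 2 = 0
  · simp only [h, if_true]; exact (continuous_apply _).comp hf
  · simp only [h, if_false]; exact (continuous_apply _).comp hg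

/-- `F_σ` sets. -/
def IsFs (S : Set Cantor) : Prop := ∃ C : ℕ → Set Cantor, (∀ i, IsClosed (C i)) ∧ S = ⋃ i, C i

/-- The hierarchy. -/
def Sg : ℕ → Set Cantor → Prop
  | 0, S => IsFs S
  | n + 1, S => ∃ R, Sg n R ∧ S = {x | ∃ y, pr2 x y ∉ R}

theorem Sg.preimage {n : ℕ} {S : Set Cantor} (h : Sg n S) {g : Cantor → Cantor}
    (hg : Continuous g) : Sg n (g ⁻¹' S) := by
  induction n generalizing S g with
  | zero =>
    obtain ⟨C, hC, rfl⟩ := h
    exact ⟨fun i => g ⁻¹' (C i), fun i => (hC i).preimage hg, by simp⟩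
  | succ n ih =>
    obtain ⟨R, hR, rfl⟩ := h
    refine ⟨(fun z => pr2 (g (fstC z)) (sndC z)) ⁻¹' R, ih hR
      (continuous_pr2 (hg.comp continuous_fstC) continuous_sndC), ?_⟩
    ext x; simp

theorem Sg.compl {n : ℕ} {S : Set Cantor} (h : Sg n S) : Sg (n + 1) Sᶜ :=
  ⟨fstC ⁻¹' S, h.preimage continuous_fstC, by ext x; simp⟩

theorem isFs_of_isOpen {S : Set Cantor} (h : IsOpen S) : IsFs S := by
  have h1 : IsGδ Sᶜ := (isClosed_compl_iff.2 h).isGδ
  obtain ⟨f, hf, hf2⟩ := isGδ_iff_eq_iInter_nat.1 h1
  refine ⟨fun i => (f i)ᶜ, fun i => isClosed_compl_iff.2 (hf i), ?_⟩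
  rw [← compl_iInter, ← hf2, compl_compl]

theorem sg_closed_open (n : ℕ) : ∀ S : Set Cantor, IsClosed S ∨ IsOpen S → Sg n S := by
  induction n with
  | zero =>
    rintro S (h | h)
    · exact ⟨fun _ => S, fun _ => h, (iUnion_const S).symm⟩
    · exact isFs_of_isOpen h
  | succ n ih =>
    rintro S (h | h)
    · have := (ih Sᶜ (Or.inr h.isOpen_compl)).compl
      rwa [compl_compl] at this
    · have := (ih Sᶜ (Or.inl h.isClosed_compl)).compl
      rwa [compl_compl] at this

theorem sg_of_isClosed {n : ℕ} {S : Set Cantor} (h : IsClosed S) : Sg n S :=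
  sg_closed_open n S (Or.inl h)
theorem sg_of_isOpen {n : ℕ} {S : Set Cantor} (h : IsOpen S) : Sg n S :=
  sg_closed_open n S (Or.inr h)

theorem sg_succ_iInter {n : ℕ} (hU : ∀ S : ℕ → Set Cantor, (∀ i, Sg n (S i)) → Sg n (⋃ i, S i))
    (S : ℕ → Set Cantor) (h : ∀ i, Sg (n + 1) (S i)) : Sg (n + 1) (⋂ i, S i) := by
  choose R hR hS using h
  refine ⟨⋃ i, (fun z => pr2 (fstC z) (colC i (sndC z))) ⁻¹' (R i), hU _ fun i => (hR i).preimage
    (continuous_pr2 continuous_fstC ((continuous_colC i).comp continuous_sndC)), ?_⟩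
  ext x
  simp only [mem_iInter, hS, mem_ofPred_eq, mem_iUnion, mem_preimage, fstC_pr2, sndC_pr2,
    not_exists]
  constructor
  · intro h
    choose y hy using h
    refine ⟨fun n => y n.unpair.1 n.unpair.2, fun i => ?_⟩
    have : colC i (fun n => y n.unpair.1 n.unpair.2) = y i := by
      funext n; simp [colC]
    rw [this]; exact hy i
  · rintro ⟨y, hy⟩ i
    exact ⟨colC i y, hy i⟩

theorem sg_zero_inter {S T : Set Cantor} (hS : Sg 0 S) (hT : Sg 0 T) : Sg 0 (S ∩ T) := by
  obtain ⟨C, hC, rfl⟩ := hS
  obtain ⟨D, hD, rfl⟩ := hT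
  refine ⟨fun i => C i.unpair.1 ∩ D i.unpair.2, fun i => (hC _).inter (hD _), ?_⟩
  ext x
  simp only [mem_inter_iff, mem_iUnion]
  constructor
  · rintro ⟨⟨i, hi⟩, ⟨j, hj⟩⟩
    exact ⟨Nat.pair i j, by simpa using ⟨hi, hj⟩⟩
  · rintro ⟨i, h1, h2⟩
    exact ⟨⟨_, h1⟩, ⟨_, h2⟩⟩

theorem sg_inter_of_iUnion {n : ℕ}
    (hU : ∀ m, m < n → ∀ S : ℕ → Set Cantor, (∀ i, Sg m (S i)) → Sg m (⋃ i, S i))
    {S T : Set Cantor} (hS : Sg n S) (hT : Sg n T) : Sg n (S ∩ T) := by
  cases n with
  | zero => exact sg_zero_inter hS hT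
  | succ n =>
    have := sg_succ_iInter (hU n (Nat.lt_succ_self n)) (fun i => if i = 0 then S else T)
      (fun i => by split_ifs <;> assumption)
    convert! this using 1
    ext x
    simp only [mem_inter_iff, mem_iInter]
    constructor
    · rintro ⟨h1, h2⟩ i
      split_ifs <;> assumption
    · intro h
      exact ⟨by simpa using h 0, by simpa using h 1⟩

/-- stem `i`: the first `i` entries are `false`, the `i`-th is `true`. -/
def stemS (i : ℕ) : Set Cantor := {y | (∀ j < i, y j = false) ∧ y i = true}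

def tailC (i : ℕ) (y : Cantor) : Cantor := fun j => y (i + 1 + j)
def mkStem (i : ℕ) (y : Cantor) : Cantor := fun j => if j < i then false else
  if j = i then true else y (j - (i + 1))

theorem tailC_mkStem (i : ℕ) (y : Cantor) : tailC i (mkStem i y) = y := by
  funext j
  have h1 : ¬ (i + 1 + j < i) := by omega
  have h2 : ¬ (i + 1 + j = i) := by omega
  simp [tailC, mkStem, h1, h2]
theorem mkStem_mem (i : ℕ) (y : Cantor) : mkStem i y ∈ stemS i := by
  refine ⟨fun j hj => by simp [mkStem, hj], by simp [mkStem]⟩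

theorem isClosed_stemS (i : ℕ) : IsClosed (stemS i) := by
  have : stemS i = (⋂ j, {y : Cantor | j < i → y j = false}) ∩ {y | y i = true} := by
    ext y; simp [stemS]
  rw [this]
  refine IsClosed.inter (isClosed_iInter fun j => ?_) ?_
  · by_cases h : j < i
    · simp only [h, forall_true_left]
      exact isClosed_singleton.preimage (continuous_apply j)
    · simp [h]
  · exact isClosed_singleton.preimage (continuous_apply i)

theorem stemS_unique {i j : ℕ} {y : Cantor} (hi : y ∈ stemS i) (hj : y ∈ stemS j) : i = j := by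
  rcases lt_trichotomy i j with h | h | h
  · have := hj.1 i h
    rw [hi.2] at this; cases this
  · exact h
  · have := hi.1 j h
    rw [hj.2] at this; cases this

theorem stemS_or (y : Cantor) : (∀ j, y j = false) ∨ ∃ i, y ∈ stemS i := by
  by_cases h : ∃ i, y i = true
  · right
    classical
    refine ⟨Nat.find h, fun j hj => ?_, Nat.find_spec h⟩
    simpa using Nat.find_min h hj
  · left; intro j
    by_contra hj
    exact h ⟨j, by simpa using hj⟩

theorem continuous_tailC (i : ℕ) : Continuous (tailC i) :=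
  continuous_pi fun n => continuous_apply (i + 1 + n)

theorem Sg.iUnion_nat {n : ℕ} (S : ℕ → Set Cantor) (h : ∀ i, Sg n (S i)) : Sg n (⋃ i, S i) := by
  induction n using Nat.strong_induction_on generalizing S with
  | _ n ih =>
    cases n with
    | zero =>
      choose C hC hS using h
      refine ⟨fun i => C i.unpair.1 i.unpair.2, fun i => hC _ _, ?_⟩
      ext x
      simp only [mem_iUnion, hS]
      constructor
      · rintro ⟨i, j, hj⟩
        exact ⟨Nat.pair i j, by simpa using hj⟩
      · rintro ⟨i, hi⟩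
        exact ⟨_, _, hi⟩
    | succ n =>
      choose R hR hS using h
      have ihU : ∀ S : ℕ → Set Cantor, (∀ i, Sg n (S i)) → Sg n (⋃ i, S i) :=
        fun S hS => ih n (Nat.lt_succ_self n) S hS
      let Z : Set Cantor := {z | ∀ j, sndC z j = false}
      have hZ : IsClosed Z := by
        have : Z = ⋂ j, {z | sndC z j = false} := by ext z; simp [Z]
        rw [this]
        exact isClosed_iInter fun j =>
          isClosed_singleton.preimage ((continuous_apply j).comp continuous_sndC)
      let Q : ℕ → Set Cantor := fun i => {z | sndC z ∈ stemS i} ∩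
        (fun z => pr2 (fstC z) (tailC i (sndC z))) ⁻¹' (R i)
      have hQ : ∀ i, Sg n (Q i) := fun i => by
        refine sg_inter_of_iUnion (fun m hm => fun S hS => ih m (by omega) S hS) ?_ ?_
        · exact sg_of_isClosed ((isClosed_stemS i).preimage continuous_sndC)
        · exact (hR i).preimage (continuous_pr2 continuous_fstC
            ((continuous_tailC i).comp continuous_sndC))
      refine ⟨⋃ i : ℕ, (if i = 0 then Z else Q (i - 1)), ihU _ fun i => ?_, ?_⟩
      · split_ifs
        · exact sg_of_isClosed hZ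
        · exact hQ _
      · ext x
        simp only [mem_iUnion, hS, mem_ofPred_eq, not_exists]
        constructor
        · rintro ⟨i, y, hy⟩
          refine ⟨mkStem i y, fun j => ?_⟩
          split_ifs with hj
          · intro hz
            have := hz i
            rw [sndC_pr2, (mkStem_mem i y).2] at this
            cases this
          · rintro ⟨h1, h2⟩
            simp only [mem_ofPred_eq, sndC_pr2] at h1
            have := stemS_unique h1 (mkStem_mem i y)
            simp only [this, mem_preimage, fstC_pr2, sndC_pr2, tailC_mkStem] at h2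
            exact hy h2
        · rintro ⟨y, hy⟩
          rcases stemS_or y with h0 | ⟨i, hi⟩
          · exfalso
            have := hy 0
            rw [if_pos rfl] at this
            exact this (by simpa [Z] using h0)
          · refine ⟨i, tailC i y, fun hR' => ?_⟩
            have := hy (i + 1)
            rw [if_neg (Nat.succ_ne_zero i)] at this
            apply this
            simp only [Q, Nat.add_sub_cancel]
            refine ⟨by simpa using hi, ?_⟩
            simpa using hR'

theorem Sg.iUnion {n : ℕ} {ι : Type} [Countable ι] (S : ι → Set Cantor) (h : ∀ i, Sg n (S i)) :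
    Sg n (⋃ i, S i) := by
  rcases isEmpty_or_nonempty ι with hι | hι
  · have : (⋃ i, S i) = ∅ := by simp
    rw [this]; exact sg_of_isClosed isClosed_empty
  · obtain ⟨e, he⟩ := exists_surjective_nat ι
    have : (⋃ i, S i) = ⋃ k, S (e k) := (he.iUnion_comp S).symm
    rw [this]
    exact Sg.iUnion_nat _ fun k => h _

theorem Sg.inter {n : ℕ} {S T : Set Cantor} (hS : Sg n S) (hT : Sg n T) : Sg n (S ∩ T) :=
  sg_inter_of_iUnion (fun _ _ S hS => Sg.iUnion_nat S hS) hS hT

theorem Sg.union {n : ℕ} {S T : Set Cantor} (hS : Sg n S) (hT : Sg n T) : Sg n (S ∪ T) := by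
  have := Sg.iUnion (ι := Bool) (n := n) (fun b => if b then S else T)
    (fun b => by cases b <;> simpa)
  convert! this using 1
  ext x
  simp only [mem_union, mem_iUnion, Bool.exists_bool]
  simp [or_comm]

theorem Sg.iInter {n : ℕ} {ι : Type} [Countable ι] (S : ι → Set Cantor)
    (h : ∀ i, Sg (n + 1) (S i)) : Sg (n + 1) (⋂ i, S i) := by
  rcases isEmpty_or_nonempty ι with hι | hι
  · have : (⋂ i, S i) = univ := by simp
    rw [this]; exact sg_of_isClosed isClosed_univ
  · obtain ⟨e, he⟩ := exists_surjective_nat ι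
    have : (⋂ i, S i) = ⋂ k, S (e k) := (he.iInter_comp S).symm
    rw [this]
    exact sg_succ_iInter (fun S hS => Sg.iUnion_nat S hS) _ fun k => h _

theorem Sg.succ {n : ℕ} {S : Set Cantor} (h : Sg n S) : Sg (n + 1) S := by
  induction n generalizing S with
  | zero =>
    obtain ⟨C, hC, rfl⟩ := h
    exact Sg.iUnion_nat _ fun i => sg_of_isClosed (hC i)
  | succ n ih =>
    obtain ⟨R, hR, rfl⟩ := h
    exact ⟨R, ih hR, rfl⟩

theorem Sg.proj {n : ℕ} {S : Set Cantor} (h : Sg (n + 1) S) :
    Sg (n + 1) {x | ∃ y, pr2 x y ∈ S} := by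
  obtain ⟨R, hR, rfl⟩ := h
  refine ⟨(fun z => pr2 (pr2 (fstC z) (fstC (sndC z))) (sndC (sndC z))) ⁻¹' R, hR.preimage
    (continuous_pr2 (continuous_pr2 continuous_fstC (continuous_fstC.comp continuous_sndC))
      (continuous_sndC.comp continuous_sndC)), ?_⟩
  ext x
  simp only [mem_ofPred_eq, mem_preimage, fstC_pr2, sndC_pr2]
  constructor
  · rintro ⟨y, z, h⟩
    exact ⟨pr2 y z, by simpa using h⟩
  · rintro ⟨y, h⟩
    exact ⟨_, _, h⟩

end Pool.Agent.H23
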