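import Pool.Agent.H23.Hier

/-!
Universal sets and diagonal sets for the hierarchy `Sg`, and codes for `F_σ` sets.
-/

namespace Pool.Agent.H23

open Set

theorem exists_univ_zero : ∃ U : Set Cantor, Sg 0 U ∧
    ∀ S, Sg 0 S → ∃ c, ∀ x, x ∈ S ↔ pr2 c x ∈ U := by
  obtain ⟨B0, hB0c, -, hB0⟩ := TopologicalSpace.exists_countable_basis Cantor
  obtain ⟨B, hB⟩ : ∃ B : ℕ → Set Cantor, insert ∅ B0 = range B :=
    (hB0c.insert ∅).exists_eq_range ⟨∅, mem_insert _ _⟩
  have hBo : ∀ n, IsOpen (B n) := fun n => by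
    have : B n ∈ insert ∅ B0 := hB ▸ mem_range_self n
    rcases this with h | h
    · rw [h]; exact isOpen_empty
    · exact hB0.isOpen h
  refine ⟨⋃ i, ⋂ n, {z | fstC z (Nat.pair i n) = true → sndC z ∉ B n}, ⟨_, fun i => ?_, rfl⟩, ?_⟩
  · refine isClosed_iInter fun n => ?_
    have : {z : Cantor | fstC z (Nat.pair i n) = true → sndC z ∉ B n} =
        {z | fstC z (Nat.pair i n) = false} ∪ {z | sndC z ∈ (B n)ᶜ} := by
      ext z
      simp only [mem_ofPred_eq, mem_union, mem_compl_iff]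
      cases fstC z (Nat.pair i n) <;> simp
    rw [this]
    refine IsClosed.union ?_ ?_
    · exact isClosed_singleton.preimage ((continuous_apply _).comp continuous_fstC)
    · exact (isClosed_compl_iff.2 (hBo n)).preimage continuous_sndC
  · rintro S ⟨C, hC, rfl⟩
    classical
    refine ⟨fun k => decide (Disjoint (B k.unpair.2) (C k.unpair.1)), fun x => ?_⟩
    simp only [mem_iUnion, mem_iInter, mem_ofPred_eq, fstC_pr2, sndC_pr2, Nat.unpair_pair,
      decide_eq_true_eq]
    refine exists_congr fun i => ?_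
    constructor
    · intro hx n hn hxn
      exact (disjoint_left.1 hn hxn) hx
    · intro h
      by_contra hx
      obtain ⟨V, hV, hxV, hVC⟩ := hB0.exists_subset_of_mem_open
        (show x ∈ (C i)ᶜ from hx) (hC i).isOpen_compl
      obtain ⟨n, rfl⟩ : ∃ n, B n = V := by
        have : V ∈ range B := hB ▸ mem_insert_of_mem _ hV
        exact this
      exact h n (disjoint_left.2 fun y hy => hVC hy) hxV

theorem exists_univ (n : ℕ) : ∃ U : Set Cantor, Sg n U ∧
    ∀ S, Sg n S → ∃ c, ∀ x, x ∈ S ↔ pr2 c x ∈ U := by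
  induction n with
  | zero => exact exists_univ_zero
  | succ n ih =>
    obtain ⟨U, hU, hU2⟩ := ih
    let g : Cantor → Cantor := fun z => pr2 (fstC (fstC z)) (pr2 (sndC (fstC z)) (sndC z))
    have hg : Continuous g := continuous_pr2 (continuous_fstC.comp continuous_fstC)
      (continuous_pr2 (continuous_sndC.comp continuous_fstC) continuous_sndC)
    refine ⟨{z | ∃ y, pr2 z y ∉ g ⁻¹' U}, ⟨_, hU.preimage hg, rfl⟩, ?_⟩
    rintro S ⟨R, hR, rfl⟩
    obtain ⟨c, hc⟩ := hU2 R hR
    refine ⟨c, fun x => ?_⟩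
    simp only [mem_ofPred_eq, mem_preimage, g, fstC_pr2, sndC_pr2]
    exact exists_congr fun y => not_congr (hc _)

theorem exists_diag (n : ℕ) : ∃ D : Set Cantor, Sg n Dᶜ ∧ ¬ Sg n D := by
  obtain ⟨U, hU, hU2⟩ := exists_univ n
  refine ⟨{x | pr2 x x ∉ U}, ?_, ?_⟩
  · have : ({x | pr2 x x ∉ U} : Set Cantor)ᶜ = (fun x => pr2 x x) ⁻¹' U := by
      ext x; simp
    rw [this]
    exact hU.preimage (continuous_pr2 continuous_id continuous_id)
  · intro h
    obtain ⟨c, hc⟩ := hU2 _ h
    have := hc c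
    simp only [mem_ofPred_eq] at this
    tauto

/-- A polynomial pairing function on `ℕ`. -/
def prN (a b : ℕ) : ℕ := (a + b) * (a + b) + a

theorem prN_inj {a b c d : ℕ} (h : prN a b = prN c d) : a = c ∧ b = d := by
  unfold prN at h
  have h1 : a + b = c + d := by
    rcases lt_trichotomy (a + b) (c + d) with h1 | h1 | h1
    · exfalso; nlinarith
    · exact h1
    · exfalso; nlinarith
  rw [h1] at h
  constructor
  · omega
  · omega

theorem exists_testBit (x : ℕ → Bool) (n : ℕ) : ∃ a : ℕ, ∀ j < n, a.testBit j = x j := by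
  refine ⟨Nat.ofBits (fun i : Fin n => x i), fun j hj => ?_⟩
  simp [Nat.testBit_ofBits_lt, hj]

theorem isFs_code {S : Set Cantor} (h : IsFs S) : ∃ g0 g1 : Cantor, ∀ x, x ∈ S ↔
    ∃ i, ∀ q, ∃ j, (g1 (prN (prN i q) j) = true ∧ x j = false) ∨
      (g0 (prN (prN i q) j) = true ∧ x j = true) := by
  classical
  obtain ⟨C, hC, rfl⟩ := h
  let cyl : ℕ → Set Cantor := fun q => {x | ∀ j < q.unpair.1, x j = q.unpair.2.testBit j}
  have key : ∀ i x, x ∉ C i → ∃ q, x ∈ cyl q ∧ Disjoint (cyl q) (C i) := by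
    intro i x hx
    obtain ⟨V, hV, hxV, hVC⟩ :=
      (PiNat.isTopologicalBasis_cylinders (fun _ : ℕ => Bool)).exists_subset_of_mem_open
        (show x ∈ (C i)ᶜ from hx) (hC i).isOpen_compl
    obtain ⟨y, n, rfl⟩ := hV
    obtain ⟨a, ha⟩ := exists_testBit x n
    refine ⟨Nat.pair n a, ?_, ?_⟩
    · intro j hj
      simp only [Nat.unpair_pair] at hj ⊢
      exact (ha j hj).symm
    · rw [disjoint_left]
      intro z hz
      apply hVC
      intro j hj
      have h1 := hz j (by simpa using hj)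
      simp only [Nat.unpair_pair] at h1
      rw [h1, ha j hj, hxV j hj]
  refine ⟨fun c => decide (∃ i q j, c = prN (prN i q) j ∧ (Disjoint (cyl q) (C i) →
      (j < q.unpair.1 ∧ q.unpair.2.testBit j = false))),
    fun c => decide (∃ i q j, c = prN (prN i q) j ∧ (Disjoint (cyl q) (C i) →
      (j < q.unpair.1 ∧ q.unpair.2.testBit j = true))), fun x => ?_⟩
  have e : ∀ (P : ℕ → ℕ → ℕ → Prop) (i q j : ℕ),
      (∃ i' q' j', prN (prN i q) j = prN (prN i' q') j' ∧ P i' q' j') ↔ P i q j := by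
    intro P i q j
    constructor
    · rintro ⟨i', q', j', h, hP⟩
      obtain ⟨h1, rfl⟩ := prN_inj h
      obtain ⟨rfl, rfl⟩ := prN_inj h1
      exact hP
    · intro hP; exact ⟨i, q, j, rfl, hP⟩
  simp only [mem_iUnion, decide_eq_true_eq, e]
  refine exists_congr fun i => ?_
  constructor
  · intro hx q
    by_cases hq : Disjoint (cyl q) (C i)
    · have hxq : x ∉ cyl q := fun h => (disjoint_left.1 hq h) hx
      simp only [cyl, mem_ofPred_eq, not_forall] at hxq
      obtain ⟨j, hj, hne⟩ := hxq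
      refine ⟨j, ?_⟩
      cases h1 : x j
      · left
        rw [h1] at hne
        refine ⟨fun _ => ⟨hj, ?_⟩, rfl⟩
        cases h2 : q.unpair.2.testBit j
        · rw [h2] at hne; exact absurd rfl hne
        · rfl
      · right
        rw [h1] at hne
        refine ⟨fun _ => ⟨hj, ?_⟩, rfl⟩
        cases h2 : q.unpair.2.testBit j
        · rfl
        · rw [h2] at hne; exact absurd rfl hne
    · refine ⟨0, ?_⟩
      cases h1 : x 0
      · left; exact ⟨fun h => absurd h hq, rfl⟩
      · right; exact ⟨fun h => absurd h hq, rfl⟩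
  · intro h
    by_contra hx
    obtain ⟨q, hxq, hd⟩ := key i x hx
    obtain ⟨j, hj⟩ := h q
    rcases hj with ⟨h1, h2⟩ | ⟨h1, h2⟩
    · have := hxq j (h1 hd).1
      rw [(h1 hd).2, h2] at this; cases this
    · have := hxq j (h1 hd).1
      rw [(h1 hd).2, h2] at this; cases this

end Pool.Agent.H23
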