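import Pool.Agent.H23.Tame2
import Pool.Agent.H23.Hier

/-!
The structure `MM w`: the hull, inside an ultrapower of `ℕ`, of the elements attached to the
points of the Cantor space.
-/

namespace Pool.Agent.H23

open Filter FirstOrder FirstOrder.Language

noncomputable section

/-- The code of the node of level `i` on the branch `α`. -/
def codeR (α : Cantor) : ℕ → ℕ
  | 0 => 1
  | (i + 1) => 2 * codeR α i + (α i).toNat

theorem codeR_range (α : Cantor) (i : ℕ) : 2 ^ i ≤ codeR α i ∧ codeR α i < 2 ^ (i + 1) := by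
  induction i with
  | zero => simp [codeR]
  | succ i ih =>
    have h : (α i).toNat ≤ 1 := Bool.toNat_le (α i)
    rw [codeR, pow_succ 2 (i + 1), pow_succ 2 i]
    rw [pow_succ] at ih
    omega

theorem codeR_succ_div (α : Cantor) (i : ℕ) : codeR α (i + 1) / 2 = codeR α i := by
  have h : (α i).toNat ≤ 1 := Bool.toNat_le (α i)
  rw [codeR]; omega

theorem codeR_succ_mod (α : Cantor) (i : ℕ) : codeR α (i + 1) % 2 = (α i).toNat := by
  have h : (α i).toNat ≤ 1 := Bool.toNat_le (α i)
  rw [codeR]; omega

theorem codeR_div (α : Cantor) (i j : ℕ) : codeR α (i + j) / 2 ^ j = codeR α i := by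
  induction j with
  | zero => simp
  | succ j ih =>
    rw [pow_succ', ← Nat.div_div_eq_div_mul, ← add_assoc, codeR_succ_div, ih]

theorem codeR_div_sub (α : Cantor) {i j : ℕ} (h : j ≤ i) : codeR α i / 2 ^ (i - j) = codeR α j := by
  obtain ⟨k, rfl⟩ := Nat.exists_eq_add_of_le h
  rw [Nat.add_sub_cancel_left, codeR_div]

theorem codeR_eq_of_agree {α β : Cantor} {n : ℕ} (h : ∀ i < n, α i = β i) :
    codeR α n = codeR β n := by
  induction n with
  | zero => rfl
  | succ n ih =>
    rw [codeR, codeR, ih fun i hi => h i (hi.trans (Nat.lt_succ_self n)), h n (Nat.lt_succ_self n)]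

theorem agree_of_codeR_eq {α β : Cantor} {n : ℕ} (h : codeR α n = codeR β n) :
    ∀ i < n, α i = β i := by
  induction n with
  | zero => intro i hi; omega
  | succ n ih =>
    intro i hi
    have h1 := congrArg (· / 2) h
    simp only [codeR_succ_div] at h1
    have h2 := congrArg (· % 2) h
    simp only [codeR_succ_mod] at h2
    rcases Nat.lt_succ_iff_lt_or_eq.1 hi with h3 | rfl
    · exact ih h1 i h3
    · revert h2
      cases α i <;> cases β i <;> simp

/-- Leaf codes of a sequence of reals. -/
def cd (A : ℕ → Cantor) (s : ℕ) : ℕ → ℕ := fun i => codeR (A i) (s - 1)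

theorem leaf_cd (A : ℕ → Cantor) {s : ℕ} (hs : 1 ≤ s) (i : ℕ) : Leaf s (cd A s i) := by
  have h := codeR_range (A i) (s - 1)
  have e : s - 1 + 1 = s := by omega
  rw [e] at h
  exact h

/-- The ultrapower of `ℕ`. -/
abbrev Ult : Type := ((hyperfilter ℕ : Ultrafilter ℕ) : Filter ℕ).Product (fun _ : ℕ => ℕ)

/-- The class of a sequence. -/
def cls (x : ℕ → ℕ) : Ult := ((x : ∀ _ : ℕ, ℕ) : Ult)

theorem cls_eq {x y : ℕ → ℕ} : cls x = cls y ↔
    ∀ᶠ s in ((hyperfilter ℕ : Ultrafilter ℕ) : Filter ℕ), x s = y s := Quotient.eq''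

theorem cls_surj (x : Ult) : ∃ y, x = cls y := by
  obtain ⟨y, rfl⟩ := Quotient.exists_rep x
  exact ⟨y, rfl⟩

theorem funMap_cls {n : ℕ} (F : buss.Functions n) (x : Fin n → ℕ → ℕ) :
    Structure.funMap F (fun i => cls (x i)) = cls fun s => Structure.funMap F fun i => x i s :=
  Ultraproduct.funMap_cast F x

theorem realize_cls {b : ℕ} (φ : buss.BoundedFormula ℕ b) (v : ℕ → ℕ → ℕ) (xs : Fin b → ℕ → ℕ) :
    φ.Realize (fun i => cls (v i)) (fun j => cls (xs j)) ↔
      ∀ᶠ s in ((hyperfilter ℕ : Ultrafilter ℕ) : Filter ℕ),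
        φ.Realize (fun i => v i s) (fun j => xs j s) :=
  Ultraproduct.boundedFormula_realize_cast φ v xs

theorem term_realize_cls {β : Type} (t : buss.Term β) (v : β → ℕ → ℕ) :
    t.realize (fun i => cls (v i)) = cls fun s => t.realize fun i => v i s :=
  Ultraproduct.term_realize_cast v t

/-- Statements holding for all large `s` hold almost everywhere. -/
theorem hyper_of_atTop {P : ℕ → Prop} (h : ∀ᶠ s in atTop, P s) :
    ∀ᶠ s in ((hyperfilter ℕ : Ultrafilter ℕ) : Filter ℕ), P s :=
  Nat.hyperfilter_le_atTop h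

/-- The element of the ultrapower given by a term and a sequence of reals. -/
def El (w : ℕ → ℕ → ℕ) (t : Tr) (A : ℕ → Cantor) : Ult := cls fun s => ev w t (cd A s) s

/-- Change of the real variables of a term. -/
def relab (j : ℕ) : ℕ ⊕ Cst → ℕ ⊕ Cst := Sum.map (Nat.pair j) id

def joinA (A : ℕ → ℕ → Cantor) : ℕ → Cantor := fun i => A i.unpair.1 i.unpair.2

theorem ev_relabel (w : ℕ → ℕ → ℕ) (t : Tr) (g : ℕ → ℕ) (f : ℕ → ℕ) (s : ℕ) :
    ev w (t.relabel (Sum.map g id)) f s = ev w t (f ∘ g) s := by
  unfold ev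
  rw [Term.realize_relabel]
  congr 1
  funext i
  rcases i with i | i <;> rfl

theorem El_relab (w : ℕ → ℕ → ℕ) (t : Tr) (A : ℕ → ℕ → Cantor) (j : ℕ) :
    El w (t.relabel (relab j)) (joinA A) = El w t (A j) := by
  unfold El relab
  congr 1
  funext s
  rw [ev_relabel]
  congr 1
  funext i
  simp [cd, joinA]

theorem ev_func (w : ℕ → ℕ → ℕ) {n : ℕ} (F : PlusFunc n) (ts : Fin n → Tr) (f : ℕ → ℕ) (s : ℕ) :
    ev w (Term.func (L := plus) F ts) f s = plusFun F fun i => ev w (ts i) f s := rfl

/-- The hull. -/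
def MM (w : ℕ → ℕ → ℕ) : buss.Substructure Ult where
  carrier := {x | ∃ t A, x = El w t A}
  fun_mem := by
    intro n F x hx
    choose t A hA using hx
    refine ⟨Term.func (L := plus) (PlusFunc.base F) fun i => (t i).relabel (relab i),
      joinA fun j => if h : j < n then A ⟨j, h⟩ else fun _ _ => false, ?_⟩
    have h1 : ∀ i : Fin n, x i = El w ((t i).relabel (relab i))
        (joinA fun j => if h : j < n then A ⟨j, h⟩ else fun _ _ => false) := by
      intro i
      rw [El_relab, hA i]
      simp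
    have h2 : x = fun i => El w ((t i).relabel (relab i))
        (joinA fun j => if h : j < n then A ⟨j, h⟩ else fun _ _ => false) := funext h1
    rw [h2]
    unfold El
    rw [funMap_cls]
    rfl

theorem mem_MM {w : ℕ → ℕ → ℕ} {x : Ult} : x ∈ MM w ↔ ∃ t A, x = El w t A := Iff.rfl

theorem El_mem (w : ℕ → ℕ → ℕ) (t : Tr) (A : ℕ → Cantor) : El w t A ∈ MM w := ⟨t, A, rfl⟩

/-- Countably many elements of the hull are given by terms in the same reals. -/
theorem rep (w : ℕ → ℕ → ℕ) (x : ℕ → MM w) :
    ∃ (t : ℕ → Tr) (A : ℕ → Cantor), ∀ i, (x i : Ult) = El w (t i) A := by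
  have hx := fun i => (x i).2
  simp only [mem_MM] at hx
  choose t A hA using hx
  exact ⟨fun i => (t i).relabel (relab i), joinA A, fun i => by rw [El_relab, hA i]⟩

theorem coe_funMap {w : ℕ → ℕ → ℕ} {n : ℕ} (F : buss.Functions n) (x : Fin n → MM w) :
    ((Structure.funMap F x : MM w) : Ult) = Structure.funMap F fun i => (x i : Ult) := rfl

theorem relMap_coe {w : ℕ → ℕ → ℕ} {n : ℕ} (R : buss.Relations n) (x : Fin n → MM w) :
    Structure.RelMap R x ↔ Structure.RelMap R fun i => (x i : Ult) := Iff.rfl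

theorem coe_realize {w : ℕ → ℕ → ℕ} {β : Type} (t : buss.Term β) (v : β → MM w) :
    ((t.realize v : MM w) : Ult) = t.realize fun i => (v i : Ult) := by
  induction t with
  | var i => rfl
  | func F ts ih =>
    simp only [Term.realize, coe_funMap, ih]

theorem mLe_coe {w : ℕ → ℕ → ℕ} (x y : MM w) : mLe x y ↔ mLe (x : Ult) (y : Ult) := by
  have : (fun i => ((![x, y] i : MM w) : Ult)) = ![(x : Ult), (y : Ult)] := by
    funext i; fin_cases i <;> rfl
  unfold mLe
  rw [← this]
  exact Iff.rfl

theorem mLe_cls (x y : ℕ → ℕ) : mLe (cls x) (cls y) ↔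
    ∀ᶠ s in ((hyperfilter ℕ : Ultrafilter ℕ) : Filter ℕ), x s ≤ y s := by
  have h := realize_cls (b := 0) (fLe (Term.var (Sum.inl 0)) (Term.var (Sum.inl 1)))
    (fun i => if i = 0 then x else y) (fun j => j.elim0)
  simpa using h

/-- The truth value of a formula depends on finitely many variables only. -/
theorem term_dep {β : Type} (t : buss.Term (ℕ ⊕ β)) : ∃ a, ∀ (v v' : ℕ → ℕ) (x : β → ℕ),
    (∀ i < a, v i = v' i) → t.realize (Sum.elim v x) = t.realize (Sum.elim v' x) := by
  induction t with
  | var i =>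
    rcases i with i | i
    · exact ⟨i + 1, fun v v' x h => h i (Nat.lt_succ_self i)⟩
    · exact ⟨0, fun v v' x h => rfl⟩
  | @func n F ts ih =>
    choose a ha using ih
    refine ⟨Finset.univ.sup a, fun v v' x h => ?_⟩
    simp only [Term.realize]
    congr 1
    funext i
    exact ha i v v' x fun j hj => h j (hj.trans_le (Finset.le_sup (Finset.mem_univ i)))

theorem formula_dep {b : ℕ} (φ : buss.BoundedFormula ℕ b) : ∃ a, ∀ (v v' : ℕ → ℕ)
    (x : Fin b → ℕ), (∀ i < a, v i = v' i) → (φ.Realize v x ↔ φ.Realize v' x) := by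
  induction φ with
  | falsum => exact ⟨0, fun _ _ _ _ => Iff.rfl⟩
  | equal t u =>
    obtain ⟨a, ha⟩ := term_dep t
    obtain ⟨a', ha'⟩ := term_dep u
    refine ⟨max a a', fun v v' x h => ?_⟩
    simp only [BoundedFormula.Realize]
    rw [ha v v' x fun i hi => h i (hi.trans_le (le_max_left _ _)),
      ha' v v' x fun i hi => h i (hi.trans_le (le_max_right _ _))]
  | rel R ts =>
    choose a ha using fun i => term_dep (ts i)
    refine ⟨Finset.univ.sup a, fun v v' x h => ?_⟩
    simp only [BoundedFormula.Realize]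
    have : (fun i => (ts i).realize (Sum.elim v x)) = fun i => (ts i).realize (Sum.elim v' x) := by
      funext i
      exact ha i v v' x fun j hj => h j (hj.trans_le (Finset.le_sup (Finset.mem_univ i)))
    rw [this]
  | imp φ ψ ih1 ih2 =>
    obtain ⟨a, ha⟩ := ih1
    obtain ⟨a', ha'⟩ := ih2
    refine ⟨max a a', fun v v' x h => ?_⟩
    simp only [BoundedFormula.Realize]
    rw [ha v v' x fun i hi => h i (hi.trans_le (le_max_left _ _)),
      ha' v v' x fun i hi => h i (hi.trans_le (le_max_right _ _))]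
  | all φ ih =>
    obtain ⟨a, ha⟩ := ih
    refine ⟨a, fun v v' x h => ?_⟩
    simp only [BoundedFormula.Realize]
    exact forall_congr' fun y => ha v v' _ h

/-- Witnesses for sharply bounded formulas. -/
theorem exists_wit (w : ℕ → ℕ → ℕ) {b : ℕ} (φ : buss.BoundedFormula ℕ (b + 1)) (hφ : IsSharp φ)
    (t : buss.Term (ℕ ⊕ Fin b)) (u : ℕ → Tr) (u' : Fin b → Tr) :
    ∃ W : Tr, ∀ f s, ev w W f s =
      leastW (t.realize (Sum.elim (fun i => ev w (u i) f s) (fun j => ev w (u' j) f s))).size
        fun y => φ.Realize (fun i => ev w (u i) f s) (Fin.snoc (fun j => ev w (u' j) f s) y) := by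
  obtain ⟨a1, h1⟩ := term_dep t
  obtain ⟨a2, h2⟩ := formula_dep φ
  refine ⟨Term.func (L := plus) (PlusFunc.wit (max a1 a2) b φ t hφ)
    (Fin.addCases (fun i => u i) u'), fun f s => ?_⟩
  rw [ev_func]
  simp only [plusFun]
  have e1 : (fun j : Fin b => ev w (Fin.addCases (motive := fun _ => Tr)
      (fun i : Fin (max a1 a2) => u i) u' (Fin.natAdd (max a1 a2) j)) f s) =
      fun j => ev w (u' j) f s := by
    funext j; simp
  have e2 : ∀ i < max a1 a2, vhat (max a1 a2) b (fun i => ev w (Fin.addCases
      (motive := fun _ => Tr) (fun i : Fin (max a1 a2) => u i) u' i) f s) i = ev w (u i) f s := by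
    intro i hi
    unfold vhat
    rw [dif_pos hi]
    beta_reduce
    rw [Fin.addCases_left]
  rw [e1, h1 _ (fun i => ev w (u i) f s) _ fun i hi => e2 i (hi.trans_le (le_max_left _ _))]
  congr 1
  funext y
  exact propext (h2 _ (fun i => ev w (u i) f s) _ fun i hi => e2 i (hi.trans_le (le_max_right _ _)))

theorem IsSharp.not {α : Type} {b : ℕ} {φ : buss.BoundedFormula α b} (h : IsSharp φ) :
    IsSharp φ.not := IsSharp.imp h IsSharp.falsum

/-- The hull is elementary for sharply bounded formulas. -/
theorem elem_aux (w : ℕ → ℕ → ℕ) {b : ℕ} {φ : buss.BoundedFormula ℕ b} (hφ : IsSharp φ) :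
    ∀ (v : ℕ → MM w) (xs : Fin b → MM w),
    (φ.Realize v xs ↔ φ.Realize (fun i => (v i : Ult)) (fun j => (xs j : Ult))) := by
  induction hφ with
  | falsum => exact fun _ _ => Iff.rfl
  | @equal b t u =>
    intro v xs
    simp only [BoundedFormula.Realize]
    rw [← Subtype.coe_inj, coe_realize, coe_realize]
    have : (fun i => ((Sum.elim v xs i : MM w) : Ult)) =
        Sum.elim (fun i => (v i : Ult)) (fun j => (xs j : Ult)) := by
      funext i; rcases i with i | i <;> rfl
    rw [this]
  | @rel b l R ts =>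
    intro v xs
    simp only [BoundedFormula.Realize]
    rw [relMap_coe]
    have : (fun i => ((Sum.elim v xs i : MM w) : Ult)) =
        Sum.elim (fun i => (v i : Ult)) (fun j => (xs j : Ult)) := by
      funext i; rcases i with i | i <;> rfl
    simp only [coe_realize, this]
  | imp _ _ ih1 ih2 =>
    intro v xs
    simp only [BoundedFormula.Realize]
    rw [ih1, ih2]
  | @sball b t φ hφ ih =>
    intro v xs
    have hel : (fun i => ((Sum.elim v xs i : MM w) : Ult)) =
        Sum.elim (fun i => (v i : Ult)) (fun j => (xs j : Ult)) := by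
      funext i; rcases i with i | i <;> rfl
    have hsn : ∀ a : MM w, (fun j => ((Fin.snoc (α := fun _ => MM w) xs a j : MM w) : Ult)) =
        Fin.snoc (α := fun _ => Ult) (fun j => (xs j : Ult)) (a : Ult) := by
      intro a
      funext j
      refine Fin.lastCases ?_ (fun j => ?_) j <;> simp
    simp only [realize_ballLe]
    constructor
    · intro h
      by_contra hcon
      push Not at hcon
      obtain ⟨y, hy1, hy2⟩ := hcon
      -- common representation
      obtain ⟨T, A, hT⟩ := rep w fun i => if h : i % 2 = 1 ∧ i / 2 < b then xs ⟨i / 2, h.2⟩ else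
        v (i / 2)
      have hv : ∀ i, (v i : Ult) = El w (T (2 * i)) A := by
        intro i
        have := hT (2 * i)
        rw [dif_neg (by omega)] at this
        rw [← this]
        congr 2
        omega
      have hx : ∀ j : Fin b, (xs j : Ult) = El w (T (2 * (j : ℕ) + 1)) A := by
        intro j
        have hj := j.2
        have := hT (2 * (j : ℕ) + 1)
        have e : (2 * (j : ℕ) + 1) / 2 = j := by omega
        rw [dif_pos (by rw [e]; omega)] at this
        rw [← this]
        congr 2
        exact Fin.ext e.symm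
      obtain ⟨W, hW⟩ := exists_wit w φ.not hφ.not t (fun i => T (2 * i))
        (fun j => T (2 * (j : ℕ) + 1))
      obtain ⟨y, rfl⟩ := cls_surj y
      have hv' : (fun i => (v i : Ult)) = fun i => cls fun s => ev w (T (2 * i)) (cd A s) s :=
        funext hv
      have hx' : (fun j => (xs j : Ult)) =
          fun j : Fin b => cls fun s => ev w (T (2 * (j : ℕ) + 1)) (cd A s) s := funext hx
      have hsn2 : ∀ z : ℕ → ℕ, (Fin.snoc (α := fun _ => Ult) (fun j => (xs j : Ult)) (cls z)) =
          fun j => cls (Fin.snoc (α := fun _ => ℕ → ℕ)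
            (fun (j : Fin b) s => ev w (T (2 * (j : ℕ) + 1)) (cd A s) s) z j) := by
        intro z
        funext j
        refine Fin.lastCases ?_ (fun j => ?_) j
        · simp
        · simp [hx j, El]
      have hsn3 : ∀ (z : ℕ → ℕ) s, (fun j => (Fin.snoc (α := fun _ => ℕ → ℕ)
            (fun (j : Fin b) s => ev w (T (2 * (j : ℕ) + 1)) (cd A s) s) z j : ℕ → ℕ) s) =
          Fin.snoc (α := fun _ => ℕ) (fun j : Fin b => ev w (T (2 * (j : ℕ) + 1)) (cd A s) s)
            (z s) := by
        intro z s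
        funext j
        refine Fin.lastCases ?_ (fun j => ?_) j <;> simp
      have hel2 : (Sum.elim (fun i => (v i : Ult)) (fun j => (xs j : Ult))) =
          fun i => cls (Sum.elim (fun i s => ev w (T (2 * i)) (cd A s) s)
            (fun (j : Fin b) s => ev w (T (2 * (j : ℕ) + 1)) (cd A s) s) i) := by
        rw [hv', hx']
        funext i; rcases i with i | i <;> rfl
      have hel3 : ∀ s, (fun i => (Sum.elim (fun i s => ev w (T (2 * i)) (cd A s) s)
            (fun (j : Fin b) s => ev w (T (2 * (j : ℕ) + 1)) (cd A s) s) i : ℕ → ℕ) s) =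
          Sum.elim (fun i => ev w (T (2 * i)) (cd A s) s)
            (fun j : Fin b => ev w (T (2 * (j : ℕ) + 1)) (cd A s) s) := by
        intro s
        funext i; rcases i with i | i <;> rfl
      rw [hel2, term_realize_cls, mLe_cls] at hy1
      rw [hsn2, hv', realize_cls] at hy2
      rw [← Ultrafilter.eventually_not] at hy2
      have hboth := hy1.and hy2
      have hWs : ∀ᶠ s in ((hyperfilter ℕ : Ultrafilter ℕ) : Filter ℕ),
          ev w W (cd A s) s ≤ (tLen t).realize (fun i => (Sum.elim
            (fun i s => ev w (T (2 * i)) (cd A s) s)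
            (fun (j : Fin b) s => ev w (T (2 * (j : ℕ) + 1)) (cd A s) s) i : ℕ → ℕ) s) ∧
          ¬ φ.Realize (fun i => ev w (T (2 * i)) (cd A s) s)
            (fun j => (Fin.snoc (α := fun _ => ℕ → ℕ)
            (fun (j : Fin b) s => ev w (T (2 * (j : ℕ) + 1)) (cd A s) s)
              (fun s => ev w W (cd A s) s) j : ℕ → ℕ) s) := by
        filter_upwards [hboth] with s hs
        obtain ⟨hs1, hs2⟩ := hs
        rw [hel3] at hs1 ⊢
        rw [hsn3] at hs2 ⊢
        simp only [realize_tLen, nat_mLen] at hs1 ⊢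
        rw [hW]
        refine ⟨leastW_le _ _, ?_⟩
        exact leastW_spec (R := fun y => (φ.not).Realize (fun i => ev w (T (2 * i)) (cd A s) s)
          (Fin.snoc (fun j : Fin b => ev w (T (2 * (j : ℕ) + 1)) (cd A s) s) y)) ⟨y s, hs1, hs2⟩
      have h3 := h ⟨El w W A, El_mem w W A⟩ (by
        rw [mLe_coe, coe_realize, hel, hel2, term_realize_cls]
        exact (mLe_cls _ _).2 (hWs.mono fun s hs => hs.1))
      rw [ih, hsn] at h3
      change φ.Realize _ (Fin.snoc (α := fun _ => Ult) (fun j => (xs j : Ult))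
        (cls fun s => ev w W (cd A s) s)) at h3
      rw [hsn2, hv', realize_cls] at h3
      have := (h3.and hWs)
      obtain ⟨s, hs1, hs2, hs3⟩ := this.exists
      exact hs3 hs1
    · intro h a ha
      rw [ih, hsn]
      apply h
      rw [mLe_coe, coe_realize, hel] at ha
      exact ha

end

end Pool.Agent.H23
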