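import Mathlib

/-!
The language of bounded arithmetic (Buss), its standard interpretation in the natural numbers,
and the classes of sharply bounded, of Sigma^b_i / Pi^b_i and of bounded formulas.
-/

namespace Pool.Agent.H23

open FirstOrder FirstOrder.Language

/-- Function symbols `0, S, ⌊x/2⌋, |x|, +, ·, #`. -/
inductive BussFunc : ℕ → Type
  | zero : BussFunc 0
  | succ : BussFunc 1
  | half : BussFunc 1
  | len : BussFunc 1
  | add : BussFunc 2
  | mul : BussFunc 2
  | smash : BussFunc 2

/-- The relation symbol `≤` (equality is logical). -/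
inductive BussRel : ℕ → Type
  | le : BussRel 2

/-- Buss' language of bounded arithmetic. -/
def buss : Language := ⟨BussFunc, BussRel⟩

/-- The standard interpretation in `ℕ`: `|x| = Nat.size x`, `x # y = 2 ^ (|x| * |y|)`. -/
def natFun : ∀ {n : ℕ}, BussFunc n → (Fin n → ℕ) → ℕ
  | _, .zero, _ => 0
  | _, .succ, x => x 0 + 1
  | _, .half, x => x 0 / 2
  | _, .len, x => (x 0).size
  | _, .add, x => x 0 + x 1
  | _, .mul, x => x 0 * x 1
  | _, .smash, x => 2 ^ ((x 0).size * (x 1).size)

/-- The standard interpretation of `≤` in `ℕ`. -/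
def natRel : ∀ {n : ℕ}, BussRel n → (Fin n → ℕ) → Prop
  | _, .le, x => x 0 ≤ x 1

instance natStr : buss.Structure ℕ where
  funMap := natFun
  RelMap := natRel

section syn

variable {α : Type} {n : ℕ}

/-- Terms. -/
def tZero : buss.Term α := Term.func (L := buss) BussFunc.zero ![]
def tSucc (t : buss.Term α) : buss.Term α := Term.func (L := buss) BussFunc.succ ![t]
def tHalf (t : buss.Term α) : buss.Term α := Term.func (L := buss) BussFunc.half ![t]
def tLen (t : buss.Term α) : buss.Term α := Term.func (L := buss) BussFunc.len ![t]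
def tAdd (t u : buss.Term α) : buss.Term α := Term.func (L := buss) BussFunc.add ![t, u]
def tMul (t u : buss.Term α) : buss.Term α := Term.func (L := buss) BussFunc.mul ![t, u]
def tSmash (t u : buss.Term α) : buss.Term α := Term.func (L := buss) BussFunc.smash ![t, u]

/-- The atomic formula `t ≤ u`. -/
def fLe (t u : buss.Term (α ⊕ Fin n)) : buss.BoundedFormula α n :=
  BoundedFormula.rel (L := buss) BussRel.le ![t, u]

/-- View a term in the variables `x_0, …, x_{n-1}` as a term in `x_0, …, x_n`. -/
def liftT (t : buss.Term (α ⊕ Fin n)) : buss.Term (α ⊕ Fin (n + 1)) :=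
  t.relabel (Sum.map id Fin.castSucc)

/-- The formula `∀ x_n ≤ t, φ`, i.e. `∀ x_n (x_n ≤ t → φ)`; the variable `x_n` does not occur
in `t`. -/
def ballLe (t : buss.Term (α ⊕ Fin n)) (φ : buss.BoundedFormula α (n + 1)) :
    buss.BoundedFormula α n :=
  ((fLe (Term.var (Sum.inr (Fin.last n))) (liftT t)).imp φ).all

/-- Sharply bounded formulas (`Σ^b_0 = Π^b_0`): all quantifiers are of the form `∀ x ≤ |t|`
(`∃ x ≤ |t|` is `¬ ∀ x ≤ |t| ¬`, with `¬ φ` being `φ → ⊥`). -/
inductive IsSharp : ∀ {n : ℕ}, buss.BoundedFormula α n → Prop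
  | falsum {n : ℕ} : IsSharp (BoundedFormula.falsum (n := n))
  | equal {n : ℕ} (t u : buss.Term (α ⊕ Fin n)) : IsSharp (BoundedFormula.equal t u)
  | rel {n l : ℕ} (R : buss.Relations l) (ts : Fin l → buss.Term (α ⊕ Fin n)) :
      IsSharp (BoundedFormula.rel R ts)
  | imp {n : ℕ} {φ ψ : buss.BoundedFormula α n} : IsSharp φ → IsSharp ψ → IsSharp (φ.imp ψ)
  | sball {n : ℕ} (t : buss.Term (α ⊕ Fin n)) {φ : buss.BoundedFormula α (n + 1)} :
      IsSharp φ → IsSharp (ballLe (tLen t) φ)

/-- Bounded formulas: all quantifiers are bounded. -/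
inductive IsBdd : ∀ {n : ℕ}, buss.BoundedFormula α n → Prop
  | falsum {n : ℕ} : IsBdd (BoundedFormula.falsum (n := n))
  | equal {n : ℕ} (t u : buss.Term (α ⊕ Fin n)) : IsBdd (BoundedFormula.equal t u)
  | rel {n l : ℕ} (R : buss.Relations l) (ts : Fin l → buss.Term (α ⊕ Fin n)) :
      IsBdd (BoundedFormula.rel R ts)
  | imp {n : ℕ} {φ ψ : buss.BoundedFormula α n} : IsBdd φ → IsBdd ψ → IsBdd (φ.imp ψ)
  | ball {n : ℕ} (t : buss.Term (α ⊕ Fin n)) {φ : buss.BoundedFormula α (n + 1)} :
      IsBdd φ → IsBdd (ballLe t φ)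

/-- `IsSP true i φ`: `φ` is a `Σ^b_i` formula; `IsSP false i φ`: `φ` is a `Π^b_i` formula.
`imp` respects polarity, in particular negation exchanges the two classes, `∀ x ≤ t` keeps
`Π^b_{i+1}` (hence `∃ x ≤ t`, which is `¬ ∀ x ≤ t ¬`, keeps `Σ^b_{i+1}`), and sharply bounded
quantifiers are not counted. -/
inductive IsSP : Bool → ℕ → ∀ {n : ℕ}, buss.BoundedFormula α n → Prop
  | sharp {b : Bool} {i n : ℕ} {φ : buss.BoundedFormula α n} : IsSharp φ → IsSP b i φ
  | up {b c : Bool} {i n : ℕ} {φ : buss.BoundedFormula α n} : IsSP b i φ → IsSP c (i + 1) φ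
  | imp {b : Bool} {i n : ℕ} {φ ψ : buss.BoundedFormula α n} :
      IsSP (!b) i φ → IsSP b i ψ → IsSP b i (φ.imp ψ)
  | ball {i n : ℕ} (t : buss.Term (α ⊕ Fin n)) {φ : buss.BoundedFormula α (n + 1)} :
      IsSP false (i + 1) φ → IsSP false (i + 1) (ballLe t φ)
  | sball {b : Bool} {i n : ℕ} (t : buss.Term (α ⊕ Fin n)) {φ : buss.BoundedFormula α (n + 1)} :
      IsSP b i φ → IsSP b i (ballLe (tLen t) φ)

end syn

section sem

variable {M : Type} [buss.Structure M] {α : Type} {n : ℕ}

/-- The order of a structure for the language. -/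
def mLe (a b : M) : Prop := Structure.RelMap (L := buss) BussRel.le ![a, b]

def mZero : M := Structure.funMap (L := buss) BussFunc.zero ![]
def mSucc (a : M) : M := Structure.funMap (L := buss) BussFunc.succ ![a]
def mHalf (a : M) : M := Structure.funMap (L := buss) BussFunc.half ![a]
def mLen (a : M) : M := Structure.funMap (L := buss) BussFunc.len ![a]
def mAdd (a b : M) : M := Structure.funMap (L := buss) BussFunc.add ![a, b]
def mMul (a b : M) : M := Structure.funMap (L := buss) BussFunc.mul ![a, b]
def mSmash (a b : M) : M := Structure.funMap (L := buss) BussFunc.smash ![a, b]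

@[simp] theorem realize_tZero (v : α → M) : (tZero : buss.Term α).realize v = mZero := by
  simp only [tZero, Term.realize, mZero]; congr 1; exact Subsingleton.elim _ _
@[simp] theorem realize_tSucc (v : α → M) (t : buss.Term α) :
    (tSucc t).realize v = mSucc (t.realize v) := by
  simp only [tSucc, Term.realize, mSucc]; congr 1; funext i; fin_cases i; rfl
@[simp] theorem realize_tHalf (v : α → M) (t : buss.Term α) :
    (tHalf t).realize v = mHalf (t.realize v) := by
  simp only [tHalf, Term.realize, mHalf]; congr 1; funext i; fin_cases i; rfl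
@[simp] theorem realize_tLen (v : α → M) (t : buss.Term α) :
    (tLen t).realize v = mLen (t.realize v) := by
  simp only [tLen, Term.realize, mLen]; congr 1; funext i; fin_cases i; rfl
@[simp] theorem realize_tAdd (v : α → M) (t u : buss.Term α) :
    (tAdd t u).realize v = mAdd (t.realize v) (u.realize v) := by
  simp only [tAdd, Term.realize, mAdd]; congr 1; funext i; fin_cases i <;> rfl
@[simp] theorem realize_tMul (v : α → M) (t u : buss.Term α) :
    (tMul t u).realize v = mMul (t.realize v) (u.realize v) := by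
  simp only [tMul, Term.realize, mMul]; congr 1; funext i; fin_cases i <;> rfl
@[simp] theorem realize_tSmash (v : α → M) (t u : buss.Term α) :
    (tSmash t u).realize v = mSmash (t.realize v) (u.realize v) := by
  simp only [tSmash, Term.realize, mSmash]; congr 1; funext i; fin_cases i <;> rfl

@[simp] theorem realize_fLe (v : α → M) (xs : Fin n → M) (t u : buss.Term (α ⊕ Fin n)) :
    (fLe t u).Realize v xs ↔ mLe (t.realize (Sum.elim v xs)) (u.realize (Sum.elim v xs)) := by
  simp only [fLe, BoundedFormula.Realize, mLe]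
  have : (fun i => Term.realize (Sum.elim v xs) ((![t, u] : Fin 2 → _) i)) =
      ![t.realize (Sum.elim v xs), u.realize (Sum.elim v xs)] := by
    funext i; fin_cases i <;> rfl
  rw [this]

@[simp] theorem realize_liftT (v : α → M) (xs : Fin n → M) (a : M)
    (t : buss.Term (α ⊕ Fin n)) :
    (liftT t).realize (Sum.elim v (Fin.snoc xs a)) = t.realize (Sum.elim v xs) := by
  simp only [liftT, Term.realize_relabel]
  congr 1
  funext i
  rcases i with i | i <;> simp

@[simp] theorem realize_ballLe (v : α → M) (xs : Fin n → M) (t : buss.Term (α ⊕ Fin n))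
    (φ : buss.BoundedFormula α (n + 1)) :
    (ballLe t φ).Realize v xs ↔
      ∀ a : M, mLe a (t.realize (Sum.elim v xs)) → φ.Realize v (Fin.snoc xs a) := by
  simp [ballLe]

end sem

@[simp] theorem nat_mLe (a b : ℕ) : mLe a b ↔ a ≤ b := Iff.rfl
@[simp] theorem nat_mZero : (mZero : ℕ) = 0 := rfl
@[simp] theorem nat_mSucc (a : ℕ) : mSucc a = a + 1 := rfl
@[simp] theorem nat_mHalf (a : ℕ) : mHalf a = a / 2 := rfl
@[simp] theorem nat_mLen (a : ℕ) : mLen a = a.size := rfl
@[simp] theorem nat_mAdd (a b : ℕ) : mAdd a b = a + b := rfl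
@[simp] theorem nat_mMul (a b : ℕ) : mMul a b = a * b := rfl
@[simp] theorem nat_mSmash (a b : ℕ) : mSmash a b = 2 ^ (a.size * b.size) := rfl

end Pool.Agent.H23
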