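import Pool.Agent.H23.Lang

/-!
Relabelling of bounded formulas and bounded quantification over named variables.
-/

namespace Pool.Agent.H23

open FirstOrder FirstOrder.Language

variable {α β : Type}

theorem relabel_liftT {m k : ℕ} (g : α → β ⊕ Fin m) (t : buss.Term (α ⊕ Fin k)) :
    (liftT t).relabel (BoundedFormula.relabelAux g (k + 1)) =
      (liftT (t.relabel (BoundedFormula.relabelAux g k)) : buss.Term (β ⊕ Fin (m + (k + 1)))) := by
  unfold liftT
  rw [Term.relabel_relabel, Term.relabel_relabel]
  congr 1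
  funext i
  rcases i with i | i
  · simp only [BoundedFormula.relabelAux, Function.comp_apply, Sum.map_inl, id]
    rcases g i with j | j
    · rfl
    · simp; rfl
  · simp only [BoundedFormula.relabelAux, Function.comp_apply, Sum.map_inr, id]
    simp

theorem relabel_fLe {m k : ℕ} (g : α → β ⊕ Fin m) (t u : buss.Term (α ⊕ Fin k)) :
    (fLe t u).relabel g = fLe (t.relabel (BoundedFormula.relabelAux g k))
      (u.relabel (BoundedFormula.relabelAux g k)) := by
  simp only [fLe, BoundedFormula.relabel, BoundedFormula.mapTermRel, id]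
  congr 1
  funext i
  fin_cases i <;> rfl

theorem relabel_ballLe {m k : ℕ} (g : α → β ⊕ Fin m) (t : buss.Term (α ⊕ Fin k))
    (φ : buss.BoundedFormula α (k + 1)) :
    (ballLe t φ).relabel g =
      ballLe (t.relabel (BoundedFormula.relabelAux g k)) (φ.relabel g) := by
  unfold ballLe
  rw [BoundedFormula.relabel_all, BoundedFormula.relabel_imp, relabel_fLe, relabel_liftT]
  congr 3

theorem relabel_tLen {m k : ℕ} (g : α → β ⊕ Fin m) (t : buss.Term (α ⊕ Fin k)) :
    (tLen t).relabel (BoundedFormula.relabelAux g k) =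
      tLen (t.relabel (BoundedFormula.relabelAux g k)) := by
  simp only [tLen, Term.relabel]
  congr 1
  funext i
  fin_cases i; rfl

theorem IsSharp.relabel {m k : ℕ} {φ : buss.BoundedFormula α k} (h : IsSharp φ)
    (g : α → β ⊕ Fin m) : IsSharp (φ.relabel g) := by
  induction h with
  | falsum => exact IsSharp.falsum
  | equal t u => exact IsSharp.equal _ _
  | rel R ts => exact IsSharp.rel _ _
  | imp _ _ ih1 ih2 => exact IsSharp.imp ih1 ih2
  | sball t _ ih =>
    rw [relabel_ballLe, relabel_tLen]
    exact IsSharp.sball _ ih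

theorem IsBdd.relabel {m k : ℕ} {φ : buss.BoundedFormula α k} (h : IsBdd φ)
    (g : α → β ⊕ Fin m) : IsBdd (φ.relabel g) := by
  induction h with
  | falsum => exact IsBdd.falsum
  | equal t u => exact IsBdd.equal _ _
  | rel R ts => exact IsBdd.rel _ _
  | imp _ _ ih1 ih2 => exact IsBdd.imp ih1 ih2
  | ball t _ ih =>
    rw [relabel_ballLe]
    exact IsBdd.ball _ ih

theorem IsSharp.isBdd {k : ℕ} {φ : buss.BoundedFormula α k} (h : IsSharp φ) : IsBdd φ := by
  induction h with
  | falsum => exact IsBdd.falsum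
  | equal t u => exact IsBdd.equal _ _
  | rel R ts => exact IsBdd.rel _ _
  | imp _ _ ih1 ih2 => exact IsBdd.imp ih1 ih2
  | sball t _ ih => exact IsBdd.ball _ ih

/-- Turn the named variable `k` into a de Bruijn variable. -/
def bindV (k : ℕ) (φ : buss.Formula ℕ) : buss.BoundedFormula ℕ 1 :=
  BoundedFormula.relabel (n := 1) (k := 0)
    (fun i => if i = k then Sum.inr (0 : Fin 1) else Sum.inl i) φ

theorem realize_bindV {M : Type} [buss.Structure M] (k : ℕ) (φ : buss.Formula ℕ) (v : ℕ → M)
    (xs : Fin 1 → M) : (bindV k φ).Realize v xs ↔ φ.Realize (Function.update v k (xs 0)) := by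
  unfold bindV
  have h := BoundedFormula.realize_relabel (m := 1) (n := 0) (φ := φ)
    (g := fun i => if i = k then Sum.inr (0 : Fin 1) else Sum.inl i) (v := v) (xs := xs)
  rw [h]
  unfold Formula.Realize
  have e1 : (Sum.elim v (xs ∘ Fin.castAdd 0) ∘
      fun i => if i = k then (Sum.inr (0 : Fin 1) : ℕ ⊕ Fin 1) else Sum.inl i) =
      Function.update v k (xs 0) := by
    funext i
    by_cases hi : i = k
    · subst hi; simp
    · simp [hi]
  rw [e1]
  have e2 : (xs ∘ Fin.natAdd 1 : Fin 0 → M) = default := Subsingleton.elim _ _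
  rw [e2]

/-- Bounded quantification over the named variable `k`. -/
def fBall (k : ℕ) (t : buss.Term ℕ) (φ : buss.Formula ℕ) : buss.Formula ℕ :=
  ballLe (n := 0) (t.relabel Sum.inl) (bindV k φ)

theorem realize_fBall {M : Type} [buss.Structure M] (k : ℕ) (t : buss.Term ℕ)
    (φ : buss.Formula ℕ) (v : ℕ → M) : (fBall k t φ).Realize v ↔
      ∀ a, mLe a (t.realize v) → φ.Realize (Function.update v k a) := by
  unfold fBall Formula.Realize
  rw [realize_ballLe]
  refine forall_congr' fun a => ?_
  rw [realize_bindV, Term.realize_relabel]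
  have : (Fin.snoc (α := fun _ => M) (default : Fin 0 → M) a : Fin 1 → M) 0 = a := rfl
  rw [this]
  have e : (Sum.elim v (default : Fin 0 → M)) ∘ Sum.inl = v := by funext i; rfl
  rw [e]
  rfl

theorem isBdd_fBall {k : ℕ} {t : buss.Term ℕ} {φ : buss.Formula ℕ} (h : IsBdd φ) :
    IsBdd (fBall k t φ) := IsBdd.ball _ (h.relabel _)

end Pool.Agent.H23
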