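import Pool.Agent.H23.Hull
import Pool.Agent.H23.Lang2

/-!
The hull satisfies all true sharply bounded formulas, length induction for sharply bounded
formulas, and has subtraction.
-/

namespace Pool.Agent.H23

open Filter FirstOrder FirstOrder.Language

noncomputable section

variable {w : ℕ → ℕ → ℕ}

theorem M_realize {φ : buss.Formula ℕ} (hφ : IsSharp φ) (x : ℕ → ℕ → ℕ) (v : ℕ → MM w)
    (hv : ∀ i, (v i : Ult) = cls (x i)) :
    φ.Realize v ↔ ∀ᶠ s in ((hyperfilter ℕ : Ultrafilter ℕ) : Filter ℕ),
      φ.Realize fun i => x i s := by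
  unfold Formula.Realize
  rw [elem_aux w hφ]
  have h := realize_cls (b := 0) φ x (fun j => j.elim0)
  have e1 : (fun i => (v i : Ult)) = fun i => cls (x i) := funext hv
  have e2 : (fun j => (((default : Fin 0 → MM w) j : MM w) : Ult)) =
      fun j : Fin 0 => cls ((fun j => j.elim0 : Fin 0 → ℕ → ℕ) j) := Subsingleton.elim _ _
  rw [e1, e2]
  refine h.trans (eventually_congr (Eventually.of_forall fun s => ?_))
  exact iff_of_eq (congrArg _ (Subsingleton.elim _ _))

theorem MM_true {φ : buss.Formula ℕ} (hφ : IsSharp φ) (h : ∀ v : ℕ → ℕ, φ.Realize v)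
    (v : ℕ → MM w) : φ.Realize v := by
  choose x hx using fun i => cls_surj (v i : Ult)
  rw [M_realize hφ x v hx]
  exact Eventually.of_forall fun s => h _

theorem coe_fun {n : ℕ} (F : BussFunc n) (x : Fin n → MM w) (y : Fin n → ℕ → ℕ)
    (h : ∀ i, (x i : Ult) = cls (y i)) :
    ((Structure.funMap (L := buss) F x : MM w) : Ult) = cls fun s => natFun F fun i => y i s := by
  have e : (fun i => (x i : Ult)) = fun i => cls (y i) := funext h
  refine (coe_funMap (w := w) (n := n) F x).trans ?_
  rw [e]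
  exact funMap_cls (n := n) F y

theorem coe_mSucc (x : MM w) (y : ℕ → ℕ) (h : (x : Ult) = cls y) :
    ((mSucc x : MM w) : Ult) = cls fun s => y s + 1 :=
  coe_fun BussFunc.succ ![x] ![y] (by intro i; fin_cases i; exact h)

theorem coe_mLen (x : MM w) (y : ℕ → ℕ) (h : (x : Ult) = cls y) :
    ((mLen x : MM w) : Ult) = cls fun s => (y s).size :=
  coe_fun BussFunc.len ![x] ![y] (by intro i; fin_cases i; exact h)

theorem coe_mHalf (x : MM w) (y : ℕ → ℕ) (h : (x : Ult) = cls y) :
    ((mHalf x : MM w) : Ult) = cls fun s => y s / 2 :=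
  coe_fun BussFunc.half ![x] ![y] (by intro i; fin_cases i; exact h)

theorem coe_mZero : ((mZero : MM w) : Ult) = cls fun _ => 0 :=
  coe_fun BussFunc.zero ![] ![] (by intro i; exact i.elim0)

theorem coe_mAdd (x x' : MM w) (y y' : ℕ → ℕ) (h : (x : Ult) = cls y) (h' : (x' : Ult) = cls y') :
    ((mAdd x x' : MM w) : Ult) = cls fun s => y s + y' s :=
  coe_fun BussFunc.add ![x, x'] ![y, y'] (by intro i; fin_cases i; exacts [h, h'])

theorem coe_mMul (x x' : MM w) (y y' : ℕ → ℕ) (h : (x : Ult) = cls y) (h' : (x' : Ult) = cls y') :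
    ((mMul x x' : MM w) : Ult) = cls fun s => y s * y' s :=
  coe_fun BussFunc.mul ![x, x'] ![y, y'] (by intro i; fin_cases i; exacts [h, h'])

theorem coe_mSmash (x x' : MM w) (y y' : ℕ → ℕ) (h : (x : Ult) = cls y)
    (h' : (x' : Ult) = cls y') :
    ((mSmash x x' : MM w) : Ult) = cls fun s => 2 ^ ((y s).size * (y' s).size) :=
  coe_fun BussFunc.smash ![x, x'] ![y, y'] (by intro i; fin_cases i; exacts [h, h'])

theorem MM_sub (x y : MM w) (h : mLe x y) : ∃ z, mAdd x z = y := by
  obtain ⟨T, A, hT⟩ := rep w fun i => if i = 0 then x else y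
  have hx : (x : Ult) = El w (T 0) A := by simpa using hT 0
  have hy : (y : Ult) = El w (T 1) A := by simpa using hT 1
  refine ⟨⟨El w (Term.func (L := plus) PlusFunc.sub ![T 1, T 0]) A, El_mem _ _ _⟩, ?_⟩
  rw [← Subtype.coe_inj, coe_mAdd _ _ _ _ hx rfl, hy]
  rw [mLe_coe, hx, hy] at h
  unfold El at h ⊢
  rw [mLe_cls] at h
  rw [cls_eq]
  filter_upwards [h] with s hs
  have : ev w (Term.func (L := plus) PlusFunc.sub ![T 1, T 0]) (cd A s) s =
    ev w (T 1) (cd A s) s - ev w (T 0) (cd A s) s := rfl
  rw [this]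
  omega

theorem MM_lind {φ : buss.Formula ℕ} (hφ : IsSharp φ) (v : ℕ → MM w)
    (h0 : φ.Realize (Function.update v 0 mZero))
    (hS : ∀ x, φ.Realize (Function.update v 0 x) → φ.Realize (Function.update v 0 (mSucc x)))
    (x : MM w) : φ.Realize (Function.update v 0 (mLen x)) := by
  by_contra hcon
  obtain ⟨T, A, hT⟩ := rep w fun i => if i = 0 then x else v (i - 1)
  have hx : (x : Ult) = El w (T 0) A := by simpa using hT 0
  have hv : ∀ i, (v i : Ult) = El w (T (i + 1)) A := fun i => by simpa using hT (i + 1)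
  have hM : ∀ (y : MM w) (y' : ℕ → ℕ), (y : Ult) = cls y' →
      (φ.Realize (Function.update v 0 y) ↔ ∀ᶠ s in ((hyperfilter ℕ : Ultrafilter ℕ) : Filter ℕ),
        φ.Realize (Function.update (fun i => ev w (T (i + 1)) (cd A s) s) 0 (y' s))) := by
    intro y y' hy
    rw [M_realize hφ (fun i s => if i = 0 then y' s else ev w (T (i + 1)) (cd A s) s)]
    · refine eventually_congr (Eventually.of_forall fun s => ?_)
      have : (fun i => if i = 0 then y' s else ev w (T (i + 1)) (cd A s) s) =
          Function.update (fun i => ev w (T (i + 1)) (cd A s) s) 0 (y' s) := by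
        funext i
        by_cases hi : i = 0
        · subst hi; simp
        · simp [hi]
      rw [this]
    · intro i
      by_cases hi : i = 0
      · subst hi; simpa using hy
      · have := hv i
        simp only [hi, if_false, Function.update_of_ne, ne_eq, not_false_eq_true]
        exact this
  obtain ⟨W, hW⟩ := exists_wit w (b := 0) (BoundedFormula.not (bindV 0 φ))
    (IsSharp.not (hφ.relabel _)) (Term.var (Sum.inl 0)) (fun i => if i = 0 then T 0 else T (i + 1))
    (fun j => j.elim0)
  have hW' : ∀ f s, ev w W f s = leastW (ev w (T 0) f s).size fun y =>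
      ¬ φ.Realize (Function.update (fun i => ev w (T (i + 1)) f s) 0 y) := by
    intro f s
    rw [hW]
    congr 1
    funext y
    rw [BoundedFormula.realize_not, realize_bindV]
    have e1 : (Fin.snoc (α := fun _ => ℕ) (fun j : Fin 0 => ev w ((fun j => j.elim0 : Fin 0 → Tr) j)
        f s) y : Fin 1 → ℕ) 0 = y := rfl
    have e2 : Function.update (fun i => ev w (if i = 0 then T 0 else T (i + 1)) f s) 0 y =
        Function.update (fun i => ev w (T (i + 1)) f s) 0 y := by
      funext i
      by_cases hi : i = 0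
      · subst hi; simp
      · simp [hi]
    rw [← e2]
    rfl
  rw [hM _ _ (coe_mLen x _ hx), ← Ultrafilter.eventually_not] at hcon
  rw [hM _ _ coe_mZero] at h0
  let W' : Tr := Term.func (L := plus) PlusFunc.sub
    ![W, Term.func (L := plus) (PlusFunc.base BussFunc.succ)
      ![Term.func (L := plus) (PlusFunc.base BussFunc.zero) Fin.elim0] ]
  have hW'e : ∀ f s, ev w W' f s = ev w W f s - 1 := fun f s => rfl
  have key : ∀ᶠ s in ((hyperfilter ℕ : Ultrafilter ℕ) : Filter ℕ),
      ¬ φ.Realize (Function.update (fun i => ev w (T (i + 1)) (cd A s) s) 0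
        (ev w W (cd A s) s)) ∧ 1 ≤ ev w W (cd A s) s ∧
      φ.Realize (Function.update (fun i => ev w (T (i + 1)) (cd A s) s) 0
        (ev w W' (cd A s) s)) := by
    filter_upwards [hcon, h0] with s hs1 hs2
    have h1 : ¬ φ.Realize (Function.update (fun i => ev w (T (i + 1)) (cd A s) s) 0
        (ev w W (cd A s) s)) := by
      rw [hW']
      exact leastW_spec (R := fun y => ¬ φ.Realize
        (Function.update (fun i => ev w (T (i + 1)) (cd A s) s) 0 y)) ⟨_, le_rfl, hs1⟩
    have h2 : 1 ≤ ev w W (cd A s) s := by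
      by_contra h
      have h3 : ev w W (cd A s) s = 0 := by omega
      rw [h3] at h1
      exact h1 hs2
    refine ⟨h1, h2, ?_⟩
    by_contra h3
    rw [hW'e] at h3
    have h4 : ev w W (cd A s) s - 1 < leastW (ev w (T 0) (cd A s) s).size fun y =>
      ¬ φ.Realize (Function.update (fun i => ev w (T (i + 1)) (cd A s) s) 0 y) := by
      rw [← hW']; omega
    exact leastW_min h4 h3
  have h5 := hS ⟨El w W' A, El_mem _ _ _⟩ ((hM _ _ rfl).2 (key.mono fun s hs => hs.2.2))
  rw [hM _ _ (coe_mSucc _ _ rfl)] at h5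
  obtain ⟨s, ⟨hs1, hs2, -⟩, hs3⟩ := (key.and h5).exists
  apply hs1
  have : ev w W' (cd A s) s + 1 = ev w W (cd A s) s := by rw [hW'e]; omega
  rw [← this]
  exact hs3

end

end Pool.Agent.H23
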