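import Pool.Agent.H23.Facts

/-!
The key lemma: the truncations of a branch exist in the hull only at standard levels.
-/

namespace Pool.Agent.H23

open Filter FirstOrder FirstOrder.Language Set Polynomial

noncomputable section

variable {w : ℕ → ℕ → ℕ}

/-- The combinatorial core. -/
theorem top_core {s n m k N a0 : ℕ} {w' f : ℕ → ℕ} (hs : 1 ≤ s) (hw : WB s w')
    (hn : 1 ≤ n) (hms : m < s) (hN1 : m + 2 ≤ N) (hN2 : N + n < s)
    (hf : Cell n m s f f) (ha0 : f 0 / 2 ^ (s - 1 - m) = a0)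
    {p : (ℕ → ℤ) → ℤ} (hp : p ∈ PP n s)
    (h : ∀ c, Leaf s c → Cell n m s f (fun i => if f i = f 0 then c else f i) →
      (2 : ℤ) ^ k * (TT s w' (c / 2 ^ (s - N)) : ℤ) =
        p (env s w' (fun i => if f i = f 0 then c else f i))) : False := by
  classical
  have hcell : ∀ c, Leaf s c → c / 2 ^ (s - 1 - m) = a0 →
      Cell n m s f (fun i => if f i = f 0 then c else f i) := by
    intro c hc hca
    refine ⟨hf.lf, fun i => ?_, fun i hi => ?_, hf.sep, fun i hi j hj hij => ?_⟩
    · split_ifs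
      · exact hc
      · exact hf.lf i
    · split_ifs with h1
      · rw [h1, hca, ha0]
      · rfl
    · beta_reduce at hij ⊢
      split_ifs at hij ⊢ with h1 h2 h2
      · rfl
      · exfalso
        apply h2
        apply hf.sep j hj 0 (by omega)
        rw [← hij, hca, ha0]
      · exfalso
        apply h1
        apply hf.sep i hi 0 (by omega)
        rw [hij, hca, ha0]
      · exact hf.sep i hi j hj hij
  obtain ⟨g, hg, hgp⟩ := PR_uni hp (fun v => v % 2 = 0 ∧ f (v / 2) = f 0) (env s w' f)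
  have hgc : ∀ c, Leaf s c → c / 2 ^ (s - 1 - m) = a0 →
      g.eval ((TT s w' c * 2 ^ s : ℕ) : ℤ) = (2 : ℤ) ^ k * (TT s w' (c / 2 ^ (s - N)) : ℤ) := by
    intro c hc hca
    rw [h c hc (hcell c hc hca), ← hgp]
    congr 1
    funext v
    unfold env
    by_cases hv : v % 2 = 0
    · by_cases hv2 : f (v / 2) = f 0
      · simp [hv, hv2]
      · simp [hv, hv2]
    · simp [hv]
  have ha : 2 ^ m ≤ a0 ∧ a0 < 2 ^ (m + 1) := by
    rw [← ha0]; exact ⟨(hf.lf 0).le_div hms, (hf.lf 0).div_lt' hms⟩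
  have hconst : ∀ e, e < 2 → g = C ((2 : ℤ) ^ k * (TT s w' (a0 * 2 ^ (N - 1 - m) + e) : ℤ)) := by
    intro e he
    set ν := a0 * 2 ^ (N - 1 - m) + e with hν
    have hpow2 : 2 ≤ 2 ^ (N - 1 - m) := by
      calc 2 = 2 ^ 1 := (pow_one 2).symm
        _ ≤ 2 ^ (N - 1 - m) := Nat.pow_le_pow_right (by norm_num) (by omega)
    have hν1 : 2 ^ (N - 1) ≤ ν := by
      have : 2 ^ (N - 1) = 2 ^ m * 2 ^ (N - 1 - m) := by
        rw [← pow_add]; congr 1; omega
      rw [this]
      have := Nat.mul_le_mul_right (2 ^ (N - 1 - m)) ha.1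
      omega
    have hν2 : ν + 1 ≤ 2 ^ N := by
      have h1 : 2 ^ N = 2 ^ (m + 1) * 2 ^ (N - 1 - m) := by
        rw [← pow_add]; congr 1; omega
      have h2 : (a0 + 1) * 2 ^ (N - 1 - m) ≤ 2 ^ (m + 1) * 2 ^ (N - 1 - m) :=
        Nat.mul_le_mul_right _ ha.2
      rw [← h1, add_mul] at h2
      omega
    have hνm : ν / 2 ^ (N - 1 - m) = a0 := by
      rw [hν, mul_comm, Nat.mul_add_div (by positivity), Nat.div_eq_of_lt (by omega), add_zero]
    have hj : ∀ j : Fin (2 ^ (s - N)), Leaf s (ν * 2 ^ (s - N) + j) ∧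
        (ν * 2 ^ (s - N) + j) / 2 ^ (s - N) = ν := by
      intro j
      have hj2 := j.2
      have e1 : 2 ^ (s - 1) = 2 ^ (N - 1) * 2 ^ (s - N) := by
        rw [← pow_add]; congr 1; omega
      have e2 : 2 ^ s = 2 ^ N * 2 ^ (s - N) := by
        rw [← pow_add]; congr 1; omega
      refine ⟨⟨?_, ?_⟩, ?_⟩
      · rw [e1]
        have := Nat.mul_le_mul_right (2 ^ (s - N)) hν1
        omega
      · rw [e2]
        have := Nat.mul_le_mul_right (2 ^ (s - N)) hν2
        rw [add_mul] at this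
        omega
      · rw [mul_comm, Nat.mul_add_div (by positivity), Nat.div_eq_of_lt j.2, add_zero]
    have hz : g - C ((2 : ℤ) ^ k * (TT s w' ν : ℤ)) = 0 := by
      refine Polynomial.eq_zero_of_natDegree_lt_card_of_eval_eq_zero _
        (f := fun j : Fin (2 ^ (s - N)) => ((TT s w' (ν * 2 ^ (s - N) + j) * 2 ^ s : ℕ) : ℤ))
        ?_ ?_ ?_
      · intro j j' hjj
        simp only [Nat.cast_inj] at hjj
        have h1 := Nat.eq_of_mul_eq_mul_right (by positivity) hjj
        have h2 := TT_inj hs hw h1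
        exact Fin.ext (by omega)
      · intro j
        obtain ⟨h1, h2⟩ := hj j
        have h3 : (ν * 2 ^ (s - N) + j) / 2 ^ (s - 1 - m) = a0 := by
          have e3 : s - 1 - m = (s - N) + (N - 1 - m) := by omega
          rw [e3, pow_add, ← Nat.div_div_eq_div_mul, h2, hνm]
        rw [eval_sub, eval_C, hgc _ h1 h3, h2, sub_self]
      · rw [natDegree_sub_C, Fintype.card_fin]
        exact lt_of_le_of_lt hg (Nat.pow_lt_pow_right (by norm_num) (by omega))
    exact sub_eq_zero.1 hz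
  have h0 := hconst 0 (by norm_num)
  have h1 := hconst 1 (by norm_num)
  rw [h0] at h1
  have h2 := C_injective h1
  have h3 : (TT s w' (a0 * 2 ^ (N - 1 - m) + 0) : ℤ) = TT s w' (a0 * 2 ^ (N - 1 - m) + 1) :=
    mul_left_cancel₀ (by positivity) h2
  have h4 := TT_inj hs hw (by exact_mod_cast h3)
  omega

theorem om_std (hWB : ∀ s, 1 ≤ s → WB s (w s)) (hG : ∀ n, ∀ᶠ s : ℕ in atTop, Good n s (w s))
    (α : Cantor) (d : MM w) (h : OmR (eP w) (eB w) (eI w) (eU w α) d) : ∃ n, d = nat w n := by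
  by_contra hns
  push Not at hns
  obtain ⟨hdI, y, -, htop⟩ := h
  obtain ⟨T, A, hT⟩ := rep w fun i => if i = 0 then d else y
  let C : ℕ → Cantor := fun i => if i = 0 then α else A (i - 1)
  have hCs : C ∘ Nat.succ = A := by funext i; simp [C]
  let td : Tr := (T 0).relabel (Sum.map Nat.succ id)
  let ty : Tr := (T 1).relabel (Sum.map Nat.succ id)
  have hd : d = ME w td C := by
    rw [ME_relabel, hCs]
    exact Subtype.ext (show (d : Ult) = El w (T 0) A by simpa using hT 0)
  have hy : y = ME w ty C := by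
    rw [ME_relabel, hCs]
    exact Subtype.ext (show (y : Ult) = El w (T 1) A by simpa using hT 1)
  have hdc : (d : Ult) = cls fun s => ev w td (cd C s) s := by rw [hd]; rfl
  have hyc : (y : Ult) = cls fun s => ev w ty (cd C s) s := by rw [hy]; rfl
  rw [TopR_iff (coe_eU α) hdc hyc] at htop
  -- local constancy
  have tD := tame_ev hWB hG td
  have tY := tame_ev hWB hG ty
  have tP : Tame w fun s _ _ => 2 ^ (s ^ 3 + s) := tame_cst Cst.P
  have tX : Tame w fun s f _ => TT s (w s) (f 0) * 2 ^ s *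
      2 ^ ((ev w td f s).size * s ^ 2) :=
    (tame_real 0).mul (Tame.of_pow_small ((tD.len hWB hG).mul (Small.stage 2)))
  have hR : LC fun s f z => ev w td f s = z 0 ∧
      (ev w ty f s * 2 ^ (s ^ 3 + s) ≤ TT s (w s) (f 0) * 2 ^ s *
        2 ^ ((ev w td f s).size * s ^ 2) ∧
      ((ev w ty f s + 1) * 2 ^ (s ^ 3 + s) ≤ TT s (w s) (f 0) * 2 ^ s *
        2 ^ ((ev w td f s).size * s ^ 2) → False)) :=
    (tD.eq hG (Tame.of_small (Small.zvar 0))).and
      (((tY.mul tP).le hG tX).and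
        ((((tY.add (Tame.of_small (Small.const 1))).mul tP).le hG tX).imp LC.false))
  obtain ⟨n1, hn1⟩ := hR 1
  obtain ⟨n2, k, hn2⟩ := tY 0
  set n := max (max n1 n2) 1 with hn
  have hnn1 : n1 ≤ n := (le_max_left _ _).trans (le_max_left _ _)
  have hnn2 : n2 ≤ n := (le_max_right _ _).trans (le_max_left _ _)
  obtain ⟨m, hm, hcc⟩ := (eventually_ccell n C).exists
  have a1 : ∀ᶠ s in hyp, ev w td (cd C s) s ≤ s := by
    rw [mLe_coe, hdc, coe_eI, mLe_cls] at hdI
    exact hdI
  have a2 : ∀ᶠ s in hyp, ∀ j ∈ Finset.range (2 ^ (n + m + 10)), ev w td (cd C s) s ≠ j := by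
    rw [Filter.eventually_all_finset]
    intro j _
    have : ¬ ∀ᶠ s in hyp, ev w td (cd C s) s = j := by
      intro hcon
      apply hns j
      apply Subtype.ext
      rw [hdc, coe_nat, cls_eq]
      exact hcon
    rwa [← Ultrafilter.eventually_not] at this
  have a3 : ∀ᶠ s in hyp, _ := hyper_of_atTop (hn1.and (hn2.and (eventually_gt_atTop (m + 1))))
  obtain ⟨s, ⟨⟨⟨b1, b2⟩, b3⟩, b4, b5, b6⟩⟩ := (((htop.and a1).and a2).and a3).exists
  set D := ev w td (cd C s) s with hD
  have hDK : 2 ^ (n + m + 10) ≤ D := by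
    by_contra hlt
    exact b3 D (Finset.mem_range.2 (not_le.1 hlt)) rfl
  set N := D.size with hNdef
  have hN1 : n + m + 11 ≤ N := by
    have : n + m + 10 < N := Nat.lt_size.2 hDK
    omega
  have hN2 : 2 ^ (N - 1) ≤ D := Nat.lt_size.1 (by omega)
  have hN3 : 2 * (N - 2) < 2 ^ (N - 1) := by
    have h1 : N - 2 < 2 ^ (N - 2) := Nat.lt_two_pow_self
    have h2 : 2 ^ (N - 1) = 2 * 2 ^ (N - 2) := by
      rw [← pow_succ']; congr 1; omega
    omega
  have hNs : N + n < s := by omega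
  have hcell := hcc.cell (show m < s by omega)
  obtain ⟨p, hp, hpe⟩ := b5 m (hnn2.trans hm) (by omega) (fun _ => 0) (fun _ => Nat.zero_le _) _
    (hcell.mono hnn2)
  have hTopf : ∀ f', Cell n m s (cd C s) f' → ev w ty f' s = TT s (w s) (f' 0 / 2 ^ (s - N)) := by
    intro f' hf'
    have h1 := (b4 m (hnn1.trans hm) (by omega) (fun _ => D) (fun _ => by simpa using b2) _ _
      (hf'.mono hnn1)).1 ⟨rfl, by
        have hx : cd C s 0 = codeR α (s - 1) := by simp [cd, C]
        rw [hx]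
        have := (div_eq_iff' (by positivity)).1 b1
        exact ⟨this.1, this.2⟩⟩
    obtain ⟨h2, h3, h4⟩ := h1
    have h2 : ev w td f' s = D := h2
    have h5 : TT s (w s) (f' 0) * 2 ^ s * 2 ^ ((ev w td f' s).size * s ^ 2) / 2 ^ (s ^ 3 + s) =
        ev w ty f' s := (div_eq_iff' (by positivity)).2 ⟨h3, h4⟩
    rw [h2] at h5
    rw [← h5]
    exact top_value (by omega) (hWB s (by omega)) _ _ (by omega)
  refine top_core (s := s) (n := n) (m := m) (k := k) (N := N) (a0 := codeR α m) (w' := w s)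
    (f := cd C s) (by omega) (hWB s (by omega)) (le_max_right _ _) (by omega) (by omega) hNs hcell
    ?_ (PP_mono hnn2 (by omega) hp) ?_
  · have hx : cd C s 0 = codeR α (s - 1) := by simp [cd, C]
    rw [hx, codeR_div_sub α (by omega)]
  · intro c _ hc
    have h6 := hpe _ (hc.mono hnn2)
    have h7 := hTopf _ hc
    rw [← h6]
    beta_reduce
    rw [h7]
    simp

end

end Pool.Agent.H23
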