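import Mathlib

/-!
Finite sets `PP n s` of polynomial functions with small constants, constants which are powers
of two with small exponents, and few operations.
-/

namespace Pool.Agent.H23

open Finset Polynomial

noncomputable section

open scoped Classical in
def baseP (n s : ℕ) : Finset ((ℕ → ℤ) → ℤ) :=
  (range n).image (fun (i : ℕ) x => x i) ∪ (range (s ^ n + 1)).image (fun (a : ℕ) _ => (a : ℤ)) ∪
    (range (s ^ n + 1)).image (fun (v : ℕ) _ => (2 : ℤ) ^ v)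

open scoped Classical in
def stepP (F : Finset ((ℕ → ℤ) → ℤ)) : Finset ((ℕ → ℤ) → ℤ) :=
  F ∪ (F ×ˢ F).image (fun p => p.1 + p.2) ∪ (F ×ˢ F).image (fun p => p.1 - p.2) ∪
    (F ×ˢ F).image (fun p => p.1 * p.2)

def PR (r n s : ℕ) : Finset ((ℕ → ℤ) → ℤ) := stepP^[r] (baseP n s)

def PP (n s : ℕ) : Finset ((ℕ → ℤ) → ℤ) := PR n n s

theorem PR_succ (r n s : ℕ) : PR (r + 1) n s = stepP (PR r n s) := by
  simp only [PR, Function.iterate_succ_apply']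

theorem mem_baseP {n s : ℕ} {p : (ℕ → ℤ) → ℤ} : p ∈ baseP n s ↔
    (∃ i < n, p = fun x => x i) ∨ (∃ a ≤ s ^ n, p = fun _ => (a : ℤ)) ∨
      (∃ v ≤ s ^ n, p = fun _ => (2 : ℤ) ^ v) := by
  classical
  simp only [baseP, mem_union, mem_image, mem_range, Nat.lt_succ_iff, or_assoc]
  constructor
  · rintro (⟨i, hi, rfl⟩ | ⟨i, hi, rfl⟩ | ⟨i, hi, rfl⟩)
    · exact Or.inl ⟨i, hi, rfl⟩
    · exact Or.inr (Or.inl ⟨i, hi, rfl⟩)
    · exact Or.inr (Or.inr ⟨i, hi, rfl⟩)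
  · rintro (⟨i, hi, rfl⟩ | ⟨i, hi, rfl⟩ | ⟨i, hi, rfl⟩)
    · exact Or.inl ⟨i, hi, rfl⟩
    · exact Or.inr (Or.inl ⟨i, hi, rfl⟩)
    · exact Or.inr (Or.inr ⟨i, hi, rfl⟩)

theorem mem_stepP {F : Finset ((ℕ → ℤ) → ℤ)} {p : (ℕ → ℤ) → ℤ} : p ∈ stepP F ↔
    p ∈ F ∨ (∃ a ∈ F, ∃ b ∈ F, p = a + b) ∨ (∃ a ∈ F, ∃ b ∈ F, p = a - b) ∨
      (∃ a ∈ F, ∃ b ∈ F, p = a * b) := by
  classical
  simp only [stepP, mem_union, mem_image, mem_product, Prod.exists, or_assoc]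
  constructor
  · rintro (h | ⟨a, b, ⟨ha, hb⟩, rfl⟩ | ⟨a, b, ⟨ha, hb⟩, rfl⟩ | ⟨a, b, ⟨ha, hb⟩, rfl⟩)
    · exact Or.inl h
    · exact Or.inr (Or.inl ⟨a, ha, b, hb, rfl⟩)
    · exact Or.inr (Or.inr (Or.inl ⟨a, ha, b, hb, rfl⟩))
    · exact Or.inr (Or.inr (Or.inr ⟨a, ha, b, hb, rfl⟩))
  · rintro (h | ⟨a, ha, b, hb, rfl⟩ | ⟨a, ha, b, hb, rfl⟩ | ⟨a, ha, b, hb, rfl⟩)
    · exact Or.inl h
    · exact Or.inr (Or.inl ⟨a, b, ⟨ha, hb⟩, rfl⟩)
    · exact Or.inr (Or.inr (Or.inl ⟨a, b, ⟨ha, hb⟩, rfl⟩))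
    · exact Or.inr (Or.inr (Or.inr ⟨a, b, ⟨ha, hb⟩, rfl⟩))

/-- Induction principle for `PR`. -/
theorem PR_induction {n s : ℕ} (Q : ℕ → ((ℕ → ℤ) → ℤ) → Prop)
    (hv : ∀ i < n, Q 0 fun x => x i) (hc : ∀ a ≤ s ^ n, Q 0 fun _ => (a : ℤ))
    (hp : ∀ v ≤ s ^ n, Q 0 fun _ => (2 : ℤ) ^ v)
    (hs : ∀ r p, Q r p → Q (r + 1) p)
    (ha : ∀ r p q, Q r p → Q r q → Q (r + 1) (p + q))
    (hb : ∀ r p q, Q r p → Q r q → Q (r + 1) (p - q))
    (hm : ∀ r p q, Q r p → Q r q → Q (r + 1) (p * q)) :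
    ∀ r, ∀ p ∈ PR r n s, Q r p := by
  intro r
  induction r with
  | zero =>
    intro p hp'
    rcases mem_baseP.1 hp' with ⟨i, hi, rfl⟩ | ⟨i, hi, rfl⟩ | ⟨i, hi, rfl⟩
    · exact hv i hi
    · exact hc i hi
    · exact hp i hi
  | succ r ih =>
    intro p hp'
    rw [PR_succ] at hp'
    rcases mem_stepP.1 hp' with h | ⟨a, ha', b, hb', rfl⟩ | ⟨a, ha', b, hb', rfl⟩ |
      ⟨a, ha', b, hb', rfl⟩
    · exact hs _ _ (ih p h)
    · exact ha _ _ _ (ih a ha') (ih b hb')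
    · exact hb _ _ _ (ih a ha') (ih b hb')
    · exact hm _ _ _ (ih a ha') (ih b hb')

theorem baseP_mono {n n' s : ℕ} (h : n ≤ n') (hs : 1 ≤ s) : baseP n s ⊆ baseP n' s := by
  intro p hp
  have hpow : s ^ n ≤ s ^ n' := Nat.pow_le_pow_right hs h
  rcases mem_baseP.1 hp with ⟨i, hi, rfl⟩ | ⟨i, hi, rfl⟩ | ⟨i, hi, rfl⟩
  · exact mem_baseP.2 (Or.inl ⟨i, hi.trans_le h, rfl⟩)
  · exact mem_baseP.2 (Or.inr (Or.inl ⟨i, hi.trans hpow, rfl⟩))
  · exact mem_baseP.2 (Or.inr (Or.inr ⟨i, hi.trans hpow, rfl⟩))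

theorem stepP_mono {F G : Finset ((ℕ → ℤ) → ℤ)} (h : F ⊆ G) : stepP F ⊆ stepP G := by
  intro p hp
  rcases mem_stepP.1 hp with h' | ⟨a, ha', b, hb', rfl⟩ | ⟨a, ha', b, hb', rfl⟩ |
      ⟨a, ha', b, hb', rfl⟩
  · exact mem_stepP.2 (Or.inl (h h'))
  · exact mem_stepP.2 (Or.inr (Or.inl ⟨a, h ha', b, h hb', rfl⟩))
  · exact mem_stepP.2 (Or.inr (Or.inr (Or.inl ⟨a, h ha', b, h hb', rfl⟩)))
  · exact mem_stepP.2 (Or.inr (Or.inr (Or.inr ⟨a, h ha', b, h hb', rfl⟩)))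

theorem subset_stepP (F : Finset ((ℕ → ℤ) → ℤ)) : F ⊆ stepP F := fun _ h => mem_stepP.2 (Or.inl h)

theorem PR_mono_left {r r' n s : ℕ} (h : r ≤ r') : PR r n s ⊆ PR r' n s := by
  induction r', h using Nat.le_induction with
  | base => exact Subset.refl _
  | succ k _ ih => rw [PR_succ]; exact ih.trans (subset_stepP _)

theorem PR_mono_right {r n n' s : ℕ} (h : n ≤ n') (hs : 1 ≤ s) : PR r n s ⊆ PR r n' s := by
  induction r with
  | zero => exact baseP_mono h hs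
  | succ r ih => rw [PR_succ, PR_succ]; exact stepP_mono ih

theorem PP_mono {n n' s : ℕ} (h : n ≤ n') (hs : 1 ≤ s) : PP n s ⊆ PP n' s :=
  (PR_mono_left h).trans (PR_mono_right h hs)

theorem PP_succ_of_step {n s : ℕ} (hs : 1 ≤ s) {p : (ℕ → ℤ) → ℤ} (h : p ∈ stepP (PP n s)) :
    p ∈ PP (n + 1) s := by
  have : stepP (PP n s) ⊆ PP (n + 1) s := by
    unfold PP
    rw [PR_succ]
    exact stepP_mono (PR_mono_right (Nat.le_succ n) hs)
  exact this h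

theorem PP_add {n s : ℕ} (hs : 1 ≤ s) {p q : (ℕ → ℤ) → ℤ} (hp : p ∈ PP n s) (hq : q ∈ PP n s) :
    p + q ∈ PP (n + 1) s :=
  PP_succ_of_step hs (mem_stepP.2 (Or.inr (Or.inl ⟨p, hp, q, hq, rfl⟩)))

theorem PP_sub {n s : ℕ} (hs : 1 ≤ s) {p q : (ℕ → ℤ) → ℤ} (hp : p ∈ PP n s) (hq : q ∈ PP n s) :
    p - q ∈ PP (n + 1) s :=
  PP_succ_of_step hs (mem_stepP.2 (Or.inr (Or.inr (Or.inl ⟨p, hp, q, hq, rfl⟩))))

theorem PP_mul {n s : ℕ} (hs : 1 ≤ s) {p q : (ℕ → ℤ) → ℤ} (hp : p ∈ PP n s) (hq : q ∈ PP n s) :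
    p * q ∈ PP (n + 1) s :=
  PP_succ_of_step hs (mem_stepP.2 (Or.inr (Or.inr (Or.inr ⟨p, hp, q, hq, rfl⟩))))

theorem PP_var {n s i : ℕ} (hi : i < n) : (fun x => x i) ∈ PP n s :=
  PR_mono_left (Nat.zero_le n) (mem_baseP.2 (Or.inl ⟨i, hi, rfl⟩))

theorem PP_const {n s a : ℕ} (ha : a ≤ s ^ n) : (fun _ => (a : ℤ)) ∈ PP n s :=
  PR_mono_left (Nat.zero_le n) (mem_baseP.2 (Or.inr (Or.inl ⟨a, ha, rfl⟩)))

theorem PP_pow {n s v : ℕ} (hv : v ≤ s ^ n) : (fun _ => (2 : ℤ) ^ v) ∈ PP n s :=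
  PR_mono_left (Nat.zero_le n) (mem_baseP.2 (Or.inr (Or.inr ⟨v, hv, rfl⟩)))

/-- Univariate specialisations have bounded degree. -/
theorem PR_uni {r n s : ℕ} {p : (ℕ → ℤ) → ℤ} (hp : p ∈ PR r n s) (c : ℕ → Prop)
    [DecidablePred c] (a : ℕ → ℤ) :
    ∃ g : ℤ[X], g.natDegree ≤ 2 ^ r ∧ ∀ X, p (fun i => if c i then X else a i) = g.eval X := by
  refine PR_induction (Q := fun r p => ∃ g : ℤ[X], g.natDegree ≤ 2 ^ r ∧
    ∀ X, p (fun i => if c i then X else a i) = g.eval X) ?_ ?_ ?_ ?_ ?_ ?_ ?_ r p hp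
  · intro i _
    by_cases h : c i
    · exact ⟨X, by simp, fun y => by simp [h]⟩
    · exact ⟨C (a i), by simp, fun y => by simp [h]⟩
  · intro b _
    exact ⟨C (b : ℤ), by rw [natDegree_C]; exact Nat.zero_le _, fun y => by simp⟩
  · intro v _
    exact ⟨C ((2 : ℤ) ^ v), by rw [natDegree_C]; exact Nat.zero_le _, fun y => by simp⟩
  · rintro r p ⟨g, hg, h⟩
    exact ⟨g, hg.trans (Nat.pow_le_pow_right (by norm_num) (Nat.le_succ r)), h⟩
  · rintro r p q ⟨g, hg, h⟩ ⟨g', hg', h'⟩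
    refine ⟨g + g', (natDegree_add_le g g').trans ((max_le hg hg').trans
      (Nat.pow_le_pow_right (by norm_num) (Nat.le_succ r))), fun y => ?_⟩
    simp [h, h']
  · rintro r p q ⟨g, hg, h⟩ ⟨g', hg', h'⟩
    refine ⟨g - g', (natDegree_sub_le g g').trans ((max_le hg hg').trans
      (Nat.pow_le_pow_right (by norm_num) (Nat.le_succ r))), fun y => ?_⟩
    simp [h, h']
  · rintro r p q ⟨g, hg, h⟩ ⟨g', hg', h'⟩
    refine ⟨g * g', (natDegree_mul_le).trans ((Nat.add_le_add hg hg').trans ?_), fun y => ?_⟩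
    · rw [pow_succ]; omega
    · simp [h, h']

theorem PR_congr {r n s : ℕ} {p : (ℕ → ℤ) → ℤ} (hp : p ∈ PR r n s) {x y : ℕ → ℤ}
    (h : ∀ i < n, x i = y i) : p x = p y := by
  refine PR_induction (Q := fun r p => p x = p y) ?_ ?_ ?_ ?_ ?_ ?_ ?_ r p hp
  · intro i hi; exact h i hi
  · intro a _; rfl
  · intro a _; rfl
  · intro r p h; exact h
  · intro r p q h1 h2; simp [h1, h2]
  · intro r p q h1 h2; simp [h1, h2]
  · intro r p q h1 h2; simp [h1, h2]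

theorem PR_modEq {r n s : ℕ} {p : (ℕ → ℤ) → ℤ} (hp : p ∈ PR r n s) {x y : ℕ → ℤ} {N : ℤ}
    (h : ∀ i < n, x i ≡ y i [ZMOD N]) : p x ≡ p y [ZMOD N] := by
  refine PR_induction (Q := fun r p => p x ≡ p y [ZMOD N]) ?_ ?_ ?_ ?_ ?_ ?_ ?_ r p hp
  · intro i hi; exact h i hi
  · intro a _; exact Int.ModEq.refl _
  · intro a _; exact Int.ModEq.refl _
  · intro r p h; exact h
  · intro r p q h1 h2; exact h1.add h2
  · intro r p q h1 h2; exact h1.sub h2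
  · intro r p q h1 h2; exact h1.mul h2

theorem PR_bound {r n s : ℕ} {p : (ℕ → ℤ) → ℤ} (hp : p ∈ PR r n s) {x : ℕ → ℤ} {B : ℤ}
    (h2 : 2 ≤ B) (hB : (2 : ℤ) ^ (s ^ n) ≤ B)
    (h : ∀ i < n, |x i| ≤ B) : |p x| ≤ B ^ (2 ^ r) := by
  have hpos : ∀ r : ℕ, 2 ≤ B ^ (2 ^ r) := fun r => by
    calc (2 : ℤ) ≤ B := h2
      _ = B ^ 1 := (pow_one B).symm
      _ ≤ B ^ (2 ^ r) := pow_le_pow_right₀ (by linarith) Nat.one_le_two_pow
  have hsq : ∀ r : ℕ, B ^ (2 ^ (r + 1)) = B ^ (2 ^ r) * B ^ (2 ^ r) := fun r => by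
    rw [← pow_add]; congr 1; rw [pow_succ]; ring
  refine PR_induction (Q := fun r p => |p x| ≤ B ^ (2 ^ r)) ?_ ?_ ?_ ?_ ?_ ?_ ?_ r p hp
  · intro i hi; simpa using h i hi
  · intro a ha
    have : (a : ℤ) ≤ 2 ^ (s ^ n) := by
      have : a ≤ 2 ^ (s ^ n) := ha.trans (Nat.lt_two_pow_self).le
      exact_mod_cast this
    simp only [pow_zero, pow_one]
    rw [abs_of_nonneg (by positivity)]
    exact this.trans hB
  · intro v hv
    simp only [pow_zero, pow_one]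
    rw [abs_of_nonneg (by positivity)]
    exact (pow_le_pow_right₀ (by norm_num) hv).trans hB
  · intro r p h
    rw [hsq]
    have := hpos r
    nlinarith [abs_nonneg (p x)]
  · intro r p q h1 h3
    rw [hsq]
    have := hpos r
    have h4 : |(p + q) x| ≤ |p x| + |q x| := abs_add_le _ _
    nlinarith
  · intro r p q h1 h3
    rw [hsq]
    have := hpos r
    have h4 : |(p - q) x| ≤ |p x| + |q x| := abs_sub _ _
    nlinarith
  · intro r p q h1 h3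
    rw [hsq]
    have h4 : |(p * q) x| = |p x| * |q x| := abs_mul _ _
    rw [h4]
    exact mul_le_mul h1 h3 (abs_nonneg _) (by have := hpos r; linarith)

theorem card_baseP (n s : ℕ) : (baseP n s).card ≤ n + (s ^ n + 1) + (s ^ n + 1) := by
  classical
  unfold baseP
  refine (card_union_le _ _).trans ?_
  refine Nat.add_le_add ((card_union_le _ _).trans (Nat.add_le_add ?_ ?_)) ?_
  · exact card_image_le.trans (by simp)
  · exact card_image_le.trans (by simp)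
  · exact card_image_le.trans (by simp)

theorem card_stepP (F : Finset ((ℕ → ℤ) → ℤ)) : (stepP F).card ≤ 4 * (F.card * F.card) := by
  classical
  unfold stepP
  have h : F.card ≤ F.card * F.card := Nat.le_mul_self _
  have h1 := card_image_le (s := F ×ˢ F) (f := fun p => p.1 + p.2)
  have h2 := card_image_le (s := F ×ˢ F) (f := fun p => p.1 - p.2)
  have h3 := card_image_le (s := F ×ˢ F) (f := fun p => p.1 * p.2)
  rw [card_product] at h1 h2 h3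
  have h4 := card_union_le (F ∪ (F ×ˢ F).image (fun p => p.1 + p.2) ∪
    (F ×ˢ F).image (fun p => p.1 - p.2)) ((F ×ˢ F).image (fun p => p.1 * p.2))
  have h5 := card_union_le (F ∪ (F ×ˢ F).image (fun p => p.1 + p.2))
    ((F ×ˢ F).image (fun p => p.1 - p.2))
  have h6 := card_union_le F ((F ×ˢ F).image (fun p => p.1 + p.2))
  omega

theorem card_PR (r n s : ℕ) : 4 * (PR r n s).card ≤ (4 * (n + (s ^ n + 1) + (s ^ n + 1))) ^ (2 ^ r)
    := by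
  induction r with
  | zero =>
    have := card_baseP n s
    simp only [pow_zero, pow_one]
    change 4 * (baseP n s).card ≤ _
    omega
  | succ r ih =>
    rw [PR_succ]
    have := card_stepP (PR r n s)
    have e : (4 * (n + (s ^ n + 1) + (s ^ n + 1))) ^ (2 ^ (r + 1)) =
        (4 * (n + (s ^ n + 1) + (s ^ n + 1))) ^ (2 ^ r) *
        (4 * (n + (s ^ n + 1) + (s ^ n + 1))) ^ (2 ^ r) := by
      rw [← pow_add]; congr 1; rw [pow_succ]; ring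
    rw [e]
    calc 4 * (stepP (PR r n s)).card ≤ 4 * (4 * ((PR r n s).card * (PR r n s).card)) := by omega
      _ = (4 * (PR r n s).card) * (4 * (PR r n s).card) := by ring
      _ ≤ _ := Nat.mul_le_mul ih ih

open Filter in
/-- Powers are eventually smaller than exponentials. -/
theorem eventually_pow_le_two_pow (c : ℕ) : ∀ᶠ s : ℕ in atTop, s ^ c ≤ 2 ^ s := by
  have h := isLittleO_pow_const_const_pow_of_one_lt (R := ℝ) c (r := 2) (by norm_num)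
  have h2 := h.bound (c := 1) one_pos
  filter_upwards [h2] with s hs
  simp only [one_mul, norm_pow, RCLike.norm_natCast, Real.norm_ofNat] at hs
  exact_mod_cast hs

open Filter in
theorem eventually_card_PP (n : ℕ) : ∀ᶠ s : ℕ in atTop, (PP n s).card ≤ 2 ^ s := by
  filter_upwards [eventually_pow_le_two_pow ((n + 2) * 2 ^ n), eventually_ge_atTop (4 * n + 16)]
    with s h1 h2
  have h3 := card_PR n n s
  have h4 : 4 * (n + (s ^ n + 1) + (s ^ n + 1)) ≤ s ^ (n + 2) := by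
    have h5 : 1 ≤ s ^ n := Nat.one_le_pow _ _ (by omega)
    have h6 : s ^ (n + 2) = s * (s * s ^ n) := by ring
    rw [h6]
    have h7 : (4 * n + 16) * s ^ n ≤ s * s ^ n := Nat.mul_le_mul_right _ h2
    have h8 : s * s ^ n ≤ s * (s * s ^ n) := by
      have : 1 * (s * s ^ n) ≤ s * (s * s ^ n) := Nat.mul_le_mul_right _ (by omega)
      omega
    nlinarith
  calc (PP n s).card ≤ 4 * (PR n n s).card := by unfold PP; omega
    _ ≤ _ := h3
    _ ≤ (s ^ (n + 2)) ^ (2 ^ n) := Nat.pow_le_pow_left h4 _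
    _ = s ^ ((n + 2) * 2 ^ n) := by rw [← pow_mul]
    _ ≤ 2 ^ s := h1

end

end Pool.Agent.H23
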