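import Pool.Agent.H23.Good
import Pool.Agent.H23.Lang

/-!
Tame functions: locally (on cells) given by polynomials from `PP`, up to a fixed power of two.
-/

namespace Pool.Agent.H23

open Finset Polynomial Filter

noncomputable section

/-- Functions of the stage `s`, the leaf codes `f` and the small parameters `z`. -/
abbrev HF := ℕ → (ℕ → ℕ) → (ℕ → ℕ) → ℕ

def TB (w : ℕ → ℕ → ℕ) (H : HF) (c0 n k s : ℕ) : Prop :=
  ∀ m, n ≤ 2 ^ m → m < s → ∀ z : ℕ → ℕ, (∀ i, z i ≤ s ^ c0) → ∀ f, Cell n m s f f →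
    ∃ p ∈ PP n s, ∀ f', Cell n m s f f' → (2 : ℤ) ^ k * (H s f' z : ℤ) = p (env s (w s) f')

def Tame (w : ℕ → ℕ → ℕ) (H : HF) : Prop :=
  ∀ c0 : ℕ, ∃ n k : ℕ, ∀ᶠ s in atTop, TB w H c0 n k s

/-- Locally constant relations. -/
def LC (R : ℕ → (ℕ → ℕ) → (ℕ → ℕ) → Prop) : Prop :=
  ∀ c0 : ℕ, ∃ n, ∀ᶠ s in atTop, ∀ m, n ≤ 2 ^ m → m < s → ∀ z : ℕ → ℕ, (∀ i, z i ≤ s ^ c0) →
    ∀ f f', Cell n m s f f' → (R s f z ↔ R s f' z)

/-- Locally constant small functions. -/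
def Small (V : HF) : Prop :=
  ∀ c0 : ℕ, ∃ n, ∀ᶠ s in atTop, ∀ m, n ≤ 2 ^ m → m < s → ∀ z : ℕ → ℕ, (∀ i, z i ≤ s ^ c0) →
    ∀ f f', Cell n m s f f' → V s f z = V s f' z ∧ V s f z ≤ s ^ n

variable {w : ℕ → ℕ → ℕ}

theorem TB.mono {H : HF} {c0 n n' k s : ℕ} (h : TB w H c0 n k s) (hs : 1 ≤ s) (hn : n ≤ n') :
    TB w H c0 n' k s := by
  intro m hnm hm z hz f hf
  obtain ⟨p, hp, h1⟩ := h m (hn.trans hnm) hm z hz f (hf.mono hn)
  exact ⟨p, PP_mono hn hs hp, fun f' hf' => h1 f' (hf'.mono hn)⟩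

/-- `k ≤ s ^ n` for large `s`. -/
theorem le_pow_of_le {k s n : ℕ} (hs : 1 ≤ s) (hk : k ≤ s) (hn : 1 ≤ n) : k ≤ s ^ n :=
  hk.trans (by calc s = s ^ 1 := (pow_one s).symm
                 _ ≤ s ^ n := Nat.pow_le_pow_right hs hn)

theorem Tame.two {H1 H2 : HF} (h1 : Tame w H1) (h2 : Tame w H2) (c0 : ℕ) :
    ∃ n k1 k2 : ℕ, 1 ≤ n ∧ ∀ᶠ s in atTop, 1 ≤ s ∧ k1 ≤ s ∧ k2 ≤ s ∧ TB w H1 c0 n k1 s ∧
      TB w H2 c0 n k2 s := by
  obtain ⟨n1, k1, e1⟩ := h1 c0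
  obtain ⟨n2, k2, e2⟩ := h2 c0
  refine ⟨max (max n1 n2) 1, k1, k2, le_max_right _ _, ?_⟩
  filter_upwards [e1, e2, eventually_ge_atTop (max (max k1 k2) 1)] with s a1 a2 a3
  have hs : 1 ≤ s := (le_max_right _ _).trans a3
  have hk1 : k1 ≤ s := ((le_max_left _ _).trans (le_max_left _ _)).trans a3
  have hk2 : k2 ≤ s := ((le_max_right _ _).trans (le_max_left _ _)).trans a3
  exact ⟨hs, hk1, hk2, a1.mono hs ((le_max_left _ _).trans (le_max_left _ _)),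
    a2.mono hs ((le_max_right _ _).trans (le_max_left _ _))⟩

theorem Tame.le (hG : ∀ n, ∀ᶠ s : ℕ in atTop, Good n s (w s)) {H1 H2 : HF} (h1 : Tame w H1)
    (h2 : Tame w H2) : LC fun s f z => H1 s f z ≤ H2 s f z := by
  intro c0
  obtain ⟨n, k1, k2, hn, hev⟩ := h1.two h2 c0
  refine ⟨n + 2, ?_⟩
  filter_upwards [hev, hG (n + 2)] with s hs hGs m hnm hm z hz f f' hC
  obtain ⟨hs1, hk1, hk2, t1, t2⟩ := hs
  have hn2 : n ≤ n + 2 := by omega
  obtain ⟨p1, hp1, e1⟩ := t1 m (hn2.trans hnm) hm z hz f (hC.mono hn2).refl_left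
  obtain ⟨p2, hp2, e2⟩ := t2 m (hn2.trans hnm) hm z hz f (hC.mono hn2).refl_left
  have hq : (fun _ => (2 : ℤ) ^ k1) * p2 - (fun _ => (2 : ℤ) ^ k2) * p1 ∈ PP (n + 2) s :=
    PP_sub hs1 (PP_mul hs1 (PP_pow (le_pow_of_le hs1 hk1 hn)) hp2)
      (PP_mul hs1 (PP_pow (le_pow_of_le hs1 hk2 hn)) hp1)
  have hsgn := hGs.sign_const hq hnm hm hC
  have key : ∀ g, Cell n m s f g →
      ((fun _ => (2 : ℤ) ^ k1) * p2 - (fun _ => (2 : ℤ) ^ k2) * p1 : (ℕ → ℤ) → ℤ)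
      (env s (w s) g) = (2 : ℤ) ^ (k1 + k2) * ((H2 s g z : ℤ) - (H1 s g z : ℤ)) := by
    intro g hg
    simp only [Pi.sub_apply, Pi.mul_apply]
    rw [← e1 g hg, ← e2 g hg]
    ring
  rw [key f (hC.mono hn2).refl_left, key f' (hC.mono hn2)] at hsgn
  have aux : ∀ x y : ℕ, x ≤ y ↔ 0 ≤ (2 : ℤ) ^ (k1 + k2) * ((y : ℤ) - (x : ℤ)) := by
    intro x y
    rw [mul_nonneg_iff_of_pos_left (by positivity)]
    omega
  rw [aux (H1 s f z), aux (H1 s f' z)]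
  constructor
  · intro h
    have := sign_nonneg_iff.2 h
    rw [hsgn] at this
    exact sign_nonneg_iff.1 this
  · intro h
    have := sign_nonneg_iff.2 h
    rw [← hsgn] at this
    exact sign_nonneg_iff.1 this

theorem LC.and {R R' : ℕ → (ℕ → ℕ) → (ℕ → ℕ) → Prop} (h : LC R) (h' : LC R') :
    LC fun s f z => R s f z ∧ R' s f z := by
  intro c0
  obtain ⟨n, hn⟩ := h c0
  obtain ⟨n', hn'⟩ := h' c0
  refine ⟨max n n', ?_⟩
  filter_upwards [hn, hn'] with s a a' m hnm hm z hz f f' hC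
  rw [a m ((le_max_left _ _).trans hnm) hm z hz f f' (hC.mono (le_max_left _ _)),
    a' m ((le_max_right _ _).trans hnm) hm z hz f f' (hC.mono (le_max_right _ _))]

theorem LC.imp {R R' : ℕ → (ℕ → ℕ) → (ℕ → ℕ) → Prop} (h : LC R) (h' : LC R') :
    LC fun s f z => R s f z → R' s f z := by
  intro c0
  obtain ⟨n, hn⟩ := h c0
  obtain ⟨n', hn'⟩ := h' c0
  refine ⟨max n n', ?_⟩
  filter_upwards [hn, hn'] with s a a' m hnm hm z hz f f' hC
  rw [a m ((le_max_left _ _).trans hnm) hm z hz f f' (hC.mono (le_max_left _ _)),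
    a' m ((le_max_right _ _).trans hnm) hm z hz f f' (hC.mono (le_max_right _ _))]

theorem LC.false : LC fun _ _ _ => False := fun _ =>
  ⟨0, Eventually.of_forall fun _ _ _ _ _ _ _ _ _ => Iff.rfl⟩

theorem LC.congr {R R' : ℕ → (ℕ → ℕ) → (ℕ → ℕ) → Prop} (h : LC R)
    (e : ∀ s f z, R s f z ↔ R' s f z) : LC R' := by
  have : R = R' := by funext s f z; exact propext (e s f z)
  rwa [← this]

theorem Tame.eq (hG : ∀ n, ∀ᶠ s : ℕ in atTop, Good n s (w s)) {H1 H2 : HF} (h1 : Tame w H1)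
    (h2 : Tame w H2) : LC fun s f z => H1 s f z = H2 s f z :=
  ((h1.le hG h2).and (h2.le hG h1)).congr fun _ _ _ => le_antisymm_iff.symm

/-- adding one small parameter in front. -/
def consN (y : ℕ) (z : ℕ → ℕ) : ℕ → ℕ := fun i => if i = 0 then y else z (i - 1)

@[simp] theorem consN_zero (y : ℕ) (z : ℕ → ℕ) : consN y z 0 = y := by simp [consN]
@[simp] theorem consN_comp (y : ℕ) (z : ℕ → ℕ) : (consN y z ∘ Nat.succ) = z := by
  funext i; simp [consN]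

theorem Tame.reindex {H : HF} (h : Tame w H) (ρ : ℕ → ℕ) : Tame w fun s f z => H s f (z ∘ ρ) := by
  intro c0
  obtain ⟨n, k, e⟩ := h c0
  refine ⟨n, k, ?_⟩
  filter_upwards [e] with s hs m hnm hm z hz f hf
  exact hs m hnm hm (z ∘ ρ) (fun i => hz (ρ i)) f hf

theorem Tame.of_small {V : HF} (h : Small V) : Tame w V := by
  intro c0
  obtain ⟨n, hn⟩ := h c0
  refine ⟨n, 0, ?_⟩
  filter_upwards [hn] with s hs m hnm hm z hz f hf
  refine ⟨fun _ => (V s f z : ℤ), PP_const (hs m hnm hm z hz f f hf).2, fun f' hf' => ?_⟩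
  rw [(hs m hnm hm z hz f f' hf').1]
  simp

theorem Tame.of_pow_small {V : HF} (h : Small V) : Tame w fun s f z => 2 ^ V s f z := by
  intro c0
  obtain ⟨n, hn⟩ := h c0
  refine ⟨n, 0, ?_⟩
  filter_upwards [hn] with s hs m hnm hm z hz f hf
  refine ⟨fun _ => (2 : ℤ) ^ (V s f z), PP_pow (hs m hnm hm z hz f f hf).2, fun f' hf' => ?_⟩
  rw [(hs m hnm hm z hz f f' hf').1]
  push_cast
  simp

theorem Small.zvar (i : ℕ) : Small fun _ _ z => z i := fun c0 =>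
  ⟨c0, Eventually.of_forall fun _ _ _ _ _ hz _ _ _ => ⟨rfl, hz i⟩⟩

theorem Small.const (a : ℕ) : Small fun _ _ _ => a := fun _ =>
  ⟨1, by filter_upwards [eventually_ge_atTop a] with s hs m _ _ z _ f f' _
         exact ⟨rfl, by simpa using hs⟩⟩

theorem Small.stage (c : ℕ) : Small fun s _ _ => s ^ c := fun _ =>
  ⟨c, Eventually.of_forall fun _ _ _ _ _ _ _ _ _ => ⟨rfl, le_rfl⟩⟩

/-- A small function dominated by another one and locally constant. -/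
theorem Small.of_le {V V' : HF} (h : Small V) (hle : ∀ᶠ s in atTop, ∀ f z, V' s f z ≤ V s f z)
    (hc : ∀ c0 : ℕ, ∃ n, ∀ᶠ s in atTop, ∀ m, n ≤ 2 ^ m → m < s → ∀ z : ℕ → ℕ,
      (∀ i, z i ≤ s ^ c0) → ∀ f f', Cell n m s f f' → V' s f z = V' s f' z) : Small V' := by
  intro c0
  obtain ⟨n, hn⟩ := h c0
  obtain ⟨n', hn'⟩ := hc c0
  refine ⟨max n n', ?_⟩
  filter_upwards [hn, hn', hle, eventually_ge_atTop 1] with s a a' b hs m hnm hm z hz f f' hC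
  refine ⟨a' m ((le_max_right _ _).trans hnm) hm z hz f f' (hC.mono (le_max_right _ _)), ?_⟩
  exact ((b f z).trans (a m ((le_max_left _ _).trans hnm) hm z hz f f'
    (hC.mono (le_max_left _ _))).2).trans (Nat.pow_le_pow_right hs (le_max_left _ _))

theorem Small.mul {V V' : HF} (h : Small V) (h' : Small V') :
    Small fun s f z => V s f z * V' s f z := by
  intro c0
  obtain ⟨n, hn⟩ := h c0
  obtain ⟨n', hn'⟩ := h' c0
  refine ⟨n + n', ?_⟩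
  filter_upwards [hn, hn'] with s a a' m hnm hm z hz f f' hC
  obtain ⟨a1, a2⟩ := a m ((Nat.le_add_right _ _).trans hnm) hm z hz f f'
    (hC.mono (Nat.le_add_right _ _))
  obtain ⟨b1, b2⟩ := a' m ((Nat.le_add_left _ _).trans hnm) hm z hz f f'
    (hC.mono (Nat.le_add_left _ _))
  exact ⟨by rw [a1, b1], by rw [pow_add]; exact Nat.mul_le_mul a2 b2⟩

theorem Small.add {V V' : HF} (h : Small V) (h' : Small V') :
    Small fun s f z => V s f z + V' s f z := by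
  intro c0
  obtain ⟨n, hn⟩ := h c0
  obtain ⟨n', hn'⟩ := h' c0
  refine ⟨n + n' + 1, ?_⟩
  filter_upwards [hn, hn', eventually_ge_atTop 2] with s a a' hs m hnm hm z hz f f' hC
  obtain ⟨a1, a2⟩ := a m (le_trans (by omega) hnm) hm z hz f f' (hC.mono (by omega))
  obtain ⟨b1, b2⟩ := a' m (le_trans (by omega) hnm) hm z hz f f' (hC.mono (by omega))
  refine ⟨by rw [a1, b1], ?_⟩
  have h1 : s ^ n ≤ s ^ (n + n') := Nat.pow_le_pow_right (by omega) (by omega)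
  have h2 : s ^ n' ≤ s ^ (n + n') := Nat.pow_le_pow_right (by omega) (by omega)
  rw [pow_succ]
  nlinarith

theorem Tame.add {H1 H2 : HF} (h1 : Tame w H1) (h2 : Tame w H2) :
    Tame w fun s f z => H1 s f z + H2 s f z := by
  intro c0
  obtain ⟨n, k1, k2, hn, hev⟩ := h1.two h2 c0
  refine ⟨n + 2, k1 + k2, ?_⟩
  filter_upwards [hev] with s hs m hnm hm z hz f hf
  obtain ⟨hs1, hk1, hk2, t1, t2⟩ := hs
  have hn2 : n ≤ n + 2 := by omega
  obtain ⟨p1, hp1, e1⟩ := t1 m (hn2.trans hnm) hm z hz f (hf.mono hn2)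
  obtain ⟨p2, hp2, e2⟩ := t2 m (hn2.trans hnm) hm z hz f (hf.mono hn2)
  refine ⟨_, PP_add hs1 (PP_mul hs1 (PP_pow (le_pow_of_le hs1 hk1 hn)) hp2)
      (PP_mul hs1 (PP_pow (le_pow_of_le hs1 hk2 hn)) hp1), fun f' hf' => ?_⟩
  simp only [Pi.add_apply, Pi.mul_apply]
  rw [← e1 f' (hf'.mono hn2), ← e2 f' (hf'.mono hn2)]
  push_cast
  ring

theorem Tame.mul {H1 H2 : HF} (h1 : Tame w H1) (h2 : Tame w H2) :
    Tame w fun s f z => H1 s f z * H2 s f z := by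
  intro c0
  obtain ⟨n, k1, k2, hn, hev⟩ := h1.two h2 c0
  refine ⟨n + 1, k1 + k2, ?_⟩
  filter_upwards [hev] with s hs m hnm hm z hz f hf
  obtain ⟨hs1, hk1, hk2, t1, t2⟩ := hs
  have hn2 : n ≤ n + 1 := by omega
  obtain ⟨p1, hp1, e1⟩ := t1 m (hn2.trans hnm) hm z hz f (hf.mono hn2)
  obtain ⟨p2, hp2, e2⟩ := t2 m (hn2.trans hnm) hm z hz f (hf.mono hn2)
  refine ⟨_, PP_mul hs1 hp1 hp2, fun f' hf' => ?_⟩
  simp only [Pi.mul_apply]
  rw [← e1 f' (hf'.mono hn2), ← e2 f' (hf'.mono hn2)]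
  push_cast
  ring

theorem Tame.sub (hG : ∀ n, ∀ᶠ s : ℕ in atTop, Good n s (w s)) {H1 H2 : HF} (h1 : Tame w H1)
    (h2 : Tame w H2) : Tame w fun s f z => H1 s f z - H2 s f z := by
  intro c0
  obtain ⟨n, k1, k2, hn, hev⟩ := h1.two h2 c0
  obtain ⟨n', hle⟩ := h2.le hG h1 c0
  refine ⟨n + n' + 2, k1 + k2, ?_⟩
  filter_upwards [hev, hle] with s hs hle m hnm hm z hz f hf
  obtain ⟨hs1, hk1, hk2, t1, t2⟩ := hs
  have hn2 : n ≤ n + n' + 2 := by omega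
  have hn3 : n' ≤ n + n' + 2 := by omega
  obtain ⟨p1, hp1, e1⟩ := t1 m (hn2.trans hnm) hm z hz f (hf.mono hn2)
  obtain ⟨p2, hp2, e2⟩ := t2 m (hn2.trans hnm) hm z hz f (hf.mono hn2)
  by_cases hcase : H2 s f z ≤ H1 s f z
  · refine ⟨(fun _ => (2 : ℤ) ^ k2) * p1 - (fun _ => (2 : ℤ) ^ k1) * p2,
      PP_mono (by omega) hs1 (PP_sub hs1 (PP_mul hs1 (PP_pow (le_pow_of_le hs1 hk2 hn)) hp1)
      (PP_mul hs1 (PP_pow (le_pow_of_le hs1 hk1 hn)) hp2)), fun f' hf' => ?_⟩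
    simp only [Pi.sub_apply, Pi.mul_apply]
    rw [← e1 f' (hf'.mono hn2), ← e2 f' (hf'.mono hn2)]
    have h3 := (hle m (hn3.trans hnm) hm z hz f f' (hf'.mono hn3)).1 hcase
    rw [Nat.cast_sub h3]
    ring
  · refine ⟨fun _ => ((0 : ℕ) : ℤ), PP_const (Nat.zero_le _), fun f' hf' => ?_⟩
    have h3 : ¬ H2 s f' z ≤ H1 s f' z := fun h =>
      hcase ((hle m (hn3.trans hnm) hm z hz f f' (hf'.mono hn3)).2 h)
    beta_reduce
    rw [Nat.sub_eq_zero_of_le (by omega)]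
    simp

theorem env_modEq {s n : ℕ} {w' : ℕ → ℕ} {f f' : ℕ → ℕ} :
    ∀ i < n, env s w' f i ≡ env s w' f' i [ZMOD 2 ^ s] := by
  intro i _
  unfold env
  split_ifs
  · push_cast
    exact ((Int.modEq_zero_iff_dvd.2 (Dvd.intro_left _ rfl)).trans
      (Int.modEq_zero_iff_dvd.2 (Dvd.intro_left _ rfl)).symm)
  · exact Int.ModEq.refl _

theorem Tame.half {H : HF} (h : Tame w H) : Tame w fun s f z => H s f z / 2 := by
  intro c0
  obtain ⟨n, k, hev⟩ := h c0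
  refine ⟨n + 2, k + 1, ?_⟩
  filter_upwards [hev, eventually_ge_atTop (k + 1)] with s t hks m hnm hm z hz f hf
  have hs1 : 1 ≤ s := by omega
  have hn2 : n ≤ n + 2 := by omega
  obtain ⟨p, hp, e⟩ := t m (hn2.trans hnm) hm z hz f (hf.mono hn2)
  have hpar : ∀ f', Cell (n + 2) m s f f' → H s f' z % 2 = H s f z % 2 := by
    intro f' hf'
    have h1 : p (env s (w s) f') ≡ p (env s (w s) f) [ZMOD 2 ^ s] :=
      PR_modEq hp env_modEq
    have h2 : p (env s (w s) f') ≡ p (env s (w s) f) [ZMOD 2 ^ (k + 1)] :=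
      h1.of_dvd (pow_dvd_pow 2 hks)
    rw [← e f' (hf'.mono hn2), ← e f (hf.mono hn2)] at h2
    have h3 : (2 : ℤ) ^ (k + 1) ∣ 2 ^ k * (H s f z : ℤ) - 2 ^ k * (H s f' z : ℤ) := h2.dvd
    rw [← mul_sub, pow_succ] at h3
    have h4 : (2 : ℤ) ∣ (H s f z : ℤ) - (H s f' z : ℤ) :=
      Int.dvd_of_mul_dvd_mul_left (by positivity) h3
    omega
  rcases Nat.mod_two_eq_zero_or_one (H s f z) with h0 | h0
  · refine ⟨p, PP_mono hn2 hs1 hp, fun f' hf' => ?_⟩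
    rw [← e f' (hf'.mono hn2)]
    have h1 := hpar f' hf'
    have h2 : H s f' z = 2 * (H s f' z / 2) := by omega
    have h3 : (H s f' z : ℤ) = 2 * ((H s f' z / 2 : ℕ) : ℤ) := by exact_mod_cast h2
    rw [h3, pow_succ]
    ring
  · refine ⟨p - fun _ => (2 : ℤ) ^ k, PP_sub hs1 (PP_mono (n := n) (n' := n + 1) (by omega) hs1 hp)
      (PP_pow (le_pow_of_le hs1 (by omega) (by omega))), fun f' hf' => ?_⟩
    simp only [Pi.sub_apply]
    rw [← e f' (hf'.mono hn2)]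
    have h1 := hpar f' hf'
    have h2 : H s f' z = 2 * (H s f' z / 2) + 1 := by omega
    have h3 : (H s f' z : ℤ) = 2 * ((H s f' z / 2 : ℕ) : ℤ) + 1 := by exact_mod_cast h2
    rw [h3, pow_succ]
    ring

/-- Growth of tame functions. -/
theorem env_bound {s n : ℕ} (hs : 2 ≤ s) {w' f : ℕ → ℕ} (hw : WB s w') (hf : ∀ i, Leaf s (f i))
    (hn : n ≤ 2 ^ s) : ∀ v < n, |env s w' f v| ≤ (2 : ℤ) ^ (s ^ 4) := by
  intro v hv
  have h1 : ∀ k, k < 2 ^ s → TT s w' k * 2 ^ s ≤ 2 ^ (s ^ 4) := by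
    intro k hk
    have h2 : TT s w' k < 2 ^ (s ^ 2 * s) := TT_lt (by omega) hw hk
    calc TT s w' k * 2 ^ s ≤ 2 ^ (s ^ 2 * s) * 2 ^ s := Nat.mul_le_mul_right _ h2.le
      _ = 2 ^ (s ^ 3 + s) := by rw [← pow_add]; ring_nf
      _ ≤ 2 ^ (s ^ 4) := by
        apply Nat.pow_le_pow_right (by norm_num)
        have h3 : s ≤ s ^ 3 := by
          calc s = s ^ 1 := (pow_one s).symm
            _ ≤ s ^ 3 := Nat.pow_le_pow_right (by omega) (by norm_num)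
        have h4 : s ^ 4 = s * s ^ 3 := by ring
        rw [h4]
        nlinarith
  unfold env
  split_ifs with h
  · rw [abs_of_nonneg (by positivity)]
    have := h1 (f (v / 2)) (hf _).2
    exact_mod_cast this
  · rw [abs_of_nonneg (by positivity)]
    have h2 := h1 (v / 2) (by omega)
    have h3 : TT s w' (v / 2) ≤ TT s w' (v / 2) * 2 ^ s := Nat.le_mul_of_pos_right _ (by positivity)
    exact_mod_cast h3.trans h2

theorem Tame.growth (hWB : ∀ s, 1 ≤ s → WB s (w s)) {H : HF} (h : Tame w H) (c0 : ℕ) :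
    ∃ c, ∀ᶠ s in atTop, ∀ z : ℕ → ℕ, (∀ i, z i ≤ s ^ c0) → ∀ f, (∀ i, Leaf s (f i)) →
      H s f z < 2 ^ (s ^ c) := by
  obtain ⟨n, k, hev⟩ := h c0
  refine ⟨n + 4 + 2 ^ n + 1, ?_⟩
  filter_upwards [hev, eventually_ge_atTop (2 ^ n + n + 2)] with s t hns z hz f hf
  have hn2 : n < 2 ^ n := Nat.lt_two_pow_self
  have hs2 : 2 ≤ s := by omega
  have hns1 : n ≤ 2 ^ (s - 1) := by
    have : s - 1 < 2 ^ (s - 1) := Nat.lt_two_pow_self
    omega
  have hC : Cell n (s - 1) s f f := by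
    have e0 : s - 1 - (s - 1) = 0 := by omega
    refine ⟨hf, hf, fun _ _ => rfl, fun i _ j _ h => ?_, fun i _ j _ h => ?_⟩
    · simpa [e0] using h
    · simpa [e0] using h
  obtain ⟨p, hp, e⟩ := t (s - 1) hns1 (by omega) z hz f hC
  have hb := PR_bound hp (x := env s (w s) f) (B := 2 ^ (s ^ (n + 4))) (by
      calc (2 : ℤ) = 2 ^ 1 := (pow_one 2).symm
        _ ≤ 2 ^ (s ^ (n + 4)) := pow_le_pow_right₀ (by norm_num) (Nat.one_le_pow _ _ (by omega)))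
    (pow_le_pow_right₀ (by norm_num) (Nat.pow_le_pow_right (by omega) (by omega))) (by
      intro i hi
      refine (env_bound hs2 (hWB s (by omega)) hf (hns1.trans
        (Nat.pow_le_pow_right (by norm_num) (by omega))) i hi).trans ?_
      exact pow_le_pow_right₀ (by norm_num) (Nat.pow_le_pow_right (by omega) (by omega)))
  rw [← e f hC] at hb
  have h1 : (H s f z : ℤ) ≤ (2 ^ (s ^ (n + 4))) ^ (2 ^ n) := by
    have h2 : (1 : ℤ) ≤ 2 ^ k := one_le_pow₀ (by norm_num)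
    have h3 : (0 : ℤ) ≤ (H s f z : ℤ) := by positivity
    rw [abs_of_nonneg (by positivity)] at hb
    nlinarith
  have h2 : H s f z ≤ 2 ^ (s ^ (n + 4) * 2 ^ n) := by
    rw [pow_mul]; exact_mod_cast h1
  refine h2.trans_lt (Nat.pow_lt_pow_right (by norm_num) ?_)
  have h3 : 2 ^ n ≤ s ^ (2 ^ n) := by
    calc 2 ^ n ≤ s := by omega
      _ = s ^ 1 := (pow_one s).symm
      _ ≤ s ^ (2 ^ n) := Nat.pow_le_pow_right (by omega) Nat.one_le_two_pow
  calc s ^ (n + 4) * 2 ^ n ≤ s ^ (n + 4) * s ^ (2 ^ n) := Nat.mul_le_mul_left _ h3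
    _ = s ^ (n + 4 + 2 ^ n) := by rw [← pow_add]
    _ < s ^ (n + 4 + 2 ^ n + 1) := Nat.pow_lt_pow_right (by omega) (by omega)

end

end Pool.Agent.H23
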