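import Pool.Agent.H23.Tame

/-!
Closure of tame functions under length, smash and bounded minimisation; sharply bounded
formulas are locally constant.
-/

namespace Pool.Agent.H23

open Finset Polynomial Filter FirstOrder FirstOrder.Language

noncomputable section

variable {w : ℕ → ℕ → ℕ}

theorem LC.ball {R : ℕ → (ℕ → ℕ) → (ℕ → ℕ) → Prop} (hR : LC R) {V : HF} (hV : Small V) :
    LC fun s f z => ∀ y ≤ V s f z, R s f (consN y z) := by
  intro c0
  obtain ⟨n, hn⟩ := hV c0
  obtain ⟨n', hn'⟩ := hR (max c0 n)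
  refine ⟨max n n', ?_⟩
  filter_upwards [hn, hn', eventually_ge_atTop 1] with s a a' hs m hnm hm z hz f f' hC
  obtain ⟨h1, h2⟩ := a m ((le_max_left _ _).trans hnm) hm z hz f f' (hC.mono (le_max_left _ _))
  rw [← h1]
  refine forall_congr' fun y => forall_congr' fun hy => ?_
  refine a' m ((le_max_right _ _).trans hnm) hm _ (fun i => ?_) f f' (hC.mono (le_max_right _ _))
  unfold consN
  split_ifs
  · exact (hy.trans h2).trans (Nat.pow_le_pow_right hs (le_max_right _ _))
  · exact (hz _).trans (Nat.pow_le_pow_right hs (le_max_left _ _))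

theorem Tame.len (hWB : ∀ s, 1 ≤ s → WB s (w s)) (hG : ∀ n, ∀ᶠ s : ℕ in atTop, Good n s (w s))
    {H : HF} (h : Tame w H) : Small fun s f z => (H s f z).size := by
  intro c0
  obtain ⟨c, hc⟩ := h.growth hWB c0
  have hR : LC fun s f z => 2 ^ (z 0) ≤ H s f (z ∘ Nat.succ) :=
    (Tame.of_pow_small (Small.zvar 0)).le hG (h.reindex Nat.succ)
  obtain ⟨n, hn⟩ := hR (max c0 c)
  refine ⟨max n c, ?_⟩
  filter_upwards [hc, hn, eventually_ge_atTop 1] with s a b hs m hnm hm z hz f f' hC
  have key : ∀ y, y ≤ s ^ c → (2 ^ y ≤ H s f z ↔ 2 ^ y ≤ H s f' z) := by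
    intro y hy
    have := b m ((le_max_left _ _).trans hnm) hm (consN y z) (fun i => by
      unfold consN
      split_ifs
      · exact hy.trans (Nat.pow_le_pow_right hs (le_max_right _ _))
      · exact (hz _).trans (Nat.pow_le_pow_right hs (le_max_left _ _))) f f'
      (hC.mono (le_max_left _ _))
    simpa using this
  have h1 : (H s f z).size ≤ s ^ c := Nat.size_le.2 (a z hz f hC.lf)
  have h2 : (H s f' z).size ≤ s ^ c := Nat.size_le.2 (a z hz f' hC.lf')
  refine ⟨le_antisymm ?_ ?_, h1.trans (Nat.pow_le_pow_right hs (le_max_right _ _))⟩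
  · rw [Nat.size_le]
    by_contra hcon
    have := (key _ h2).1 (not_lt.1 hcon)
    exact absurd (Nat.lt_size_self _) (not_lt.2 this)
  · rw [Nat.size_le]
    by_contra hcon
    have := (key _ h1).2 (not_lt.1 hcon)
    exact absurd (Nat.lt_size_self _) (not_lt.2 this)

/-- The least `y ≤ V` with `R y`, and `0` if there is none. -/
def leastW (V : ℕ) (R : ℕ → Prop) : ℕ :=
  open scoped Classical in if h : ∃ y, y ≤ V ∧ R y then Nat.find h else 0

theorem leastW_le (V : ℕ) (R : ℕ → Prop) : leastW V R ≤ V := by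
  classical
  unfold leastW
  split_ifs with h
  · exact (Nat.find_spec h).1
  · exact Nat.zero_le _

theorem leastW_spec {V : ℕ} {R : ℕ → Prop} (h : ∃ y, y ≤ V ∧ R y) : R (leastW V R) := by
  classical
  unfold leastW
  rw [dif_pos h]
  exact (Nat.find_spec h).2

theorem leastW_min {V : ℕ} {R : ℕ → Prop} {y : ℕ} (hy : y < leastW V R) : ¬ R y := by
  classical
  intro hR
  have hyV : y ≤ V := hy.le.trans (leastW_le V R)
  have hex : ∃ y, y ≤ V ∧ R y := ⟨y, hyV, hR⟩
  unfold leastW at hy
  rw [dif_pos hex] at hy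
  exact Nat.find_min hex hy ⟨hyV, hR⟩

theorem leastW_congr {V : ℕ} {R R' : ℕ → Prop} (h : ∀ y ≤ V, (R y ↔ R' y)) :
    leastW V R = leastW V R' := by
  classical
  have e : (fun y => y ≤ V ∧ R y) = fun y => y ≤ V ∧ R' y := by
    funext y
    apply propext
    constructor
    · rintro ⟨h1, h2⟩; exact ⟨h1, (h y h1).1 h2⟩
    · rintro ⟨h1, h2⟩; exact ⟨h1, (h y h1).2 h2⟩
  unfold leastW
  by_cases h1 : ∃ y, y ≤ V ∧ R y
  · have h2 : ∃ y, y ≤ V ∧ R' y := by
      obtain ⟨y, hy1, hy2⟩ := h1
      exact ⟨y, hy1, (h y hy1).1 hy2⟩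
    rw [dif_pos h1, dif_pos h2]
    refine le_antisymm ?_ ?_
    · apply Nat.find_min'
      have := Nat.find_spec h2
      exact ⟨this.1, (h _ this.1).2 this.2⟩
    · apply Nat.find_min'
      have := Nat.find_spec h1
      exact ⟨this.1, (h _ this.1).1 this.2⟩
  · have h2 : ¬ ∃ y, y ≤ V ∧ R' y := by
      rintro ⟨y, hy1, hy2⟩
      exact h1 ⟨y, hy1, (h y hy1).2 hy2⟩
    rw [dif_neg h1, dif_neg h2]

theorem Small.leastW {R : ℕ → (ℕ → ℕ) → (ℕ → ℕ) → Prop} (hR : LC R) {V : HF} (hV : Small V) :
    Small fun s f z => leastW (V s f z) fun y => R s f (consN y z) := by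
  refine Small.of_le hV (Eventually.of_forall fun s f z => leastW_le _ _) ?_
  intro c0
  obtain ⟨n, hn⟩ := hV c0
  obtain ⟨n', hn'⟩ := hR (max c0 n)
  refine ⟨max n n', ?_⟩
  filter_upwards [hn, hn', eventually_ge_atTop 1] with s a a' hs m hnm hm z hz f f' hC
  obtain ⟨h1, h2⟩ := a m ((le_max_left _ _).trans hnm) hm z hz f f' (hC.mono (le_max_left _ _))
  rw [← h1]
  apply leastW_congr
  intro y hy
  refine a' m ((le_max_right _ _).trans hnm) hm _ (fun i => ?_) f f' (hC.mono (le_max_right _ _))
  unfold consN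
  split_ifs
  · exact (hy.trans h2).trans (Nat.pow_le_pow_right hs (le_max_right _ _))
  · exact (hz _).trans (Nat.pow_le_pow_right hs (le_max_left _ _))

/-- Terms of the language of bounded arithmetic preserve tameness. -/
theorem tame_term (hWB : ∀ s, 1 ≤ s → WB s (w s)) (hG : ∀ n, ∀ᶠ s : ℕ in atTop, Good n s (w s))
    {β : Type} (t : buss.Term β) (Hv : β → HF) (hv : ∀ i, Tame w (Hv i)) :
    Tame w fun s f z => t.realize fun i => Hv i s f z := by
  induction t with
  | var i => exact hv i
  | func F ts ih =>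
    cases F with
    | zero => exact Tame.of_small (Small.const 0)
    | succ => exact (ih 0).add (Tame.of_small (Small.const 1))
    | half => exact (ih 0).half
    | len => exact Tame.of_small ((ih 0).len hWB hG)
    | add => exact (ih 0).add (ih 1)
    | mul => exact (ih 0).mul (ih 1)
    | smash => exact Tame.of_pow_small (((ih 0).len hWB hG).mul ((ih 1).len hWB hG))

theorem elim_eq {b : ℕ} (Hv : ℕ → HF) (Hx : Fin b → HF) (s : ℕ) (f z : ℕ → ℕ) :
    Sum.elim (fun i => Hv i s f z) (fun j => Hx j s f z) = fun q => (Sum.elim Hv Hx q) s f z := by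
  funext q; rcases q with q | q <;> rfl

theorem snoc_eq {b : ℕ} (Hx : Fin b → HF) (s : ℕ) (f z : ℕ → ℕ) (y : ℕ) :
    (fun j => (Fin.snoc (α := fun _ => HF) (fun j s f z => Hx j s f (z ∘ Nat.succ))
      (fun _ _ z => z 0) j : HF) s f (consN y z)) =
    Fin.snoc (α := fun _ => ℕ) (fun j => Hx j s f z) y := by
  funext j
  refine Fin.lastCases ?_ (fun j => ?_) j
  · simp
  · simp

/-- Sharply bounded formulas are locally constant. -/
theorem lc_formula (hWB : ∀ s, 1 ≤ s → WB s (w s)) (hG : ∀ n, ∀ᶠ s : ℕ in atTop, Good n s (w s))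
    {b : ℕ} {φ : buss.BoundedFormula ℕ b} (hφ : IsSharp φ) (Hv : ℕ → HF) (Hx : Fin b → HF)
    (hv : ∀ i, Tame w (Hv i)) (hx : ∀ j, Tame w (Hx j)) :
    LC fun s f z => φ.Realize (fun i => Hv i s f z) (fun j => Hx j s f z) := by
  induction hφ generalizing Hv with
  | falsum => exact LC.false
  | equal t u =>
    have h1 := tame_term hWB hG t (Sum.elim Hv Hx) (by rintro (i | i); exacts [hv i, hx i])
    have h2 := tame_term hWB hG u (Sum.elim Hv Hx) (by rintro (i | i); exacts [hv i, hx i])
    refine (h1.eq hG h2).congr fun s f z => ?_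
    simp only [BoundedFormula.Realize, elim_eq]
  | rel R ts =>
    cases R with
    | le =>
      have h1 := tame_term hWB hG (ts 0) (Sum.elim Hv Hx) (by rintro (i | i); exacts [hv i, hx i])
      have h2 := tame_term hWB hG (ts 1) (Sum.elim Hv Hx) (by rintro (i | i); exacts [hv i, hx i])
      refine (h1.le hG h2).congr fun s f z => ?_
      simp only [BoundedFormula.Realize, elim_eq]
      exact Iff.rfl
  | imp _ _ ih1 ih2 => exact (ih1 Hv Hx hv hx).imp (ih2 Hv Hx hv hx)
  | sball t _ ih =>
    have h1 := (tame_term hWB hG t (Sum.elim Hv Hx)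
      (by rintro (i | i); exacts [hv i, hx i])).len hWB hG
    have h2 := ih (fun i s f z => Hv i s f (z ∘ Nat.succ))
      (Fin.snoc (α := fun _ => HF) (fun j s f z => Hx j s f (z ∘ Nat.succ)) (fun _ _ z => z 0))
      (fun i => (hv i).reindex _) (fun j => by
        refine Fin.lastCases ?_ (fun j => ?_) j
        · simpa using Tame.of_small (Small.zvar 0)
        · simpa using (hx j).reindex Nat.succ)
    refine (h2.ball h1).congr fun s f z => ?_
    simp only [realize_ballLe, realize_tLen, nat_mLe, nat_mLen, elim_eq, snoc_eq, consN_comp]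

/-! ### The extended language -/

/-- Function symbols of the extended language: those of `buss`, truncated subtraction, and
bounded minimisation for sharply bounded formulas below lengths. -/
inductive PlusFunc : ℕ → Type
  | base {n : ℕ} (f : BussFunc n) : PlusFunc n
  | sub : PlusFunc 2
  | wit (a b : ℕ) (φ : buss.BoundedFormula ℕ (b + 1)) (t : buss.Term (ℕ ⊕ Fin b))
      (h : IsSharp φ) : PlusFunc (a + b)

/-- The extended language. -/
def plus : Language := ⟨PlusFunc, fun _ => Empty⟩

/-- extend a finite sequence by zeros. -/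
def vhat (a b : ℕ) (x : Fin (a + b) → ℕ) : ℕ → ℕ :=
  fun i => if h : i < a then x (Fin.castAdd b ⟨i, h⟩) else 0

def plusFun : ∀ {n : ℕ}, PlusFunc n → (Fin n → ℕ) → ℕ
  | _, .base f, x => natFun f x
  | _, .sub, x => x 0 - x 1
  | _, .wit a b φ t _, x =>
      leastW (t.realize (Sum.elim (vhat a b x) (fun j => x (Fin.natAdd a j)))).size
        fun y => φ.Realize (vhat a b x) (Fin.snoc (fun j => x (Fin.natAdd a j)) y)

instance plusStr : plus.Structure ℕ where
  funMap := plusFun
  RelMap := fun r => r.elim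

/-- The constants. -/
inductive Cst : Type
  | P : Cst
  | b : Cst
  | iota : Cst
  | node (k : ℕ) : Cst

/-- Values of the constants. -/
def cstV (s : ℕ) (w' : ℕ → ℕ) : Cst → ℕ
  | .P => 2 ^ (s ^ 3 + s)
  | .b => 2 ^ (s ^ 2 - 1)
  | .iota => s
  | .node k => TT s w' k

abbrev Tr := plus.Term (ℕ ⊕ Cst)

/-- Value of a term. -/
def ev (w : ℕ → ℕ → ℕ) (t : Tr) (f : ℕ → ℕ) (s : ℕ) : ℕ :=
  t.realize (Sum.elim (fun i => TT s (w s) (f i) * 2 ^ s) (cstV s (w s)))

theorem tame_real (i : ℕ) : Tame w fun s f _ => TT s (w s) (f i) * 2 ^ s := by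
  intro c0
  refine ⟨2 * i + 1, 0, Eventually.of_forall fun s m _ _ z _ f _ => ?_⟩
  refine ⟨_, PP_var (show 2 * i < 2 * i + 1 by omega), fun f' _ => ?_⟩
  have h1 : 2 * i % 2 = 0 := by omega
  have h2 : 2 * i / 2 = i := by omega
  simp [env, h1, h2]

theorem tame_node (k : ℕ) : Tame w fun s _ _ => TT s (w s) k := by
  intro c0
  refine ⟨2 * k + 2, 0, Eventually.of_forall fun s m _ _ z _ f _ => ?_⟩
  refine ⟨_, PP_var (show 2 * k + 1 < 2 * k + 2 by omega), fun f' _ => ?_⟩
  have h1 : (2 * k + 1) % 2 = 1 := by omega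
  have h2 : (2 * k + 1) / 2 = k := by omega
  simp [env, h1, h2]

theorem tame_cst (c : Cst) : Tame w fun s _ _ => cstV s (w s) c := by
  cases c with
  | P => exact Tame.of_pow_small ((Small.stage 3).add (by simpa using Small.stage 1))
  | b =>
    refine Tame.of_pow_small (V := fun s _ _ => s ^ 2 - 1)
      (Small.of_le (Small.stage 2) (Eventually.of_forall fun s _ _ => Nat.sub_le _ _) ?_)
    intro c0
    exact ⟨0, Eventually.of_forall fun s m _ _ z _ f f' _ => rfl⟩
  | iota => exact Tame.of_small (by simpa [cstV] using Small.stage 1)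
  | node k => exact tame_node k

theorem tame_plus (hWB : ∀ s, 1 ≤ s → WB s (w s)) (hG : ∀ n, ∀ᶠ s : ℕ in atTop, Good n s (w s))
    {β : Type} (t : plus.Term β) (Hv : β → HF) (hv : ∀ i, Tame w (Hv i)) :
    Tame w fun s f z => t.realize fun i => Hv i s f z := by
  induction t with
  | var i => exact hv i
  | func F ts ih =>
    cases F with
    | base F =>
      cases F with
      | zero => exact Tame.of_small (Small.const 0)
      | succ => exact (ih 0).add (Tame.of_small (Small.const 1))
      | half => exact (ih 0).half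
      | len => exact Tame.of_small ((ih 0).len hWB hG)
      | add => exact (ih 0).add (ih 1)
      | mul => exact (ih 0).mul (ih 1)
      | smash => exact Tame.of_pow_small (((ih 0).len hWB hG).mul ((ih 1).len hWB hG))
    | sub => exact (ih 0).sub hG (ih 1)
    | wit a b φ t h =>
      -- the arguments as named and numbered variables
      let Gv : ℕ → HF := fun i s f z => if h : i < a then
        (ts (Fin.castAdd b ⟨i, h⟩)).realize (fun i => Hv i s f z) else 0
      let Gx : Fin b → HF := fun j s f z => (ts (Fin.natAdd a j)).realize (fun i => Hv i s f z)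
      have hGv : ∀ i, Tame w (Gv i) := by
        intro i
        by_cases hi : i < a
        · have := ih (Fin.castAdd b ⟨i, hi⟩)
          simpa [Gv, hi] using this
        · have := Tame.of_small (w := w) (Small.const 0)
          simpa [Gv, hi] using this
      have hGx : ∀ j, Tame w (Gx j) := fun j => ih (Fin.natAdd a j)
      have h1 := (tame_term hWB hG t (Sum.elim Gv Gx)
        (by rintro (i | i); exacts [hGv i, hGx i])).len hWB hG
      have h2 := lc_formula hWB hG h (fun i s f z => Gv i s f (z ∘ Nat.succ))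
        (Fin.snoc (α := fun _ => HF) (fun j s f z => Gx j s f (z ∘ Nat.succ)) (fun _ _ z => z 0))
        (fun i => (hGv i).reindex _) (fun j => by
          refine Fin.lastCases ?_ (fun j => ?_) j
          · simpa using Tame.of_small (Small.zvar 0)
          · simpa using (hGx j).reindex Nat.succ)
      have h3 := Tame.of_small (w := w) (Small.leastW h2 h1)
      simp only [snoc_eq, consN_comp] at h3
      have e : (fun (s : ℕ) (f z : ℕ → ℕ) => (Term.func (L := plus) (PlusFunc.wit a b φ t h)
          ts).realize (fun i => Hv i s f z)) = fun s f z => leastW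
          (t.realize fun i => (Sum.elim Gv Gx i : HF) s f z).size
          fun y => φ.Realize (fun i => Gv i s f z) (Fin.snoc (fun j => Gx j s f z) y) := by
        funext s f z
        rw [← elim_eq]
        rfl
      rw [e]
      exact h3

theorem tame_ev (hWB : ∀ s, 1 ≤ s → WB s (w s)) (hG : ∀ n, ∀ᶠ s : ℕ in atTop, Good n s (w s))
    (t : Tr) : Tame w fun s f _ => ev w t f s := by
  have := tame_plus hWB hG t (Sum.elim (fun i s f _ => TT s (w s) (f i) * 2 ^ s)
    (fun c s _ _ => cstV s (w s) c)) (by rintro (i | c); exacts [tame_real i, tame_cst c])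
  convert! this using 4
  rename_i s f z
  unfold ev
  congr 1
  funext i
  rcases i with i | i <;> rfl

end

end Pool.Agent.H23
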