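import Pool.Agent.H23.Poly

/-!
The numbers attached to the nodes of the binary tree, and the basic root counting argument.
-/

namespace Pool.Agent.H23

open Finset Polynomial

noncomputable section

/-- The number attached to the node with code `k`; `w k` is the random label of the node. -/
def TT (s : ℕ) (w : ℕ → ℕ) : ℕ → ℕ
  | 0 => 0
  | (k + 1) => TT s w ((k + 1) / 2) * 2 ^ (s ^ 2) + (2 * w (k + 1) + (k + 1) % 2)
decreasing_by exact Nat.div_lt_self (Nat.succ_pos k) (by norm_num)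

theorem TT_zero (s : ℕ) (w : ℕ → ℕ) : TT s w 0 = 0 := by rw [TT]

theorem TT_pos {s : ℕ} {w : ℕ → ℕ} {k : ℕ} (hk : k ≠ 0) :
    TT s w k = TT s w (k / 2) * 2 ^ (s ^ 2) + (2 * w k + k % 2) := by
  obtain ⟨k, rfl⟩ := Nat.exists_eq_succ_of_ne_zero hk
  rw [TT]

/-- The labels are bounded. -/
def WB (s : ℕ) (w : ℕ → ℕ) : Prop := ∀ k, w k < 2 ^ (s ^ 2 - 1)

theorem block_lt {s : ℕ} (hs : 1 ≤ s) {w : ℕ → ℕ} (hw : WB s w) (k : ℕ) :
    2 * w k + k % 2 < 2 ^ (s ^ 2) := by
  have h1 := hw k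
  have h2 : k % 2 < 2 := Nat.mod_lt _ (by norm_num)
  have h3 : 1 ≤ s ^ 2 := Nat.one_le_pow _ _ hs
  have h4 : 2 ^ (s ^ 2) = 2 * 2 ^ (s ^ 2 - 1) := by
    rw [← pow_succ']; congr 1; omega
  omega

theorem TT_div {s : ℕ} (hs : 1 ≤ s) {w : ℕ → ℕ} (hw : WB s w) (k : ℕ) :
    TT s w k / 2 ^ (s ^ 2) = TT s w (k / 2) := by
  rcases eq_or_ne k 0 with rfl | hk
  · simp [TT_zero]
  · rw [TT_pos hk, mul_comm (TT s w (k / 2)), Nat.mul_add_div (by positivity),
      Nat.div_eq_of_lt (block_lt hs hw k), add_zero]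

theorem TT_div_pow {s : ℕ} (hs : 1 ≤ s) {w : ℕ → ℕ} (hw : WB s w) (k j : ℕ) :
    TT s w k / 2 ^ (s ^ 2 * j) = TT s w (k / 2 ^ j) := by
  induction j with
  | zero => simp
  | succ j ih =>
    rw [Nat.mul_succ, pow_add, ← Nat.div_div_eq_div_mul, ih, TT_div hs hw, Nat.div_div_eq_div_mul,
      pow_succ]

theorem TT_mod_two {s : ℕ} (hs : 1 ≤ s) {w : ℕ → ℕ} (k : ℕ) : TT s w k % 2 = k % 2 := by
  rcases eq_or_ne k 0 with rfl | hk
  · simp [TT_zero]
  · rw [TT_pos hk]
    have h3 : 1 ≤ s ^ 2 := Nat.one_le_pow _ _ hs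
    have h4 : 2 ^ (s ^ 2) = 2 * 2 ^ (s ^ 2 - 1) := by
      rw [← pow_succ']; congr 1; omega
    rw [h4]
    have : TT s w (k / 2) * (2 * 2 ^ (s ^ 2 - 1)) + (2 * w k + k % 2) =
      2 * (TT s w (k / 2) * 2 ^ (s ^ 2 - 1) + w k) + k % 2 := by ring
    rw [this]; omega

theorem TT_lt {s : ℕ} (hs : 1 ≤ s) {w : ℕ → ℕ} (hw : WB s w) {k l : ℕ} (hk : k < 2 ^ l) :
    TT s w k < 2 ^ (s ^ 2 * l) := by
  have h := TT_div_pow hs hw k l
  rw [Nat.div_eq_of_lt hk, TT_zero] at h
  exact (Nat.div_eq_zero_iff_lt (by positivity)).1 h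

theorem TT_ne_zero {s : ℕ} {w : ℕ → ℕ} (k : ℕ) (hk : k ≠ 0) :
    TT s w k ≠ 0 := by
  induction k using Nat.strong_induction_on with
  | _ k ih =>
    rw [TT_pos hk]
    rcases Nat.eq_zero_or_pos (k / 2) with h | h
    · have : k = 1 := by omega
      subst this
      omega
    · have := ih (k / 2) (Nat.div_lt_self (Nat.pos_of_ne_zero hk) (by norm_num)) (by omega)
      have h2 : 0 < TT s w (k / 2) * 2 ^ (s ^ 2) := by positivity
      omega

theorem TT_inj {s : ℕ} (hs : 1 ≤ s) {w : ℕ → ℕ} (hw : WB s w) {k k' : ℕ}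
    (h : TT s w k = TT s w k') : k = k' := by
  induction k using Nat.strong_induction_on generalizing k' with
  | _ k ih =>
    rcases eq_or_ne k 0 with rfl | hk
    · by_contra hne
      exact TT_ne_zero k' (Ne.symm hne) (by rw [← h, TT_zero])
    · have h1 := congrArg (· / 2 ^ (s ^ 2)) h
      simp only [TT_div hs hw] at h1
      have h2 := ih (k / 2) (Nat.div_lt_self (Nat.pos_of_ne_zero hk) (by norm_num)) h1
      have h3 := congrArg (· % 2) h
      simp only [TT_mod_two hs] at h3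
      omega

theorem TT_congr {s : ℕ} {w w' : ℕ → ℕ} {k : ℕ} (h : ∀ j, w (k / 2 ^ j) = w' (k / 2 ^ j)) :
    TT s w k = TT s w' k := by
  induction k using Nat.strong_induction_on with
  | _ k ih =>
    rcases eq_or_ne k 0 with rfl | hk
    · rw [TT_zero, TT_zero]
    · rw [TT_pos hk, TT_pos hk]
      have h0 := h 0
      simp only [pow_zero, Nat.div_one] at h0
      rw [h0, ih (k / 2) (Nat.div_lt_self (Nat.pos_of_ne_zero hk) (by norm_num)) fun j => by
        have := h (j + 1)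
        rwa [pow_succ', ← Nat.div_div_eq_div_mul] at this]

/-- Leaf codes. -/
def Leaf (s c : ℕ) : Prop := 2 ^ (s - 1) ≤ c ∧ c < 2 ^ s

/-- The environment given by a sequence of leaf codes. -/
def env (s : ℕ) (w f : ℕ → ℕ) : ℕ → ℤ := fun v =>
  if v % 2 = 0 then ((TT s w (f (v / 2)) * 2 ^ s : ℕ) : ℤ) else (TT s w (v / 2) : ℤ)

theorem exists_root {g : ℤ[X]} {a b : ℤ}
    (h : SignType.sign (g.eval a) ≠ SignType.sign (g.eval b)) :
    ∃ ρ : ℝ, ρ ∈ (g.map (Int.castRingHom ℝ)).roots ∧ min (a : ℝ) b ≤ ρ ∧ ρ ≤ max (a : ℝ) b := by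
  set G := g.map (Int.castRingHom ℝ) with hG
  have hev : ∀ x : ℤ, G.eval (x : ℝ) = ((g.eval x : ℤ) : ℝ) := by
    intro x
    rw [hG, eval_map, eval₂_at_intCast]
    simp
  have hg0 : g ≠ 0 := by
    rintro rfl
    simp at h
  have hG0 : G ≠ 0 := by
    rw [hG, Ne, Polynomial.map_eq_zero_iff (RingHom.injective_int _)]
    exact hg0
  have hmem : (0 : ℝ) ∈ Set.uIcc (G.eval (a : ℝ)) (G.eval (b : ℝ)) := by
    rw [hev, hev, Set.mem_uIcc]
    rcases lt_trichotomy (g.eval a) 0 with h1 | h1 | h1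
    · left
      refine ⟨by exact_mod_cast h1.le, ?_⟩
      by_contra h2
      apply h
      have h3 : g.eval b < 0 := by
        by_contra h4
        exact h2 (by exact_mod_cast (not_lt.1 h4))
      rw [sign_neg h1, sign_neg h3]
    · rw [h1]
      rcases le_total 0 (g.eval b) with h2 | h2
      · left; exact ⟨by simp, by exact_mod_cast h2⟩
      · right; exact ⟨by exact_mod_cast h2, by simp⟩
    · right
      refine ⟨?_, by exact_mod_cast h1.le⟩
      by_contra h2
      apply h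
      have h3 : 0 < g.eval b := by
        by_contra h4
        exact h2 (by exact_mod_cast (not_lt.1 h4))
      rw [sign_pos h1, sign_pos h3]
  obtain ⟨ρ, hρ, hρ2⟩ := intermediate_value_uIcc (f := fun x => G.eval x)
    (Polynomial.continuous _).continuousOn hmem
  refine ⟨ρ, (mem_roots hG0).2 hρ2, ?_⟩
  rw [Set.mem_uIcc] at hρ
  rcases hρ with ⟨h1, h2⟩ | ⟨h1, h2⟩
  · exact ⟨(min_le_left _ _).trans h1, h2.trans (le_max_right _ _)⟩
  · exact ⟨(min_le_right _ _).trans h1, h2.trans (le_max_left _ _)⟩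

/-- Few labels of the node `τ` separate two leaves below `τ` by a root of `g`. -/
theorem card_bad_le {s : ℕ} (hs : 1 ≤ s) {w : ℕ → ℕ} (hw : WB s w) {τ e c c' : ℕ} (hτ : τ ≠ 0)
    (hc : c / 2 ^ e = τ) (hc' : c' / 2 ^ e = τ) (g : ℤ[X]) (B : Finset ℕ)
    (hB : ∀ x ∈ B, x < 2 ^ (s ^ 2 - 1) ∧
      SignType.sign (g.eval ((TT s (Function.update w τ x) c * 2 ^ s : ℕ) : ℤ)) ≠
      SignType.sign (g.eval ((TT s (Function.update w τ x) c' * 2 ^ s : ℕ) : ℤ))) :
    B.card ≤ g.natDegree := by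
  classical
  have h1 : ∀ x ∈ B, ∃ ρ : ℝ, ρ ∈ (g.map (Int.castRingHom ℝ)).roots ∧
      (TT s (Function.update w τ x) τ : ℝ) * 2 ^ (s ^ 2 * e + s) ≤ ρ ∧
      ρ < (TT s (Function.update w τ x) τ + 1 : ℝ) * 2 ^ (s ^ 2 * e + s) := by
    intro x hx
    obtain ⟨hx1, hx2⟩ := hB x hx
    obtain ⟨ρ, hρ, h3, h4⟩ := exists_root hx2
    have hwx : WB s (Function.update w τ x) := by
      intro k
      by_cases hk : k = τ
      · subst hk; simpa using hx1
      · simpa [Function.update_of_ne hk] using hw k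
    have key : ∀ d, d / 2 ^ e = τ →
        (TT s (Function.update w τ x) τ : ℝ) * 2 ^ (s ^ 2 * e + s) ≤
          ((TT s (Function.update w τ x) d * 2 ^ s : ℕ) : ℤ) ∧
        (((TT s (Function.update w τ x) d * 2 ^ s : ℕ) : ℤ) : ℝ) <
          (TT s (Function.update w τ x) τ + 1 : ℝ) * 2 ^ (s ^ 2 * e + s) := by
      intro d hd
      have h5 := TT_div_pow hs hwx d e
      rw [hd] at h5
      have h6 : TT s (Function.update w τ x) τ * 2 ^ (s ^ 2 * e) ≤
          TT s (Function.update w τ x) d := by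
        rw [← h5]; exact Nat.div_mul_le_self _ _
      have h7 : TT s (Function.update w τ x) d <
          (TT s (Function.update w τ x) τ + 1) * 2 ^ (s ^ 2 * e) := by
        rw [← h5]; exact (Nat.div_lt_iff_lt_mul (by positivity)).1 (Nat.lt_succ_self _)
      have h8 : TT s (Function.update w τ x) τ * 2 ^ (s ^ 2 * e + s) ≤
          TT s (Function.update w τ x) d * 2 ^ s := by
        rw [pow_add, ← mul_assoc]; exact Nat.mul_le_mul_right _ h6
      have h9 : TT s (Function.update w τ x) d * 2 ^ s <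
          (TT s (Function.update w τ x) τ + 1) * 2 ^ (s ^ 2 * e + s) := by
        rw [pow_add, ← mul_assoc]; exact Nat.mul_lt_mul_of_pos_right h7 (by positivity)
      constructor
      · exact_mod_cast h8
      · exact_mod_cast h9
    obtain ⟨k1, k2⟩ := key c hc
    obtain ⟨k3, k4⟩ := key c' hc'
    exact ⟨ρ, hρ, (le_min k1 k3).trans h3, h4.trans_lt (max_lt k2 k4)⟩
  choose! ρ hρ using h1
  have hinj : Set.InjOn ρ (B : Set ℕ) := by
    intro x hx y hy hxy
    obtain ⟨-, a1, a2⟩ := hρ x hx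
    obtain ⟨-, b1, b2⟩ := hρ y hy
    rw [hxy] at a1 a2
    have hp : (0 : ℝ) < 2 ^ (s ^ 2 * e + s) := by positivity
    have c1 : (TT s (Function.update w τ x) τ : ℝ) < TT s (Function.update w τ y) τ + 1 :=
      lt_of_mul_lt_mul_right (a1.trans_lt b2) hp.le
    have c2 : (TT s (Function.update w τ y) τ : ℝ) < TT s (Function.update w τ x) τ + 1 :=
      lt_of_mul_lt_mul_right (b1.trans_lt a2) hp.le
    have c3 : TT s (Function.update w τ x) τ < TT s (Function.update w τ y) τ + 1 := by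
      exact_mod_cast c1
    have c4 : TT s (Function.update w τ y) τ < TT s (Function.update w τ x) τ + 1 := by
      exact_mod_cast c2
    have c5 : TT s (Function.update w τ x) τ = TT s (Function.update w τ y) τ := by omega
    have c6 : ∀ z, TT s (Function.update w τ z) (τ / 2) = TT s w (τ / 2) := by
      intro z
      apply TT_congr
      intro j
      rw [Function.update_of_ne]
      intro h
      have h2 : τ / 2 / 2 ^ j ≤ τ / 2 := Nat.div_le_self _ _
      have h3 : τ / 2 < τ := Nat.div_lt_self (Nat.pos_of_ne_zero hτ) (by norm_num)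
      omega
    rw [TT_pos hτ, TT_pos hτ, c6, c6, Function.update_self, Function.update_self] at c5
    omega
  calc B.card = (B.image ρ).card := (card_image_of_injOn hinj).symm
    _ ≤ (g.map (Int.castRingHom ℝ)).roots.toFinset.card := by
        apply card_le_card
        intro r hr
        obtain ⟨x, hx, rfl⟩ := mem_image.1 hr
        exact Multiset.mem_toFinset.2 (hρ x hx).1
    _ ≤ Multiset.card (g.map (Int.castRingHom ℝ)).roots := Multiset.toFinset_card_le _
    _ ≤ (g.map (Int.castRingHom ℝ)).natDegree := card_roots' _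
    _ ≤ g.natDegree := natDegree_map_le

end

end Pool.Agent.H23
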