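import Pool.Agent.H23.Model
import Pool.Agent.H23.Hier2

/-!
Upper bound: sets of reals defined in the hull by `Σ^b_i` formulas are in `Sg (i+1)`.
-/

namespace Pool.Agent.H23

open Filter FirstOrder FirstOrder.Language Set

noncomputable section

variable {w : ℕ → ℕ → ℕ}

/-! ### Cells in the space of sequences of reals -/

/-- `A` and `A'` lie in the same cell. -/
def CCell (n m : ℕ) (A A' : ℕ → Cantor) : Prop :=
  (∀ i < n, codeR (A i) m = codeR (A' i) m) ∧
  (∀ i < n, ∀ j < n, codeR (A i) m = codeR (A j) m → A i = A j) ∧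
  (∀ i < n, ∀ j < n, codeR (A' i) m = codeR (A' j) m → A' i = A' j)

theorem CCell.cell {n m : ℕ} {A A' : ℕ → Cantor} (h : CCell n m A A') {s : ℕ} (hm : m < s) :
    Cell n m s (cd A s) (cd A' s) := by
  have hs : 1 ≤ s := by omega
  have e : ∀ (A : ℕ → Cantor) i, cd A s i / 2 ^ (s - 1 - m) = codeR (A i) m := fun A i =>
    codeR_div_sub (A i) (by omega)
  refine ⟨leaf_cd A hs, leaf_cd A' hs, fun i hi => ?_, fun i hi j hj h' => ?_,
    fun i hi j hj h' => ?_⟩
  · rw [e, e]; exact h.1 i hi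
  · rw [e, e] at h'
    unfold cd; rw [h.2.1 i hi j hj h']
  · rw [e, e] at h'
    unfold cd; rw [h.2.2 i hi j hj h']

theorem eventually_ccell (n : ℕ) (A : ℕ → Cantor) :
    ∀ᶠ m in atTop, n ≤ 2 ^ m ∧ CCell n m A A := by
  have h1 : ∀ᶠ m : ℕ in atTop, n ≤ 2 ^ m := by
    filter_upwards [eventually_ge_atTop n] with m hm
    exact hm.trans Nat.lt_two_pow_self.le
  have h2 : ∀ i j, ∀ᶠ m in atTop, codeR (A i) m = codeR (A j) m → A i = A j := by
    intro i j
    by_cases h : A i = A j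
    · exact Eventually.of_forall fun _ _ => h
    · obtain ⟨k, hk⟩ := Function.ne_iff.1 h
      filter_upwards [eventually_gt_atTop k] with m hm h'
      exact absurd (agree_of_codeR_eq h' k hm) hk
  have h3 : ∀ᶠ m in atTop, ∀ i ∈ Finset.range n, ∀ j ∈ Finset.range n,
      codeR (A i) m = codeR (A j) m → A i = A j := by
    rw [Filter.eventually_all_finset]
    intro i _
    rw [Filter.eventually_all_finset]
    intro j _
    exact h2 i j
  filter_upwards [h1, h3] with m hm1 hm2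
  have h4 : ∀ i < n, ∀ j < n, codeR (A i) m = codeR (A j) m → A i = A j := fun i hi j hj =>
    hm2 i (Finset.mem_range.2 hi) j (Finset.mem_range.2 hj)
  exact ⟨hm1, fun _ _ => rfl, h4, h4⟩

/-- Invariance under cells. -/
def CellInv (n : ℕ) (S : Set (ℕ → Cantor)) : Prop :=
  ∀ m, n ≤ 2 ^ m → ∀ A A', CCell n m A A' → (A ∈ S ↔ A' ∈ S)

theorem CellInv.compl {n : ℕ} {S : Set (ℕ → Cantor)} (h : CellInv n S) : CellInv n Sᶜ :=
  fun m hm A A' hA => not_congr (h m hm A A' hA)

theorem continuous_codeR (m : ℕ) : Continuous fun α : Cantor => codeR α m := by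
  induction m with
  | zero => exact continuous_const
  | succ m ih =>
    have : (fun α : Cantor => codeR α (m + 1)) =
        (fun q : ℕ × Bool => 2 * q.1 + q.2.toNat) ∘ fun α => (codeR α m, α m) := by
      funext α; rfl
    rw [this]
    exact continuous_of_discreteTopology.comp (ih.prodMk (continuous_apply m))

theorem CellInv.isFs {n : ℕ} {S : Set (ℕ → Cantor)} (h : CellInv n S)
    {g : Cantor → ℕ → Cantor} (hg : Continuous g) : IsFs (g ⁻¹' S) := by
  classical
  let K : ℕ × (Fin n → ℕ) → Set (ℕ → Cantor) := fun q =>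
    {A | n ≤ 2 ^ q.1 ∧ (∀ i : Fin n, codeR (A i) q.1 = q.2 i) ∧
      ∀ i j : Fin n, q.2 i = q.2 j → A i = A j}
  have hK : ∀ q, IsClosed (K q) := by
    intro q
    have : K q = {_A | n ≤ 2 ^ q.1} ∩ ((⋂ i : Fin n, {A | codeR (A i) q.1 = q.2 i}) ∩
        ⋂ i : Fin n, ⋂ j : Fin n, {A | q.2 i = q.2 j → A i = A j}) := by
      ext A; simp [K]
    rw [this]
    refine IsClosed.inter isClosed_const (IsClosed.inter (isClosed_iInter fun i => ?_)
      (isClosed_iInter fun i => isClosed_iInter fun j => ?_))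
    · exact isClosed_singleton.preimage ((continuous_codeR q.1).comp (continuous_apply (i : ℕ)))
    · by_cases hq : q.2 i = q.2 j
      · simp only [hq, forall_true_left]
        exact isClosed_eq (continuous_apply (i : ℕ)) (continuous_apply (j : ℕ))
      · simp [hq]
  have hKc : ∀ q A A', A ∈ K q → A' ∈ K q → CCell n q.1 A A' := by
    rintro q A A' ⟨-, h1, h2⟩ ⟨-, h3, h4⟩
    refine ⟨fun i hi => ?_, fun i hi j hj he => ?_, fun i hi j hj he => ?_⟩
    · rw [h1 ⟨i, hi⟩, h3 ⟨i, hi⟩]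
    · exact h2 ⟨i, hi⟩ ⟨j, hj⟩ (by rw [← h1 ⟨i, hi⟩, ← h1 ⟨j, hj⟩]; exact he)
    · exact h4 ⟨i, hi⟩ ⟨j, hj⟩ (by rw [← h3 ⟨i, hi⟩, ← h3 ⟨j, hj⟩]; exact he)
  have hU : Sg 0 (⋃ q, g ⁻¹' (if (K q ∩ S).Nonempty then K q else ∅)) := by
    refine Sg.iUnion (n := 0) _ fun q => sg_of_isClosed (IsClosed.preimage hg ?_)
    split_ifs
    · exact hK q
    · exact isClosed_empty
  have hS : g ⁻¹' S = ⋃ q, g ⁻¹' (if (K q ∩ S).Nonempty then K q else ∅) := by
    rw [← preimage_iUnion]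
    congr 1
    ext A
    rw [mem_iUnion]
    constructor
    · intro hA
      obtain ⟨m, hm, hc⟩ := (eventually_ccell n A).exists
      have hAK : A ∈ K (m, fun i => codeR (A i) m) :=
        ⟨hm, fun i => rfl, fun i j hij => hc.2.1 i i.2 j j.2 hij⟩
      refine ⟨(m, fun i => codeR (A i) m), ?_⟩
      rw [if_pos ⟨A, hAK, hA⟩]
      exact hAK
    · rintro ⟨q, hq⟩
      by_cases hne : (K q ∩ S).Nonempty
      · rw [if_pos hne] at hq
        obtain ⟨A', hA'K, hA'S⟩ := hne
        exact (h q.1 hq.1 A A' (hKc q A A' hq hA'K)).2 hA'S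
      · rw [if_neg hne] at hq
        exact absurd hq (notMem_empty _)
  rw [hS]
  exact hU

/-- Elements of the hull. -/
def ME (w : ℕ → ℕ → ℕ) (t : Tr) (A : ℕ → Cantor) : MM w := ⟨El w t A, El_mem w t A⟩

theorem exists_ME (x : MM w) : ∃ t A, x = ME w t A := by
  obtain ⟨t, A, h⟩ := mem_MM.1 x.2
  exact ⟨t, A, Subtype.ext h⟩

theorem ME_relabel (t : Tr) (g : ℕ → ℕ) (A : ℕ → Cantor) :
    ME w (t.relabel (Sum.map g id)) A = ME w t (A ∘ g) := by
  apply Subtype.ext
  change cls _ = cls _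
  congr 1
  funext s
  rw [ev_relabel]
  rfl

/-- The set of sequences of reals defined by a formula and terms. -/
def SF (w : ℕ → ℕ → ℕ) {k : ℕ} (φ : buss.BoundedFormula ℕ k) (T : ℕ → Tr) (X : Fin k → Tr) :
    Set (ℕ → Cantor) :=
  {A | φ.Realize (fun i => ME w (T i) A) (fun j => ME w (X j) A)}

theorem mem_SF_sharp {k : ℕ} {φ : buss.BoundedFormula ℕ k} (hφ : IsSharp φ) (T : ℕ → Tr)
    (X : Fin k → Tr) (A : ℕ → Cantor) : A ∈ SF w φ T X ↔
      ∀ᶠ s in ((hyperfilter ℕ : Ultrafilter ℕ) : Filter ℕ),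
        φ.Realize (fun i => ev w (T i) (cd A s) s) (fun j => ev w (X j) (cd A s) s) := by
  unfold SF
  rw [mem_ofPred_eq, elem_aux w hφ]
  exact realize_cls φ _ _

theorem cellInv_SF (hWB : ∀ s, 1 ≤ s → WB s (w s))
    (hG : ∀ n, ∀ᶠ s : ℕ in atTop, Good n s (w s)) {k : ℕ} {φ : buss.BoundedFormula ℕ k}
    (hφ : IsSharp φ) (T : ℕ → Tr) (X : Fin k → Tr) : ∃ n, CellInv n (SF w φ T X) := by
  obtain ⟨n, hn⟩ := lc_formula hWB hG hφ (fun i s f _ => ev w (T i) f s)
    (fun j s f _ => ev w (X j) f s) (fun i => tame_ev hWB hG _) (fun j => tame_ev hWB hG _) 0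
  refine ⟨n, fun m hm A A' hA => ?_⟩
  rw [mem_SF_sharp hφ, mem_SF_sharp hφ]
  apply eventually_congr
  apply hyper_of_atTop
  filter_upwards [hn, eventually_gt_atTop m] with s hs hms
  exact hs m hm hms (fun _ => 0) (fun _ => Nat.zero_le _) _ _ (hA.cell hms)

/-! ### The hierarchy on sequences of reals -/

def SgC (n : ℕ) (S : Set (ℕ → Cantor)) : Prop :=
  ∀ g : Cantor → ℕ → Cantor, Continuous g → Sg n (g ⁻¹' S)

theorem SgC.succ {n : ℕ} {S : Set (ℕ → Cantor)} (h : SgC n S) : SgC (n + 1) S :=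
  fun g hg => (h g hg).succ

theorem SgC.of_zero {S : Set (ℕ → Cantor)} (h : SgC 0 S) (n : ℕ) : SgC n S := by
  induction n with
  | zero => exact h
  | succ n ih => exact ih.succ

theorem SgC.compl {n : ℕ} {S : Set (ℕ → Cantor)} (h : SgC n S) : SgC (n + 1) Sᶜ :=
  fun g hg => (h g hg).compl

theorem SgC.union {n : ℕ} {S T : Set (ℕ → Cantor)} (h : SgC n S) (h' : SgC n T) :
    SgC n (S ∪ T) := fun g hg => (h g hg).union (h' g hg)

theorem SgC.inter {n : ℕ} {S T : Set (ℕ → Cantor)} (h : SgC n S) (h' : SgC n T) :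
    SgC n (S ∩ T) := fun g hg => (h g hg).inter (h' g hg)

theorem SgC.iUnion {n : ℕ} {ι : Type} [Countable ι] (S : ι → Set (ℕ → Cantor))
    (h : ∀ i, SgC n (S i)) : SgC n (⋃ i, S i) := fun g hg => by
  rw [preimage_iUnion]
  exact Sg.iUnion _ fun i => h i g hg

theorem SgC.iInter {n : ℕ} {ι : Type} [Countable ι] (S : ι → Set (ℕ → Cantor))
    (h : ∀ i, SgC (n + 1) (S i)) : SgC (n + 1) (⋂ i, S i) := fun g hg => by
  rw [preimage_iInter]
  exact Sg.iInter _ fun i => h i g hg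

theorem SgC.comap {n : ℕ} {S : Set (ℕ → Cantor)} (h : SgC n S)
    {F : (ℕ → Cantor) → ℕ → Cantor} (hF : Continuous F) : SgC n (F ⁻¹' S) := fun g hg =>
  h (F ∘ g) (hF.comp hg)

/-- Interleaving. -/
def ilv (A B : ℕ → Cantor) : ℕ → Cantor := fun i => if i % 2 = 0 then A (i / 2) else B (i / 2)

theorem ilv_even (A B : ℕ → Cantor) : ilv A B ∘ (fun i => 2 * i) = A := by
  funext i
  have h1 : 2 * i % 2 = 0 := by omega
  have h2 : 2 * i / 2 = i := by omega
  simp [ilv]

theorem ilv_odd (A B : ℕ → Cantor) : ilv A B ∘ (fun i => 2 * i + 1) = B := by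
  funext i
  have h1 : (2 * i + 1) % 2 = 1 := by omega
  have h2 : (2 * i + 1) / 2 = i := by omega
  simp [ilv, h1, h2]

theorem continuous_ilv {Y : Type} [TopologicalSpace Y] {f g : Y → ℕ → Cantor}
    (hf : Continuous f) (hg : Continuous g) : Continuous fun y => ilv (f y) (g y) := by
  refine continuous_pi fun i => ?_
  unfold ilv
  by_cases h : i % 2 = 0
  · simp only [h, if_true]; exact (continuous_apply _).comp hf
  · simp only [h, if_false]; exact (continuous_apply _).comp hg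

/-- Decoding a sequence of reals from one real. -/
def unp (z : Cantor) : ℕ → Cantor := fun i => colC i z

theorem continuous_unp : Continuous unp := continuous_pi fun i => continuous_colC i

theorem unp_surj (B : ℕ → Cantor) : ∃ z, unp z = B := by
  refine ⟨fun n => B n.unpair.1 n.unpair.2, ?_⟩
  funext i n
  simp [unp, colC]

theorem SgC.proj {n : ℕ} {R : Set (ℕ → Cantor)} (h : SgC (n + 1) R) :
    SgC (n + 1) {A | ∃ B, ilv A B ∈ R} := by
  intro g hg
  have h1 := (h (fun z => ilv (g (fstC z)) (unp (sndC z)))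
    (continuous_ilv (hg.comp continuous_fstC) (continuous_unp.comp continuous_sndC))).proj
  convert! h1 using 1
  ext x
  simp only [mem_preimage, mem_ofPred_eq, fstC_pr2, sndC_pr2]
  constructor
  · rintro ⟨B, hB⟩
    obtain ⟨z, rfl⟩ := unp_surj B
    exact ⟨z, hB⟩
  · rintro ⟨z, hz⟩
    exact ⟨_, hz⟩

theorem sgC_sharp (hWB : ∀ s, 1 ≤ s → WB s (w s))
    (hG : ∀ n, ∀ᶠ s : ℕ in atTop, Good n s (w s)) {k : ℕ} {φ : buss.BoundedFormula ℕ k}
    (hφ : IsSharp φ) (T : ℕ → Tr) (X : Fin k → Tr) (n : ℕ) : SgC n (SF w φ T X) := by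
  obtain ⟨m, hm⟩ := cellInv_SF hWB hG hφ T X
  exact SgC.of_zero (fun g hg => hm.isFs hg) n

theorem sgC_sharp_compl (hWB : ∀ s, 1 ≤ s → WB s (w s))
    (hG : ∀ n, ∀ᶠ s : ℕ in atTop, Good n s (w s)) {k : ℕ} {φ : buss.BoundedFormula ℕ k}
    (hφ : IsSharp φ) (T : ℕ → Tr) (X : Fin k → Tr) (n : ℕ) : SgC n (SF w φ T X)ᶜ := by
  obtain ⟨m, hm⟩ := cellInv_SF hWB hG hφ T X
  exact SgC.of_zero (fun g hg => hm.compl.isFs hg) n

/-! ### Small elements -/

/-- The sequence of reals coded by a finite list of finite strings. -/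
def dec (l : List (List Bool)) : ℕ → Cantor := fun i k => (l.getD i []).getD k false

theorem small_rep (hWB : ∀ s, 1 ≤ s → WB s (w s))
    (hG : ∀ n, ∀ᶠ s : ℕ in atTop, Good n s (w s)) (x y : MM w) (h : mLe x (mLen y)) :
    ∃ (u : Tr) (l : List (List Bool)), x = ME w u (dec l) := by
  obtain ⟨T, A, hT⟩ := rep w fun i => if i = 0 then x else y
  have hx : (x : Ult) = El w (T 0) A := by simpa using hT 0
  have hy : (y : Ult) = El w (T 1) A := by simpa using hT 1
  have t0 := tame_ev hWB hG (T 0)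
  have t1 := tame_ev hWB hG (T 1)
  obtain ⟨c, hc⟩ := t1.growth hWB 0
  have hR : LC fun s f z => ev w (T 0) f s = z 0 := t0.eq hG (Tame.of_small (Small.zvar 0))
  obtain ⟨n, hn⟩ := hR c
  obtain ⟨m, hm, hcc⟩ := (eventually_ccell n A).exists
  let l : List (List Bool) := (List.range n).map fun i => (List.range m).map (A i)
  have hl : ∀ i < n, ∀ k, dec l i k = if k < m then A i k else false := by
    intro i hi k
    have e1 : l.getD i [] = (List.range m).map (A i) := by
      simp [l, List.getD, hi]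
    unfold dec
    rw [e1]
    by_cases hk : k < m
    · simp [List.getD, hk]
    · simp [List.getD, hk]
  refine ⟨T 0, l, Subtype.ext ?_⟩
  rw [hx]
  change cls _ = cls _
  rw [cls_eq]
  have hcell : CCell n m A (dec l) := by
    refine ⟨fun i hi => codeR_eq_of_agree fun k hk => ?_, hcc.2.1, fun i hi j hj he => ?_⟩
    · rw [hl i hi, if_pos hk]
    · funext k
      rw [hl i hi, hl j hj]
      by_cases hk : k < m
      · have := agree_of_codeR_eq he k hk
        rw [hl i hi, hl j hj, if_pos hk, if_pos hk] at this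
        rw [if_pos hk, if_pos hk, this]
      · rw [if_neg hk, if_neg hk]
  have hle : ∀ᶠ s in ((hyperfilter ℕ : Ultrafilter ℕ) : Filter ℕ),
      ev w (T 0) (cd A s) s ≤ (ev w (T 1) (cd A s) s).size := by
    rw [mLe_coe, hx, coe_mLen y _ hy] at h
    exact (mLe_cls _ _).1 h
  have hgrow := hyper_of_atTop (hc.and (hn.and (eventually_gt_atTop m)))
  filter_upwards [hle, hgrow] with s hs1 hs2
  obtain ⟨hs2, hs3, hs4⟩ := hs2
  have h1 := hs2 (fun _ => 0) (fun _ => Nat.zero_le _) (cd A s) (leaf_cd A (by omega))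
  have h2 : ev w (T 0) (cd A s) s ≤ s ^ c := hs1.trans (Nat.size_le.2 h1)
  have h3 := hs3 m hm hs4 (fun _ => ev w (T 0) (cd A s) s) (fun _ => h2) (cd A s) (cd (dec l) s)
    (hcell.cell hs4)
  exact (h3.1 rfl).symm

/-! ### Countability of the set of terms -/

instance : Countable (Σ n, BussFunc n) := by
  have : Function.Surjective (fun i : Fin 7 => (match i with
      | 0 => ⟨0, .zero⟩ | 1 => ⟨1, .succ⟩ | 2 => ⟨1, .half⟩ | 3 => ⟨1, .len⟩
      | 4 => ⟨2, .add⟩ | 5 => ⟨2, .mul⟩ | 6 => ⟨2, .smash⟩ : Σ n, BussFunc n)) := by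
    rintro ⟨_, _ | _ | _ | _ | _ | _ | _⟩
    exacts [⟨0, rfl⟩, ⟨1, rfl⟩, ⟨2, rfl⟩, ⟨3, rfl⟩, ⟨4, rfl⟩, ⟨5, rfl⟩, ⟨6, rfl⟩]
  exact this.countable

instance : Countable (Σ n, BussRel n) := by
  have : Function.Surjective (fun _ : Unit => (⟨2, .le⟩ : Σ n, BussRel n)) := by
    rintro ⟨_, h⟩
    cases h
    exact ⟨(), rfl⟩
  exact this.countable

instance : Countable (Σ n, buss.Functions n) := inferInstanceAs (Countable (Σ n, BussFunc n))
instance : Countable (Σ n, buss.Relations n) := inferInstanceAs (Countable (Σ n, BussRel n))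
instance : Countable buss.Symbols :=
  inferInstanceAs (Countable ((Σ n, buss.Functions n) ⊕ (Σ n, buss.Relations n)))

instance countable_bf (b : ℕ) : Countable (buss.BoundedFormula ℕ b) :=
  (sigma_mk_injective (β := fun n => buss.BoundedFormula ℕ n) (i := b)).countable

instance : Countable (Σ n, PlusFunc n) := by
  let Src := (Σ n, BussFunc n) ⊕ Unit ⊕ (Σ _a : ℕ, Σ b : ℕ, {p : buss.BoundedFormula ℕ (b + 1) ×
    buss.Term (ℕ ⊕ Fin b) // IsSharp p.1})
  have hS : Countable Src := inferInstance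
  have : Function.Surjective (fun q : Src => (match q with
      | Sum.inl ⟨n, f⟩ => ⟨n, .base f⟩
      | Sum.inr (Sum.inl _) => ⟨2, .sub⟩
      | Sum.inr (Sum.inr ⟨a, b, ⟨(φ, t), h⟩⟩) => ⟨a + b, .wit a b φ t h⟩ : Σ n, PlusFunc n)) := by
    rintro ⟨_, f | _ | ⟨a, b, φ, t, h⟩⟩
    · exact ⟨Sum.inl ⟨_, f⟩, rfl⟩
    · exact ⟨Sum.inr (Sum.inl ()), rfl⟩
    · exact ⟨Sum.inr (Sum.inr ⟨a, b, ⟨(φ, t), h⟩⟩), rfl⟩
  exact this.countable

instance : Countable (Σ n, plus.Functions n) := inferInstanceAs (Countable (Σ n, PlusFunc n))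

instance : Countable Cst := by
  have : Function.Surjective (fun i : ℕ => (match i with
      | 0 => .P | 1 => .b | 2 => .iota | (k + 3) => .node k : Cst)) := by
    rintro (_ | _ | _ | k)
    exacts [⟨0, rfl⟩, ⟨1, rfl⟩, ⟨2, rfl⟩, ⟨k + 3, rfl⟩]
  exact this.countable

instance : Countable Tr := inferInstanceAs (Countable (plus.Term (ℕ ⊕ Cst)))

end

end Pool.Agent.H23
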