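import Pool.Agent.H23.Upper

/-!
The upper bound for the complexity of sets of reals defined by `Σ^b_i` formulas in the hull.
-/

namespace Pool.Agent.H23

open Filter FirstOrder FirstOrder.Language Set

noncomputable section

variable {w : ℕ → ℕ → ℕ}

/-- The formula `x_k ≤ t`. -/
def lastLe {k : ℕ} (t : buss.Term (ℕ ⊕ Fin k)) : buss.BoundedFormula ℕ (k + 1) :=
  fLe (Term.var (Sum.inr (Fin.last k))) (liftT t)

theorem isSharp_lastLe {k : ℕ} (t : buss.Term (ℕ ⊕ Fin k)) : IsSharp (lastLe t) :=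
  IsSharp.rel _ _

/-- even real variables. -/
def evT (t : Tr) : Tr := t.relabel (Sum.map (fun i => 2 * i) id)
/-- odd real variables. -/
def odT (t : Tr) : Tr := t.relabel (Sum.map (fun i => 2 * i + 1) id)

theorem ME_evT (t : Tr) (A B : ℕ → Cantor) : ME w (evT t) (ilv A B) = ME w t A := by
  unfold evT; rw [ME_relabel, ilv_even]

theorem ME_odT (t : Tr) (A B : ℕ → Cantor) : ME w (odT t) (ilv A B) = ME w t B := by
  unfold odT; rw [ME_relabel, ilv_odd]

/-- The terms for the extended sequence of variables. -/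
def exX {k : ℕ} (X : Fin k → Tr) (u : Tr) : Fin (k + 1) → Tr :=
  Fin.snoc (α := fun _ => Tr) (fun j => evT (X j)) (odT u)

theorem ilv_mem_SF {k : ℕ} (φ : buss.BoundedFormula ℕ (k + 1)) (T : ℕ → Tr) (X : Fin k → Tr)
    (u : Tr) (A B : ℕ → Cantor) :
    ilv A B ∈ SF w φ (fun i => evT (T i)) (exX X u) ↔
      φ.Realize (fun i => ME w (T i) A)
        (Fin.snoc (α := fun _ => MM w) (fun j => ME w (X j) A) (ME w u B)) := by
  unfold SF
  rw [mem_ofPred_eq]
  have e1 : (fun i => ME w (evT (T i)) (ilv A B)) = fun i => ME w (T i) A :=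
    funext fun i => ME_evT _ _ _
  have e2 : (fun j => ME w (exX X u j) (ilv A B)) =
      Fin.snoc (α := fun _ => MM w) (fun j => ME w (X j) A) (ME w u B) := by
    funext j
    refine Fin.lastCases ?_ (fun j => ?_) j
    · simp [exX, ME_odT]
    · simp [exX, ME_evT]
  rw [e1, e2]

theorem realize_lastLe {M : Type} [buss.Structure M] {k : ℕ} (t : buss.Term (ℕ ⊕ Fin k))
    (v : ℕ → M) (xs : Fin k → M) (a : M) :
    (lastLe t).Realize v (Fin.snoc xs a) ↔ mLe a (t.realize (Sum.elim v xs)) := by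
  simp [lastLe]

theorem SF_compl_ball {k : ℕ} (t : buss.Term (ℕ ⊕ Fin k)) (φ : buss.BoundedFormula ℕ (k + 1))
    (T : ℕ → Tr) (X : Fin k → Tr) :
    (SF w (ballLe t φ) T X)ᶜ = ⋃ u : Tr, {A | ∃ B, ilv A B ∈
      SF w (lastLe t) (fun i => evT (T i)) (exX X u) ∩
      (SF w φ (fun i => evT (T i)) (exX X u))ᶜ} := by
  ext A
  simp only [mem_compl_iff, mem_iUnion, mem_ofPred_eq, mem_inter_iff, ilv_mem_SF, realize_lastLe]
  unfold SF
  rw [mem_ofPred_eq, realize_ballLe]
  push Not
  constructor
  · rintro ⟨a, ha1, ha2⟩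
    obtain ⟨u, B, rfl⟩ := exists_ME a
    exact ⟨u, B, ha1, ha2⟩
  · rintro ⟨u, B, ha1, ha2⟩
    exact ⟨_, ha1, ha2⟩

theorem SF_sball (hWB : ∀ s, 1 ≤ s → WB s (w s))
    (hG : ∀ n, ∀ᶠ s : ℕ in atTop, Good n s (w s)) {k : ℕ} (t : buss.Term (ℕ ⊕ Fin k))
    (φ : buss.BoundedFormula ℕ (k + 1)) (T : ℕ → Tr) (X : Fin k → Tr) :
    SF w (ballLe (tLen t) φ) T X = ⋂ q : Tr × List (List Bool), (fun A => ilv A (dec q.2)) ⁻¹'
      ((SF w (lastLe (tLen t)) (fun i => evT (T i)) (exX X q.1))ᶜ ∪
      SF w φ (fun i => evT (T i)) (exX X q.1)) := by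
  ext A
  simp only [mem_iInter, mem_preimage, mem_union, mem_compl_iff, ilv_mem_SF, realize_lastLe]
  unfold SF
  rw [mem_ofPred_eq, realize_ballLe]
  constructor
  · intro h q
    by_cases h1 : mLe (ME w q.1 (dec q.2))
      ((tLen t).realize (Sum.elim (fun i => ME w (T i) A) fun j => ME w (X j) A))
    · exact Or.inr (h _ h1)
    · exact Or.inl h1
  · intro h a ha
    have ha' := ha
    rw [realize_tLen] at ha'
    obtain ⟨u, l, rfl⟩ := small_rep hWB hG a _ ha'
    rcases h (u, l) with h1 | h1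
    · exact absurd ha h1
    · exact h1

/-- Complexity with a polarity. -/
def PC (b : Bool) (n : ℕ) (S : Set (ℕ → Cantor)) : Prop :=
  match b with
  | true => SgC n S
  | false => SgC n Sᶜ

theorem upper (hWB : ∀ s, 1 ≤ s → WB s (w s))
    (hG : ∀ n, ∀ᶠ s : ℕ in atTop, Good n s (w s)) {b : Bool} {i k : ℕ}
    {φ : buss.BoundedFormula ℕ k} (h : IsSP b i φ) (T : ℕ → Tr) (X : Fin k → Tr) :
    PC b (i + 1) (SF w φ T X) := by
  induction h generalizing T with
  | @sharp b i n φ hφ =>
    cases b with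
    | true => exact sgC_sharp hWB hG hφ T X _
    | false => exact sgC_sharp_compl hWB hG hφ T X _
  | @up b c i n φ _ ih =>
    have := ih T X
    cases b <;> cases c
    · exact SgC.succ this
    · have h2 := SgC.compl this
      rw [compl_compl] at h2
      exact h2
    · exact SgC.compl this
    · exact SgC.succ this
  | @imp b i n φ ψ _ _ ih1 ih2 =>
    have h1 := ih1 T X
    have h2 := ih2 T X
    have e : SF w (φ.imp ψ) T X = (SF w φ T X)ᶜ ∪ SF w ψ T X := by
      ext A
      simp only [SF, mem_ofPred_eq, mem_union, mem_compl_iff, BoundedFormula.realize_imp]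
      tauto
    cases b with
    | true =>
      change SgC (i + 1) _
      rw [e]
      exact SgC.union h1 h2
    | false =>
      change SgC (i + 1) _
      rw [e, compl_union, compl_compl]
      exact SgC.inter h1 h2
  | @ball i n t φ _ ih =>
    change SgC (i + 1 + 1) _
    rw [SF_compl_ball]
    refine SgC.iUnion _ fun u => SgC.proj (SgC.inter ?_ ?_)
    · exact sgC_sharp hWB hG (isSharp_lastLe t) _ _ _
    · exact ih _ _
  | @sball b i n t φ _ ih =>
    cases b with
    | true =>
      change SgC (i + 1) _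
      rw [SF_sball hWB hG]
      refine SgC.iInter _ fun q => SgC.comap (SgC.union ?_ ?_)
        (continuous_ilv continuous_id continuous_const)
      · exact sgC_sharp_compl hWB hG (isSharp_lastLe _) _ _ _
      · exact ih _ _
    | false =>
      change SgC (i + 1) _
      rw [SF_sball hWB hG, compl_iInter]
      refine SgC.iUnion _ fun q => ?_
      rw [← preimage_compl, compl_union, compl_compl]
      refine SgC.comap (SgC.inter ?_ ?_) (continuous_ilv continuous_id continuous_const)
      · exact sgC_sharp hWB hG (isSharp_lastLe _) _ _ _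
      · exact ih _ _

end

end Pool.Agent.H23
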